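import Mathlib

/-!
The `l`-adic Tate module of an abelian group.
-/

universe u v w

namespace Pool.Agent.Lib.MP_021685_agTT

open scoped TensorProduct

/-- The `l`-adic Tate module of the abelian group `M`: the sequences `x` of elements of `M` with
`x 0 = 0` and `l • x (n + 1) = x n`. -/
def Tl (l : ℕ) (M : Type u) [AddCommGroup M] : AddSubgroup (ℕ → M) where
  carrier := {x | x 0 = 0 ∧ ∀ n, l • x (n + 1) = x n}
  add_mem' := by
    rintro x y ⟨hx, hx'⟩ ⟨hy, hy'⟩
    refine ⟨by simp [hx, hy], fun n => ?_⟩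
    simp only [Pi.add_apply, smul_add, hx', hy']
  zero_mem' := ⟨rfl, fun n => by simp⟩
  neg_mem' := by
    rintro x ⟨hx, hx'⟩
    refine ⟨by simp [hx], fun n => ?_⟩
    simp only [Pi.neg_apply, smul_neg, hx']

section Basic

variable {l : ℕ} {M : Type u} [AddCommGroup M]

theorem Tl.zero' (x : Tl l M) : (x : ℕ → M) 0 = 0 := x.2.1

theorem Tl.succ' (x : Tl l M) (n : ℕ) : l • (x : ℕ → M) (n + 1) = (x : ℕ → M) n := x.2.2 n

theorem Tl.pow_smul' (x : Tl l M) (k n : ℕ) :
    l ^ k • (x : ℕ → M) (n + k) = (x : ℕ → M) n := by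
  induction k with
  | zero => simp
  | succ k ih =>
    rw [pow_succ, mul_smul, ← add_assoc, Tl.succ', ih]

theorem Tl.tor (x : Tl l M) (n : ℕ) : l ^ n • (x : ℕ → M) n = 0 := by
  have h := Tl.pow_smul' x n 0
  rwa [zero_add, Tl.zero'] at h

theorem smul_modEq {N a b : ℕ} {m : M} (h : N • m = 0) (hab : a ≡ b [MOD N]) : a • m = b • m := by
  have key : ∀ c : ℕ, c • m = (c % N) • m := by
    intro c
    conv_lhs => rw [← Nat.mod_add_div c N, add_smul, mul_comm, mul_smul, h, smul_zero, add_zero]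
  rw [key a, key b, hab]

end Basic

section Module

variable {l : ℕ} [hl : Fact l.Prime] {M : Type u} [AddCommGroup M]

theorem toZModPow_eq (n : ℕ) (a : ℤ_[l]) :
    PadicInt.toZModPow n a = ((a.appr n : ℕ) : ZMod (l ^ n)) := rfl

theorem appr_add (a b : ℤ_[l]) (n : ℕ) : (a + b).appr n ≡ a.appr n + b.appr n [MOD l ^ n] := by
  rw [← ZMod.natCast_eq_natCast_iff, Nat.cast_add, ← toZModPow_eq, ← toZModPow_eq,
    ← toZModPow_eq, map_add]

theorem appr_mul (a b : ℤ_[l]) (n : ℕ) : (a * b).appr n ≡ a.appr n * b.appr n [MOD l ^ n] := by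
  rw [← ZMod.natCast_eq_natCast_iff, Nat.cast_mul, ← toZModPow_eq, ← toZModPow_eq,
    ← toZModPow_eq, map_mul]

theorem appr_one (n : ℕ) : (1 : ℤ_[l]).appr n ≡ 1 [MOD l ^ n] := by
  rw [← ZMod.natCast_eq_natCast_iff, ← toZModPow_eq, map_one, Nat.cast_one]

theorem appr_zero (n : ℕ) : (0 : ℤ_[l]).appr n ≡ 0 [MOD l ^ n] := by
  rw [← ZMod.natCast_eq_natCast_iff, ← toZModPow_eq, map_zero, Nat.cast_zero]

theorem appr_nat (k n : ℕ) : (k : ℤ_[l]).appr n ≡ k [MOD l ^ n] := by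
  rw [← ZMod.natCast_eq_natCast_iff, ← toZModPow_eq, map_natCast]

theorem appr_succ (a : ℤ_[l]) (n : ℕ) : a.appr (n + 1) ≡ a.appr n [MOD l ^ n] :=
  ((Nat.modEq_iff_dvd' (PadicInt.appr_mono a n.le_succ)).2
    (PadicInt.dvd_appr_sub_appr a n (n + 1) n.le_succ)).symm

noncomputable instance : SMul ℤ_[l] (Tl l M) where
  smul a x := ⟨fun n => a.appr n • (x : ℕ → M) n, by simp [Tl.zero'], fun n => by
    rw [smul_comm, Tl.succ']
    exact smul_modEq (Tl.tor x n) (appr_succ a n)⟩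

theorem Tl.smul_apply (a : ℤ_[l]) (x : Tl l M) (n : ℕ) :
    ((a • x : Tl l M) : ℕ → M) n = a.appr n • (x : ℕ → M) n := rfl

omit hl in
theorem Tl.ext' {x y : Tl l M} (h : ∀ n, (x : ℕ → M) n = (y : ℕ → M) n) : x = y :=
  Subtype.ext (funext h)

noncomputable instance : Module ℤ_[l] (Tl l M) where
  one_smul x := Tl.ext' fun n => by
    rw [Tl.smul_apply, smul_modEq (Tl.tor x n) (appr_one n), one_smul]
  mul_smul a b x := Tl.ext' fun n => by
    rw [Tl.smul_apply, Tl.smul_apply, Tl.smul_apply, smul_modEq (Tl.tor x n) (appr_mul a b n),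
      mul_smul]
  smul_zero a := Tl.ext' fun n => by
    rw [Tl.smul_apply]; exact smul_zero _
  smul_add a x y := Tl.ext' fun n => by
    rw [Tl.smul_apply]; exact smul_add _ _ _
  add_smul a b x := Tl.ext' fun n => by
    rw [Tl.smul_apply, smul_modEq (Tl.tor x n) (appr_add a b n), add_smul]; rfl
  zero_smul x := Tl.ext' fun n => by
    rw [Tl.smul_apply, smul_modEq (Tl.tor x n) (appr_zero n), zero_smul]; rfl

theorem Tl.natCast_smul (k : ℕ) (x : Tl l M) (n : ℕ) :
    (((k : ℤ_[l]) • x : Tl l M) : ℕ → M) n = k • (x : ℕ → M) n := by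
  rw [Tl.smul_apply, smul_modEq (Tl.tor x n) (appr_nat k n)]

/-- The map of Tate modules given by a homomorphism. -/
noncomputable def Tl.map {N : Type v} [AddCommGroup N] (f : M →+ N) : Tl l M →ₗ[ℤ_[l]] Tl l N where
  toFun x := ⟨fun n => f ((x : ℕ → M) n), by simp [Tl.zero'], fun n => by
    rw [← map_nsmul, Tl.succ']⟩
  map_add' x y := Tl.ext' fun n => map_add f _ _
  map_smul' a x := Tl.ext' fun n => map_nsmul f _ _

theorem Tl.map_apply {N : Type v} [AddCommGroup N] (f : M →+ N) (x : Tl l M) (n : ℕ) :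
    ((Tl.map f x : Tl l N) : ℕ → N) n = f ((x : ℕ → M) n) := rfl

theorem Tl.map_id : Tl.map (l := l) (AddMonoidHom.id M) = LinearMap.id := rfl

theorem Tl.map_comp {N : Type v} [AddCommGroup N] {P : Type w} [AddCommGroup P] (g : N →+ P)
    (f : M →+ N) : Tl.map (l := l) (g.comp f) = (Tl.map g).comp (Tl.map f) := rfl

theorem Tl.map_add {N : Type v} [AddCommGroup N] (f g : M →+ N) :
    Tl.map (l := l) (f + g) = Tl.map f + Tl.map g := rfl

theorem Tl.map_pow (f : AddMonoid.End M) (k : ℕ) :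
    Tl.map (l := l) (f ^ k : AddMonoid.End M) = (Tl.map f : Module.End ℤ_[l] (Tl l M)) ^ k := by
  induction k with
  | zero => rfl
  | succ k ih => rw [pow_succ, pow_succ, ← ih]; rfl

/-- The Tate module is torsion free. -/
theorem Tl.smul_eq_zero {a : ℤ_[l]} (ha : a ≠ 0) {x : Tl l M} (h : a • x = 0) : x = 0 := by
  have hu := PadicInt.unitCoeff_spec ha
  set u := PadicInt.unitCoeff ha
  set k := a.valuation
  have h2 : ((l : ℤ_[l]) ^ k) • x = 0 := by
    have h3 : (u : ℤ_[l]) • (((l : ℤ_[l]) ^ k) • x) = 0 := by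
      rw [smul_smul, ← hu, h]
    have h4 : (↑u⁻¹ : ℤ_[l]) • ((u : ℤ_[l]) • (((l : ℤ_[l]) ^ k) • x)) = 0 := by
      rw [h3, smul_zero]
    rwa [smul_smul, Units.inv_mul, one_smul] at h4
  refine Tl.ext' fun n => ?_
  have h5 : (((((l ^ k : ℕ) : ℤ_[l])) • x : Tl l M) : ℕ → M) (n + k) = 0 := by
    rw [Nat.cast_pow, h2]; rfl
  rw [Tl.natCast_smul, Tl.pow_smul'] at h5
  rw [h5]; rfl

instance : Module.IsTorsionFree ℤ_[l] (Tl l M) where
  isSMulRegular a ha x y hxy := by
    have h : a • (x - y) = 0 := by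
      rw [smul_sub]; exact sub_eq_zero.2 hxy
    exact sub_eq_zero.1 (Tl.smul_eq_zero ha.ne_zero h)

/-- The rational Tate module. -/
abbrev Vl (l : ℕ) [Fact l.Prime] (M : Type u) [AddCommGroup M] : Type u :=
  ℚ_[l] ⊗[ℤ_[l]] Tl l M

/-- The map of rational Tate modules given by a homomorphism. -/
noncomputable def Vl.map {N : Type v} [AddCommGroup N] (f : M →+ N) : Vl l M →ₗ[ℚ_[l]] Vl l N :=
  (Tl.map f).baseChange ℚ_[l]

end Module

end Pool.Agent.Lib.MP_021685_agTT
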