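import Pool.Agent.Lib.MP_17a322_nt.VA.AV
import Pool.Agent.Lib.MP_021685_agTT.TT

/-!
The homomorphisms of the groups of points of an abelian variety given by homomorphisms of fields,
and the Frobenius endomorphism of the points over the algebraic closure of a finite field.
-/

universe u

namespace Pool.Agent.Lib.MP_021685_agTT

open Pool.Agent.Lib.MP_17a322_nt.VA MvPolynomial

section

variable {K : Type u} [Field K] {N : ℕ}

theorem aeval_scale {L : Type*} [CommRing L] [Algebra K L] {φ : MvPolynomial (Fin (N + 1)) K}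
    {d : ℕ} (h : φ.IsHomogeneous d) (c : L) (y : Fin (N + 1) → L) :
    aeval (fun i => c * y i) φ = c ^ d * aeval y φ := by
  simp only [aeval_def, eval₂_eq']
  rw [Finset.mul_sum]
  refine Finset.sum_congr rfl fun m hm => ?_
  have hd : ∑ i, m i = d := by
    by_contra hne
    refine (mem_support_iff.1 hm) (h.coeff_eq_zero ?_)
    rwa [Finsupp.degree_eq_sum]
  rw [show (∏ i, (c * y i) ^ m i) = c ^ d * ∏ i, y i ^ m i by
    simp only [mul_pow, Finset.prod_mul_distrib, Finset.prod_pow_eq_pow_sum, hd]]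
  ring

theorem vanish_scale {L : Type*} [CommRing L] [Algebra K L]
    {I : Ideal (MvPolynomial (Fin (N + 1)) K)} (hI : ∀ f ∈ I, ∀ d, homogeneousComponent d f ∈ I)
    {y : Fin (N + 1) → L} (hy : ∀ f ∈ I, aeval y f = 0) (c : L) :
    ∀ f ∈ I, aeval (fun i => c * y i) f = 0 := by
  intro f hf
  rw [← sum_homogeneousComponent f, map_sum]
  refine Finset.sum_eq_zero fun d _ => ?_
  rw [aeval_scale (homogeneousComponent_isHomogeneous d f), hy _ (hI f hf d), mul_zero]

theorem Pt_eq {I : Ideal (MvPolynomial (Fin (N + 1)) K)} {L : Type u} [Field L] [Algebra K L]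
    {P P' : Pt I L} {c : L} (h : ∀ i, P.1.rep i = c * P'.1.rep i) : P = P' := by
  apply Subtype.ext
  rw [← Projectivization.mk_rep P.1, ← Projectivization.mk_rep P'.1,
    Projectivization.mk_eq_mk_iff']
  exact ⟨c, funext fun i => (h i).symm⟩

theorem Pt_mk {I : Ideal (MvPolynomial (Fin (N + 1)) K)} {L : Type u} [Field L] [Algebra K L]
    (hI : ∀ f ∈ I, ∀ d, homogeneousComponent d f ∈ I) {y : Fin (N + 1) → L} (hy : y ≠ 0)
    (hy' : ∀ f ∈ I, aeval y f = 0) : ∀ f ∈ I, aeval (Projectivization.mk L y hy).rep f = 0 := by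
  obtain ⟨a, ha⟩ := Projectivization.exists_smul_eq_mk_rep L y hy
  rw [← ha]
  exact vanish_scale hI hy' (a : L)

theorem mapRep_ne {L L' : Type u} [Field L] [Algebra K L] [Field L'] [Algebra K L']
    (φ : L →ₐ[K] L') (P : Projectivization L (Fin (N + 1) → L)) :
    (fun i => φ (P.rep i)) ≠ 0 := by
  intro h
  apply P.rep_nonzero
  funext i
  have := congrFun h i
  exact (map_eq_zero φ).1 this

/-- The image of a point under a homomorphism of fields: the homomorphism is applied to the
coordinates. -/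
noncomputable def mapPt {I : Ideal (MvPolynomial (Fin (N + 1)) K)}
    (hI : ∀ f ∈ I, ∀ d, homogeneousComponent d f ∈ I) {L L' : Type u} [Field L] [Algebra K L]
    [Field L'] [Algebra K L'] (φ : L →ₐ[K] L') (P : Pt I L) : Pt I L' :=
  ⟨Projectivization.mk L' (fun i => φ (P.1.rep i)) (mapRep_ne φ P.1),
    Pt_mk hI (mapRep_ne φ P.1) fun f hf => by
      have h := congrArg φ (P.2 f hf)
      rw [map_zero] at h
      rw [← h]
      exact (comp_aeval_apply (S₁ := L) (f := fun i => P.1.rep i) φ f).symm⟩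

theorem isImg_mapPt {I : Ideal (MvPolynomial (Fin (N + 1)) K)}
    (hI : ∀ f ∈ I, ∀ d, homogeneousComponent d f ∈ I) {L L' : Type u} [Field L] [Algebra K L]
    [Field L'] [Algebra K L'] (φ : L →ₐ[K] L') (P : Pt I L) : IsImg φ P (mapPt hI φ P) := by
  obtain ⟨a, ha⟩ := Projectivization.exists_smul_eq_mk_rep L' (fun i => φ (P.1.rep i))
    (mapRep_ne φ P.1)
  refine ⟨((a⁻¹ : L'ˣ) : L'), Units.ne_zero _, fun i => ?_⟩
  have h := congrFun ha i
  change (a : L') * φ (P.1.rep i) = (mapPt hI φ P).1.rep i at h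
  rw [← h, ← mul_assoc, Units.inv_mul, one_mul]

theorem eq_mapPt {I : Ideal (MvPolynomial (Fin (N + 1)) K)}
    (hI : ∀ f ∈ I, ∀ d, homogeneousComponent d f ∈ I) {L L' : Type u} [Field L] [Algebra K L]
    [Field L'] [Algebra K L'] {φ : L →ₐ[K] L'} {P : Pt I L} {P' : Pt I L'} (h : IsImg φ P P') :
    mapPt hI φ P = P' := by
  obtain ⟨c, hc, h1⟩ := h
  obtain ⟨c', hc', h2⟩ := isImg_mapPt hI φ P
  refine Pt_eq (c := c'⁻¹ * c) fun i => ?_
  rw [mul_assoc, ← h1 i, h2 i, ← mul_assoc, inv_mul_cancel₀ hc', one_mul]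

/-- The homomorphism of the groups of points of `A` given by a homomorphism of fields. -/
noncomputable def ptsMap (A : AV K N) {L L' : Type u} [Field L] [Algebra K L]
    [Field L'] [Algebra K L'] (φ : L →ₐ[K] L') : A.Pts L →+ A.Pts L' :=
  AddMonoidHom.mk' (fun P => mapPt A.homog φ P) fun P Q =>
    eq_mapPt A.homog (A.functorial L L' φ P Q _ _ (isImg_mapPt A.homog φ P)
      (isImg_mapPt A.homog φ Q))

end

/-- The Frobenius endomorphism of the group `A(K̄)`, `K` a finite field with `q` elements: the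
coordinates of a point are raised to the power `q`. -/
noncomputable def frob {K : Type u} [Field K] [Fintype K] {N : ℕ} (A : AV K N) :
    AddMonoid.End (A.Pts (AlgebraicClosure K)) :=
  ptsMap A (FiniteField.frobeniusAlgHom K (AlgebraicClosure K))

theorem frob_spec {K : Type u} [Field K] [Fintype K] {N : ℕ} (A : AV K N)
    (P : A.Pts (AlgebraicClosure K)) :
    ∃ c : AlgebraicClosure K, c ≠ 0 ∧ ∀ i, A.x P i ^ Fintype.card K = c * A.x (frob A P) i :=
  isImg_mapPt A.homog (FiniteField.frobeniusAlgHom K (AlgebraicClosure K)) P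

end Pool.Agent.Lib.MP_021685_agTT
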