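import Pool.Agent.Lib.MP_021685_agTT.LA3

/-!
Alternating Tate forms on a power `V ^ n` are combinations of cup products of pull backs of `e` under homomorphisms
`V ^ n → V` with components in `ℤ[F]`.
-/

set_option autoImplicit false

namespace Pool.Agent.Lib.MP_021685_agTT

open Polynomial Module

section

variable {k : Type*} [Field k] {W : Type*} {j : ℕ}

/-- Up to the factor `2 ^ j`, the cup product of the `j` forms `B i` of degree two: a form in `2 j` arguments. -/
def cup (B : Fin j → W → W → k) (v : Fin j ⊕ Fin j → W) : k :=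
  ∑ σ : Equiv.Perm (Fin j ⊕ Fin j), ((Equiv.Perm.sign σ : ℤ) : k) *
    ∏ i, B i (v (σ (Sum.inl i))) (v (σ (Sum.inr i)))

theorem cup_perm (B : Fin j → W → W → k) (π : Equiv.Perm (Fin j ⊕ Fin j)) (v : Fin j ⊕ Fin j → W) :
    ∑ σ : Equiv.Perm (Fin j ⊕ Fin j), ((Equiv.Perm.sign σ : ℤ) : k) *
      ∏ i, B i (v (σ (π (Sum.inl i)))) (v (σ (π (Sum.inr i)))) =
    ((Equiv.Perm.sign π : ℤ) : k) * cup B v := by
  have h := Fintype.sum_equiv (Equiv.mulRight π)
    (fun σ : Equiv.Perm (Fin j ⊕ Fin j) => ((Equiv.Perm.sign σ : ℤ) : k) *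
      ∏ i, B i (v (σ (π (Sum.inl i)))) (v (σ (π (Sum.inr i)))))
    (fun σ => ((Equiv.Perm.sign π : ℤ) : k) * (((Equiv.Perm.sign σ : ℤ) : k) *
      ∏ i, B i (v (σ (Sum.inl i))) (v (σ (Sum.inr i))))) fun σ => by
        simp only [Equiv.coe_mulRight, Equiv.Perm.mul_apply, Equiv.Perm.sign_mul, Units.val_mul,
          Int.cast_mul]
        rw [← mul_assoc, mul_comm ((Equiv.Perm.sign π : ℤ) : k), mul_assoc ((Equiv.Perm.sign σ : ℤ) : k)]
        have h1 : ((Equiv.Perm.sign π : ℤ) : k) * ((Equiv.Perm.sign π : ℤ) : k) = 1 := by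
          rw [← Int.cast_mul, ← Units.val_mul, Int.units_mul_self, Units.val_one, Int.cast_one]
        rw [h1, mul_one]
  rw [h, cup, Finset.mul_sum]

theorem cup_flip (B : Fin j → W → W → k) (a : Fin j) (v : Fin j ⊕ Fin j → W) :
    cup (Function.update B a fun x y => B a y x) v = - cup B v := by
  have h := cup_perm B (Equiv.swap (Sum.inl a) (Sum.inr a)) v
  rw [Equiv.Perm.sign_swap (by simp)] at h
  simp only [Units.val_neg, Units.val_one, Int.cast_neg, Int.cast_one, neg_mul, one_mul] at h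
  rw [← h, cup]
  refine Finset.sum_congr rfl fun σ _ => ?_
  congr 1
  refine Finset.prod_congr rfl fun i _ => ?_
  by_cases hia : i = a
  · subst hia
    rw [Function.update_self, Equiv.swap_apply_left, Equiv.swap_apply_right]
  · rw [Function.update_of_ne hia, Equiv.swap_apply_of_ne_of_ne (by simpa using hia) (by simp),
      Equiv.swap_apply_of_ne_of_ne (by simp) (by simpa using hia)]

theorem cup_sub (B : Fin j → W → W → k) (a : Fin j) (f g : W → W → k) (v : Fin j ⊕ Fin j → W) :
    cup (Function.update B a fun x y => f x y - g x y) v =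
      cup (Function.update B a f) v - cup (Function.update B a g) v := by
  rw [cup, cup, cup, ← Finset.sum_sub_distrib]
  refine Finset.sum_congr rfl fun σ _ => ?_
  rw [← mul_sub]
  congr 1
  have key : ∀ h : W → W → k, ∏ i, Function.update B a h i (v (σ (Sum.inl i))) (v (σ (Sum.inr i))) =
      h (v (σ (Sum.inl a))) (v (σ (Sum.inr a))) *
        ∏ i ∈ Finset.univ.erase a, B i (v (σ (Sum.inl i))) (v (σ (Sum.inr i))) := by
    intro h
    rw [← Finset.mul_prod_erase _ _ (Finset.mem_univ a), Function.update_self]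
    congr 1
    refine Finset.prod_congr rfl fun i hi => ?_
    rw [Function.update_of_ne (Finset.ne_of_mem_erase hi)]
  rw [key, key, key, sub_mul]

theorem cup_alt_one (B : Fin j → W → W → k) (a : Fin j) (v : Fin j ⊕ Fin j → W) :
    cup (Function.update B a fun x y => B a x y - B a y x) v = 2 * cup B v := by
  rw [cup_sub B a (B a) (fun x y => B a y x), Function.update_eq_self, cup_flip]
  ring

theorem cup_alt (B : Fin j → W → W → k) (U : Finset (Fin j)) (v : Fin j ⊕ Fin j → W) :
    cup (fun a => if a ∈ U then fun x y => B a x y - B a y x else B a) v = 2 ^ U.card * cup B v := by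
  classical
  induction U using Finset.induction_on with
  | empty => simp
  | insert a U ha ih =>
    have h := cup_alt_one (fun a => if a ∈ U then fun x y => B a x y - B a y x else B a) a v
    rw [ih, if_neg ha] at h
    rw [Finset.card_insert_of_notMem ha, pow_succ', mul_assoc, ← h]
    congr 1
    funext b
    by_cases hb : b = a
    · subst hb
      rw [if_pos (Finset.mem_insert_self _ _), Function.update_self]
    · rw [Function.update_of_ne hb]
      simp only [Finset.mem_insert, hb, false_or]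

theorem cup_expand {ι : Type*} [Fintype ι] (B : Fin j → W → W → k) (c : ι → k)
    (D : Fin j → ι → W → W → k) (h : ∀ i x y, B i x y = ∑ r, c r * D i r x y)
    (v : Fin j ⊕ Fin j → W) :
    cup B v = ∑ p : Fin j → ι, (∏ i, c (p i)) * cup (fun i => D i (p i)) v := by
  classical
  simp only [cup, h]
  simp only [Finset.prod_univ_sum, Finset.mul_sum, Fintype.piFinset_univ]
  rw [Finset.sum_comm]
  refine Finset.sum_congr rfl fun p _ => Finset.sum_congr rfl fun σ _ => ?_
  rw [Finset.prod_mul_distrib]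
  ring

end

section

variable {k : Type*} [Field k] {V : Type*} [AddCommGroup V] [Module k V] {n j : ℕ}

/-- The map `V ^ n → V` with the components `m s (F)`, `m s ∈ ℤ[X]`. -/
noncomputable def homV (F : V →ₗ[k] V) (m : Fin n → ℤ[X]) (x : Fin n → V) : V :=
  ∑ s, aeval (R := ℤ) (A := Module.End k V) F (m s) (x s)

/-- The pull back of the form `e` under `homV F m`. -/
noncomputable def pull (e : V →ₗ[k] V →ₗ[k] k) (F : V →ₗ[k] V) (m : Fin n → ℤ[X])
    (x y : Fin n → V) : k :=
  e (homV F m x) (homV F m y)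

theorem homV_add (F : V →ₗ[k] V) (m m' : Fin n → ℤ[X]) (x : Fin n → V) :
    homV F (m + m') x = homV F m x + homV F m' x := by
  simp only [homV, Pi.add_apply, map_add, LinearMap.add_apply, Finset.sum_add_distrib]

theorem homV_single (F : V →ₗ[k] V) (s : Fin n) (p : ℤ[X]) (x : Fin n → V) :
    homV F (Pi.single s p) x = aeval (R := ℤ) (A := Module.End k V) F p (x s) := by
  rw [homV, Finset.sum_eq_single s]
  · rw [Pi.single_eq_same]
  · intro t _ ht
    rw [Pi.single_eq_of_ne ht, map_zero]; rfl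
  · intro h
    exact absurd (Finset.mem_univ _) h

/-- The signs `1, -1, -1`. -/
def sg (k : Type*) [Field k] : Fin 3 → k := ![1, -1, -1]

/-- The homomorphisms `V ^ n → V`: `F ^ i v_s + v_t`, `F ^ i v_s`, `v_t`. -/
noncomputable def mm (i : ℕ) (s t : Fin n) : Fin 3 → Fin n → ℤ[X] :=
  ![Pi.single s (X ^ i) + Pi.single t 1, Pi.single s (X ^ i), Pi.single t 1]

theorem alt_eq (e : V →ₗ[k] V →ₗ[k] k) (halt : ∀ v, e v v = 0) (F : V →ₗ[k] V) (i : ℕ)
    (s t : Fin n) (x y : Fin n → V) :
    e ((F ^ i) (x s)) (y t) - e ((F ^ i) (y s)) (x t) =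
      ∑ r : Fin 3, sg k r * pull e F (mm i s t r) x y := by
  have hskew : ∀ v w, e v w = - e w v := by
    intro v w
    have h := halt (v + w)
    rw [map_add, map_add, LinearMap.add_apply, LinearMap.add_apply, halt, halt, zero_add, add_zero,
      add_comm] at h
    exact eq_neg_of_add_eq_zero_left h
  have h0 : sg k 0 = 1 := rfl
  have h1 : sg k 1 = -1 := rfl
  have h2 : sg k 2 = -1 := rfl
  have m0 : mm i s t 0 = Pi.single s (X ^ i) + Pi.single t 1 := rfl
  have m1 : mm i s t 1 = Pi.single s (X ^ i) := rfl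
  have m2 : mm i s t 2 = Pi.single t 1 := rfl
  rw [Fin.sum_univ_three, h0, h1, h2, m0, m1, m2]
  simp only [pull, homV_add, homV_single, map_pow, aeval_X, map_one, Module.End.one_apply,
    map_add, LinearMap.add_apply]
  rw [hskew (x t) ((F ^ i) (y s))]
  ring

/-- The cup products of the forms `e (F ^ i v_s) w_t` are combinations of cup products of pull backs of `e`. -/
theorem cup_mem [CharZero k] (e : V →ₗ[k] V →ₗ[k] k) (halt : ∀ v, e v v = 0) (F : V →ₗ[k] V)
    (q : Fin j → ℕ × Fin n × Fin n) (B : Fin j → (Fin n → V) → (Fin n → V) → k)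
    (hB : ∀ a x y, B a x y = e ((F ^ (q a).1) (x (q a).2.1)) (y (q a).2.2)) :
    (fun v => cup B v) ∈ Submodule.span k
      (Set.range fun (m : Fin j → Fin n → ℤ[X]) (v : Fin j ⊕ Fin j → Fin n → V) =>
        cup (fun i => pull e F (m i)) v) := by
  have h2 : (2 : k) ^ j ≠ 0 := pow_ne_zero _ two_ne_zero
  have h1 : ∀ v, cup B v = ((2 : k) ^ j)⁻¹ * ∑ p : Fin j → Fin 3, (∏ i, sg k (p i)) *
      cup (fun i => pull e F (mm (q i).1 (q i).2.1 (q i).2.2 (p i))) v := by
    intro v
    have h3 := cup_alt B Finset.univ v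
    rw [Finset.card_univ, Fintype.card_fin] at h3
    rw [eq_inv_mul_iff_mul_eq₀ h2, ← h3]
    refine cup_expand _ (sg k) (fun i r => pull e F (mm (q i).1 (q i).2.1 (q i).2.2 r))
      (fun i x y => ?_) v
    rw [if_pos (Finset.mem_univ i), hB, hB]
    exact alt_eq e halt F (q i).1 (q i).2.1 (q i).2.2 x y
  have h4 : (fun v => cup B v) = ((2 : k) ^ j)⁻¹ • ∑ p : Fin j → Fin 3, (∏ i, sg k (p i)) •
      (fun v => cup (fun i => pull e F (mm (q i).1 (q i).2.1 (q i).2.2 (p i))) v) := by
    funext v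
    rw [h1 v, Pi.smul_apply, Finset.sum_apply, smul_eq_mul]
    rfl
  rw [h4]
  exact Submodule.smul_mem _ _ (Submodule.sum_mem _ fun p _ => Submodule.smul_mem _ _
    (Submodule.subset_span ⟨fun i => mm (q i).1 (q i).2.1 (q i).2.2 (p i), rfl⟩))

/-- An alternating form is the sum over the permutations. -/
theorem alt_sum (T : (Fin n → V) [⋀^Fin j ⊕ Fin j]→ₗ[k] k) (v : Fin j ⊕ Fin j → Fin n → V) :
    (Fintype.card (Equiv.Perm (Fin j ⊕ Fin j)) : k) * T v =
      ∑ σ : Equiv.Perm (Fin j ⊕ Fin j), ((Equiv.Perm.sign σ : ℤ) : k) * T (v ∘ σ) := by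
  have h1 : ∀ σ : Equiv.Perm (Fin j ⊕ Fin j),
      ((Equiv.Perm.sign σ : ℤ) : k) * T (v ∘ σ) = T v := by
    intro σ
    rw [T.map_perm, Units.smul_def, zsmul_eq_mul, ← mul_assoc, ← Int.cast_mul, ← Units.val_mul,
      Int.units_mul_self, Units.val_one, Int.cast_one, one_mul]
  rw [Finset.sum_congr rfl fun σ _ => h1 σ, Finset.sum_const, Finset.card_univ, nsmul_eq_mul]

/-- An alternating form `T` on `V ^ n` which is a combination of products of forms `e (F ^ i v_s) w_t` is a combination of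
cup products of pull backs of `e`. -/
theorem alt_bridge [CharZero k] (e : V →ₗ[k] V →ₗ[k] k) (halt : ∀ v, e v v = 0) (F : V →ₗ[k] V)
    (T : (Fin n → V) [⋀^Fin j ⊕ Fin j]→ₗ[k] k) (e0 : Fin j ⊕ Fin j ≃ Fin (2 * j))
    (c : Ind n j →₀ k) (hc : ∀ v : Fin (2 * j) → Fin n → V,
      T (fun a => v (e0 a)) = c.sum fun α y => y * pairProd e F α v) :
    ∃ c' : (Fin j → Fin n → ℤ[X]) →₀ k, ∀ v : Fin j ⊕ Fin j → Fin n → V,
      T v = c'.sum fun m y => y * cup (fun i => pull e F (m i)) v := by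
  classical
  have hcard : (Fintype.card (Equiv.Perm (Fin j ⊕ Fin j)) : k) ≠ 0 :=
    Nat.cast_ne_zero.2 Fintype.card_ne_zero
  let B : Ind n j → Fin j → (Fin n → V) → (Fin n → V) → k := fun α a x y =>
    e ((F ^ (α.2 a).1) (x (α.2 a).2.1)) (y (α.2 a).2.2)
  have h5 : ∀ (v : Fin j ⊕ Fin j → Fin n → V) (σ : Equiv.Perm (Fin j ⊕ Fin j)), T (v ∘ σ) =
      ∑ α ∈ c.support, c α * ∏ a : Fin j, B α a (v (σ ((α.1.trans e0.symm) (Sum.inl a))))
        (v (σ ((α.1.trans e0.symm) (Sum.inr a)))) := by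
    intro v σ
    have h6 := hc fun a => v (σ (e0.symm a))
    simp only [Equiv.symm_apply_apply] at h6
    exact h6
  have hT : ∀ v, (Fintype.card (Equiv.Perm (Fin j ⊕ Fin j)) : k) * T v =
      ∑ α ∈ c.support, (c α * ((Equiv.Perm.sign (α.1.trans e0.symm) : ℤ) : k)) * cup (B α) v := by
    intro v
    rw [alt_sum]
    have h7 : ∀ σ : Equiv.Perm (Fin j ⊕ Fin j), ((Equiv.Perm.sign σ : ℤ) : k) * T (v ∘ σ) =
        ∑ α ∈ c.support, c α * (((Equiv.Perm.sign σ : ℤ) : k) *
          ∏ a : Fin j, B α a (v (σ ((α.1.trans e0.symm) (Sum.inl a))))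
            (v (σ ((α.1.trans e0.symm) (Sum.inr a))))) := by
      intro σ
      rw [h5, Finset.mul_sum]
      refine Finset.sum_congr rfl fun α _ => ?_
      rw [mul_left_comm]
    rw [Finset.sum_congr rfl fun σ _ => h7 σ, Finset.sum_comm]
    refine Finset.sum_congr rfl fun α _ => ?_
    rw [← Finset.mul_sum, cup_perm, mul_assoc]
  have h1 : (fun v => T v) = (Fintype.card (Equiv.Perm (Fin j ⊕ Fin j)) : k)⁻¹ •
      ∑ α ∈ c.support, (c α * ((Equiv.Perm.sign (α.1.trans e0.symm) : ℤ) : k)) •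
        (fun v => cup (B α) v) := by
    funext v
    rw [Pi.smul_apply, smul_eq_mul, eq_inv_mul_iff_mul_eq₀ hcard, hT v, Finset.sum_apply]
    rfl
  have hTS : (fun v => T v) ∈ Submodule.span k
      (Set.range fun (m : Fin j → Fin n → ℤ[X]) (v : Fin j ⊕ Fin j → Fin n → V) =>
        cup (fun i => pull e F (m i)) v) := by
    rw [h1]
    exact Submodule.smul_mem _ _ (Submodule.sum_mem _ fun α _ => Submodule.smul_mem _ _
      (cup_mem e halt F α.2 (B α) fun a x y => rfl))
  obtain ⟨c', hc'⟩ := Finsupp.mem_span_range_iff_exists_finsupp.1 hTS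
  refine ⟨c', fun v => ?_⟩
  rw [← congrFun hc' v, Finsupp.sum, Finsupp.sum, Finset.sum_apply]
  rfl

end

end Pool.Agent.Lib.MP_021685_agTT
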