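import Mathlib

/-!
Extension of scalars of multilinear maps with values in a dual space.
-/

set_option autoImplicit false

namespace Pool.Agent.Lib.MP_021685_agTT

open scoped TensorProduct

universe u v w x

section

variable {k : Type u} [Field k] {V : Type v} [AddCommGroup V] [Module k V] {W : Type x} [AddCommGroup W] [Module k W]
  (C : Type w) [Field C] [Algebra k C]

/-- Two linear forms over `C` which agree on `1 ⊗ w` are equal. -/
theorem lin_ext {y y' : C ⊗[k] W →ₗ[C] C} (h : ∀ w : W, y (1 ⊗ₜ w) = y' (1 ⊗ₜ w)) : y = y' := by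
  ext w
  simpa using h w

/-- The linear form over `C` given by a linear form over `k`. -/
noncomputable def linC (y : W →ₗ[k] k) : C ⊗[k] W →ₗ[C] C :=
  (TensorProduct.AlgebraTensorModule.rid k C C).toLinearMap ∘ₗ y.baseChange C

theorem linC_tmul (y : W →ₗ[k] k) (w : W) : linC C y (1 ⊗ₜ w) = algebraMap k C (y w) := by
  show (TensorProduct.AlgebraTensorModule.rid k C C) (y.baseChange C (1 ⊗ₜ w)) = _
  rw [LinearMap.baseChange_tmul, TensorProduct.AlgebraTensorModule.rid_tmul, Algebra.smul_def, mul_one]

/-- A multilinear map with values in a dual space extends to the spaces obtained by extension of scalars. -/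
theorem exists_extendW [Module.Finite k V] {n : ℕ} (T : MultilinearMap k (fun _ : Fin n => V) (W →ₗ[k] k)) :
    ∃ TC : MultilinearMap C (fun _ : Fin n => C ⊗[k] V) (C ⊗[k] W →ₗ[C] C),
      (∀ (v : Fin n → V) (w : W), TC (fun a => 1 ⊗ₜ v a) (1 ⊗ₜ w) = algebraMap k C (T v w)) ∧
      ∀ (g : V →ₗ[k] V) (h : W →ₗ[k] W) (c : k), (∀ v w, T (fun a => g (v a)) (h w) = c * T v w) →
        ∀ x y, TC (fun a => g.baseChange C (x a)) (h.baseChange C y) = algebraMap k C c * TC x y := by
  classical
  let β := Module.finBasis k V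
  let βC := β.baseChange C
  let TC : MultilinearMap C (fun _ : Fin n => C ⊗[k] V) (C ⊗[k] W →ₗ[C] C) :=
    ∑ f : Fin n → Fin (Module.finrank k V),
      (LinearMap.toSpanSingleton C (C ⊗[k] W →ₗ[C] C) (linC C (T fun a => β (f a)))).compMultilinearMap
        ((MultilinearMap.mkPiAlgebra C (Fin n) C).compLinearMap (fun a => βC.coord (f a)))
  have hTC0 : ∀ x y, TC x y = ∑ f : Fin n → Fin (Module.finrank k V),
      (∏ a, βC.coord (f a) (x a)) * linC C (T fun a => β (f a)) y := by
    intro x y
    show (∑ f : Fin n → Fin (Module.finrank k V),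
      (LinearMap.toSpanSingleton C (C ⊗[k] W →ₗ[C] C) (linC C (T fun a => β (f a)))).compMultilinearMap
        ((MultilinearMap.mkPiAlgebra C (Fin n) C).compLinearMap (fun a => βC.coord (f a)))) x y = _
    rw [sum_apply, LinearMap.sum_apply]
    refine Finset.sum_congr rfl fun f _ => ?_
    rw [LinearMap.compMultilinearMap_apply, LinearMap.toSpanSingleton_apply, LinearMap.smul_apply,
      MultilinearMap.compLinearMap_apply, MultilinearMap.mkPiAlgebra_apply, smul_eq_mul]
  have hTC : ∀ (v : Fin n → V) (w : W), TC (fun a => 1 ⊗ₜ v a) (1 ⊗ₜ w) = algebraMap k C (T v w) := by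
    intro v w
    have h1 : T v w = ∑ f : Fin n → Fin (Module.finrank k V), (∏ a, β.repr (v a) (f a)) * T (fun a => β (f a)) w := by
      conv_lhs => rw [show v = fun a => ∑ i, β.repr (v a) i • β i from funext fun a => (β.sum_repr (v a)).symm]
      rw [MultilinearMap.map_sum, LinearMap.sum_apply]
      refine Finset.sum_congr rfl fun f _ => ?_
      rw [MultilinearMap.map_smul_univ, LinearMap.smul_apply, smul_eq_mul]
    rw [h1, map_sum, hTC0]
    refine Finset.sum_congr rfl fun f _ => ?_
    rw [map_mul, map_prod, linC_tmul]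
    congr 1
    refine Finset.prod_congr rfl fun a _ => ?_
    rw [Module.Basis.coord_apply, Module.Basis.baseChange_repr_tmul, Algebra.smul_def, mul_one]
  refine ⟨TC, hTC, fun g h c hg x y => ?_⟩
  have h2 : (LinearMap.lcomp C C (h.baseChange C)).compMultilinearMap (TC.compLinearMap (fun _ => g.baseChange C)) =
      algebraMap k C c • TC := by
    refine Module.Basis.ext_multilinear (fun _ => βC) fun f => ?_
    refine lin_ext C fun w => ?_
    rw [LinearMap.compMultilinearMap_apply, LinearMap.lcomp_apply, MultilinearMap.compLinearMap_apply, smul_apply,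
      LinearMap.smul_apply]
    have h3 : ∀ a, βC (f a) = 1 ⊗ₜ β (f a) := fun a => Module.Basis.baseChange_apply C β (f a)
    simp only [h3, LinearMap.baseChange_tmul]
    rw [hTC, hTC, hg, map_mul, smul_eq_mul]
  have h4 := congrArg (fun M : MultilinearMap C (fun _ : Fin n => C ⊗[k] V) (C ⊗[k] W →ₗ[C] C) => M x y) h2
  exact h4

end

end Pool.Agent.Lib.MP_021685_agTT
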