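import Pool.Agent.Lib.MP_021685_agTT.DG

/-!
Descent of linear combinations of products of bilinear forms and one linear form from a field `C` to a subfield `k`.
-/

set_option autoImplicit false

namespace Pool.Agent.Lib.MP_021685_agTT

open scoped TensorProduct

universe u v w x

section

variable {k : Type u} [Field k] {V : Type v} [AddCommGroup V] [Module k V] {W : Type x} [AddCommGroup W] [Module k W]

/-- The linear forms `y` with `y (h w) = d y (w)` for the pairs `(h, d)` in `S`. -/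
def IsLin (S : Set ((W →ₗ[k] W) × k)) (y : W →ₗ[k] k) : Prop :=
  ∀ p ∈ S, ∀ w, y (p.1 w) = p.2 * y w

/-- `D (v, w) = y (w) ∏ b j (v .., v ..)` with bilinear forms `b j` for `S` and a linear form `y` for `S'`. -/
def IsProdW (S : Set ((V →ₗ[k] V) × k)) (S' : Set ((W →ₗ[k] W) × k)) {n m : ℕ} (e : Fin m ⊕ Fin m ≃ Fin n)
    (D : MultilinearMap k (fun _ : Fin n => V) (W →ₗ[k] k)) : Prop :=
  ∃ (b : Fin m → V →ₗ[k] V →ₗ[k] k) (y : W →ₗ[k] k), (∀ j, IsPair S (b j)) ∧ IsLin S' y ∧
    ∀ v w, D v w = (∏ j, b j (v (e (Sum.inl j))) (v (e (Sum.inr j)))) * y w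

/-- The multilinear map `v ↦ (∏ b j (v .., v ..)) y`. -/
noncomputable def mulFormW {n m : ℕ} (e : Fin m ⊕ Fin m ≃ Fin n) (b : Fin m → V →ₗ[k] V →ₗ[k] k) (y : W →ₗ[k] k) :
    MultilinearMap k (fun _ : Fin n => V) (W →ₗ[k] k) :=
  (LinearMap.toSpanSingleton k (W →ₗ[k] k) y).compMultilinearMap (mulForm e b)

theorem mulFormW_apply {n m : ℕ} (e : Fin m ⊕ Fin m ≃ Fin n) (b : Fin m → V →ₗ[k] V →ₗ[k] k) (y : W →ₗ[k] k)
    (v : Fin n → V) (w : W) :
    mulFormW e b y v w = (∏ j, b j (v (e (Sum.inl j))) (v (e (Sum.inr j)))) * y w := rfl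

variable {C : Type w} [Field C] [Algebra k C]

/-- A linear map to `C` with the property of the forms in `IsLin` is a combination of such forms over `k`. -/
theorem exists_expand_lin [Module.Finite k W] (S : Set ((W →ₗ[k] W) × k)) (γ : W →ₗ[k] C)
    (hγ : ∀ p ∈ S, ∀ w, γ (p.1 w) = algebraMap k C p.2 * γ w) :
    ∃ (r : ℕ) (c : Fin r → C) (y : Fin r → W →ₗ[k] k), (∀ s, IsLin S (y s)) ∧
      ∀ w, γ w = ∑ s, c s * algebraMap k C (y s w) := by
  let X : Submodule k C := LinearMap.range γ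
  let φ : W →ₗ[k] X := γ.rangeRestrict
  have hφ : ∀ w, ((φ w : X) : C) = γ w := fun w => rfl
  let bs := Module.finBasis k X
  refine ⟨_, fun s => (bs s : C), fun s => (bs.coord s).comp φ, ?_, ?_⟩
  · intro s p hp w
    have h1 : φ (p.1 w) = p.2 • φ w := by
      apply Subtype.ext
      rw [Submodule.coe_smul, hφ, hφ, hγ p hp, Algebra.smul_def]
    show bs.coord s (φ (p.1 w)) = p.2 * bs.coord s (φ w)
    rw [h1, map_smul, smul_eq_mul]
  · intro w
    have h1 := congrArg (fun z : X => (z : C)) (bs.sum_repr (φ w))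
    simp only [hφ] at h1
    rw [← h1, Submodule.coe_sum]
    refine Finset.sum_congr rfl fun s _ => ?_
    rw [Submodule.coe_smul, Algebra.smul_def, mul_comm]
    rfl

/-- A product of bilinear maps and one linear map to `C` is a combination of products of forms over `k`. -/
theorem prodW_mem_span [Module.Finite k V] [Module.Finite k W] (S : Set ((V →ₗ[k] V) × k))
    (S' : Set ((W →ₗ[k] W) × k)) {n m : ℕ} (e : Fin m ⊕ Fin m ≃ Fin n)
    (β : Fin m → V →ₗ[k] V →ₗ[k] C) (γ : W →ₗ[k] C)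
    (hβ : ∀ j, ∀ p ∈ S, ∀ v w, β j (p.1 v) (p.1 w) = algebraMap k C p.2 * β j v w)
    (hγ : ∀ p ∈ S', ∀ w, γ (p.1 w) = algebraMap k C p.2 * γ w) :
    (fun z : (Fin n → V) × W => (∏ j, β j (z.1 (e (Sum.inl j))) (z.1 (e (Sum.inr j)))) * γ z.2) ∈
      Submodule.span C {f : (Fin n → V) × W → C | ∃ D, IsProdW S S' e D ∧ f = fun z => algebraMap k C (D z.1 z.2)} := by
  classical
  choose r c b hb hexp using fun j => exists_expand S (β j) (hβ j)
  obtain ⟨r', c', y, hy, hexp'⟩ := exists_expand_lin S' γ hγ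
  have h1 : (fun z : (Fin n → V) × W => (∏ j, β j (z.1 (e (Sum.inl j))) (z.1 (e (Sum.inr j)))) * γ z.2) =
      ∑ p ∈ Fintype.piFinset (fun j => (Finset.univ : Finset (Fin (r j)))), ∑ s,
        ((∏ j, c j (p j)) * c' s) • fun z : (Fin n → V) × W =>
          algebraMap k C (mulFormW e (fun j => b j (p j)) (y s) z.1 z.2) := by
    funext z
    rw [Finset.sum_apply]
    simp only [hexp, hexp']
    rw [Finset.prod_univ_sum, Finset.sum_mul]
    refine Finset.sum_congr rfl fun p _ => ?_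
    rw [Finset.sum_apply, Finset.mul_sum]
    refine Finset.sum_congr rfl fun s _ => ?_
    rw [Pi.smul_apply, mulFormW_apply, map_mul, map_prod, smul_eq_mul, Finset.prod_mul_distrib]
    ring
  rw [h1]
  refine Submodule.sum_mem _ fun p _ => Submodule.sum_mem _ fun s _ =>
    Submodule.smul_mem _ _ (Submodule.subset_span ⟨_, ?_, rfl⟩)
  exact ⟨fun j => b j (p j), y s, fun j => hb j (p j), hy s, fun v w => rfl⟩

/-- If a form over `k` is a combination over `C` of forms over `k`, it is one over `k`. -/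
theorem memW_span_of_mem_span {n : ℕ} (P : MultilinearMap k (fun _ : Fin n => V) (W →ₗ[k] k) → Prop)
    (T : MultilinearMap k (fun _ : Fin n => V) (W →ₗ[k] k))
    (hT : (fun z : (Fin n → V) × W => algebraMap k C (T z.1 z.2)) ∈
      Submodule.span C {f : (Fin n → V) × W → C | ∃ D, P D ∧ f = fun z => algebraMap k C (D z.1 z.2)}) :
    T ∈ Submodule.span k {D | P D} := by
  obtain ⟨lam, hlam⟩ : ∃ lam : C →ₗ[k] k, ∀ a : k, lam (algebraMap k C a) = a := by
    obtain ⟨g, hg⟩ := LinearMap.exists_leftInverse_of_injective (Algebra.linearMap k C)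
      (LinearMap.ker_eq_bot.2 (FaithfulSMul.algebraMap_injective k C))
    exact ⟨g, fun a => LinearMap.congr_fun hg a⟩
  have key : ∀ f ∈ Submodule.span C {f : (Fin n → V) × W → C | ∃ D, P D ∧ f = fun z => algebraMap k C (D z.1 z.2)},
      ∀ a : C, ∃ D ∈ Submodule.span k {D | P D}, ∀ z : (Fin n → V) × W, lam (a * f z) = D z.1 z.2 := by
    intro f hf
    induction hf using Submodule.span_induction with
    | mem f hf =>
      obtain ⟨D, hD, rfl⟩ := hf
      intro a
      refine ⟨lam a • D, Submodule.smul_mem _ _ (Submodule.subset_span hD), fun z => ?_⟩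
      have h1 : a * algebraMap k C (D z.1 z.2) = D z.1 z.2 • a := by rw [Algebra.smul_def, mul_comm]
      rw [h1, map_smul, smul_eq_mul, mul_comm]
      rfl
    | zero =>
      intro a
      refine ⟨0, Submodule.zero_mem _, fun z => ?_⟩
      rw [Pi.zero_apply, mul_zero, map_zero]
      rfl
    | add f g _ _ hf hg =>
      intro a
      obtain ⟨D, hD, h1⟩ := hf a
      obtain ⟨D', hD', h2⟩ := hg a
      refine ⟨D + D', Submodule.add_mem _ hD hD', fun z => ?_⟩
      rw [Pi.add_apply, mul_add, map_add, h1, h2]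
      rfl
    | smul c f _ hf =>
      intro a
      obtain ⟨D, hD, h1⟩ := hf (a * c)
      refine ⟨D, hD, fun z => ?_⟩
      rw [← h1, Pi.smul_apply, smul_eq_mul, mul_assoc]
  obtain ⟨D, hD, h1⟩ := key _ hT 1
  have h2 : T = D := by
    refine MultilinearMap.ext fun v => LinearMap.ext fun w => ?_
    have h3 := h1 (v, w)
    rw [one_mul, hlam] at h3
    exact h3
  rw [h2]
  exact hD

/-- **Descent.** If `TC` over `C`, which extends `T` over `k`, is a combination of products of forms with the properties of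
`IsPair` and `IsLin` over `C`, then `T` is a combination of such products over `k`. -/
theorem descentW [Module.Finite k V] [Module.Finite k W] (S : Set ((V →ₗ[k] V) × k))
    (S' : ℕ → Set ((W →ₗ[k] W) × k)) {n : ℕ} (T : MultilinearMap k (fun _ : Fin n => V) (W →ₗ[k] k))
    (P' : MultilinearMap C (fun _ : Fin n => C ⊗[k] V) (C ⊗[k] W →ₗ[C] C) → Prop)
    (hP : ∀ T', P' T' → ∃ (m : ℕ) (e : Fin m ⊕ Fin m ≃ Fin n) (B : Fin m → C ⊗[k] V →ₗ[C] C ⊗[k] V →ₗ[C] C)
      (Y : C ⊗[k] W →ₗ[C] C),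
      (∀ j, ∀ p ∈ S, ∀ x y, B j (p.1.baseChange C x) (p.1.baseChange C y) = algebraMap k C p.2 * B j x y) ∧
      (∀ p ∈ S' m, ∀ x, Y (p.1.baseChange C x) = algebraMap k C p.2 * Y x) ∧
        ∀ v w, T' v w = (∏ j, B j (v (e (Sum.inl j))) (v (e (Sum.inr j)))) * Y w)
    (TC : MultilinearMap C (fun _ : Fin n => C ⊗[k] V) (C ⊗[k] W →ₗ[C] C))
    (hTC : ∀ (v : Fin n → V) (w : W), TC (fun a => 1 ⊗ₜ v a) (1 ⊗ₜ w) = algebraMap k C (T v w))
    (h : TC ∈ Submodule.span C {T' | P' T'}) :
    T ∈ Submodule.span k {D | ∃ (m : ℕ) (e : Fin m ⊕ Fin m ≃ Fin n), IsProdW S (S' m) e D} := by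
  apply memW_span_of_mem_span (C := C)
  have h1 : (fun z : (Fin n → V) × W => algebraMap k C (T z.1 z.2)) =
      fun z => TC (fun a => 1 ⊗ₜ z.1 a) (1 ⊗ₜ z.2) := by
    funext z
    exact (hTC z.1 z.2).symm
  rw [h1]
  clear hTC h1
  induction h using Submodule.span_induction with
  | mem T' hT' =>
    obtain ⟨m, e, B, Y, hB, hY, h2⟩ := hP T' hT'
    let β : Fin m → V →ₗ[k] V →ₗ[k] C := fun j =>
      LinearMap.mk₂ k (fun v w => B j (1 ⊗ₜ v) (1 ⊗ₜ w))
        (fun v v' w => by rw [TensorProduct.tmul_add, map_add, LinearMap.add_apply])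
        (fun a v w => by
          have h3 : (1 : C) ⊗ₜ[k] (a • v) = algebraMap k C a • ((1 : C) ⊗ₜ[k] v) := by
            rw [TensorProduct.tmul_smul, algebraMap_smul]
          rw [h3, map_smul, LinearMap.smul_apply, algebraMap_smul])
        (fun v w w' => by rw [TensorProduct.tmul_add, map_add])
        (fun a v w => by
          have h3 : (1 : C) ⊗ₜ[k] (a • w) = algebraMap k C a • ((1 : C) ⊗ₜ[k] w) := by
            rw [TensorProduct.tmul_smul, algebraMap_smul]
          rw [h3, map_smul, algebraMap_smul])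
    let γ : W →ₗ[k] C :=
      { toFun := fun w => Y (1 ⊗ₜ w)
        map_add' := fun w w' => by rw [TensorProduct.tmul_add, map_add]
        map_smul' := fun a w => by
          have h3 : (1 : C) ⊗ₜ[k] (a • w) = algebraMap k C a • ((1 : C) ⊗ₜ[k] w) := by
            rw [TensorProduct.tmul_smul, algebraMap_smul]
          rw [h3, map_smul, algebraMap_smul, RingHom.id_apply] }
    have hβ : ∀ j, ∀ p ∈ S, ∀ v w, β j (p.1 v) (p.1 w) = algebraMap k C p.2 * β j v w := by
      intro j p hp v w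
      have h3 := hB j p hp (1 ⊗ₜ v) (1 ⊗ₜ w)
      rw [LinearMap.baseChange_tmul, LinearMap.baseChange_tmul] at h3
      exact h3
    have hγ : ∀ p ∈ S' m, ∀ w, γ (p.1 w) = algebraMap k C p.2 * γ w := by
      intro p hp w
      have h3 := hY p hp (1 ⊗ₜ w)
      rw [LinearMap.baseChange_tmul] at h3
      exact h3
    have h4 := prodW_mem_span S (S' m) e β γ hβ hγ
    have h5 : (fun z : (Fin n → V) × W => T' (fun a => 1 ⊗ₜ z.1 a) (1 ⊗ₜ z.2)) =
        fun z : (Fin n → V) × W => (∏ j, β j (z.1 (e (Sum.inl j))) (z.1 (e (Sum.inr j)))) * γ z.2 := by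
      funext z
      rw [h2]
      rfl
    rw [h5]
    refine Submodule.span_mono ?_ h4
    rintro f ⟨D, hD, rfl⟩
    exact ⟨D, ⟨m, e, hD⟩, rfl⟩
  | zero => exact Submodule.zero_mem _
  | add x y _ _ hx hy => exact Submodule.add_mem _ hx hy
  | smul c x _ hx => exact Submodule.smul_mem _ c hx

end

end Pool.Agent.Lib.MP_021685_agTT
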