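import Pool.Agent.Lib.MP_021685_agTT.VB
import Pool.Agent.Lib.MP_021685_agTT.DW

/-!
An alternating form with values in a dual space which is a combination of products of bilinear forms and linear forms is a
sum of products of cup products of alternating forms of degree two and linear forms.
-/

set_option autoImplicit false

namespace Pool.Agent.Lib.MP_021685_agTT

universe u v w

section

variable {k : Type u} [Field k] {X : Type v} [AddCommGroup X] [Module k X] {W : Type w} [AddCommGroup W] [Module k W]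

/-- `f (v, w)` is a sum of products of cup products of `j` alternating forms of degree two for `S` and of a linear form on `W`
for `S'`. -/
def IsSum (S : Set ((X →ₗ[k] X) × k)) (S' : Set ((W →ₗ[k] W) × k)) {j : ℕ} (f : (Fin j ⊕ Fin j → X) → W → k) : Prop :=
  ∃ (r : ℕ) (B : Fin r → Fin j → X →ₗ[k] X →ₗ[k] k) (y : Fin r → W →ₗ[k] k),
    (∀ a i, (∀ x, B a i x x = 0) ∧ IsPair S (B a i)) ∧ (∀ a, IsLin S' (y a)) ∧
    ∀ v w, f v w = ∑ a, cup (fun i x z => B a i x z) v * y a w

variable (S : Set ((X →ₗ[k] X) × k)) (S' : Set ((W →ₗ[k] W) × k)) {j : ℕ}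

theorem isSum_zero : IsSum S S' (fun (_ : Fin j ⊕ Fin j → X) (_ : W) => (0 : k)) :=
  ⟨0, fun a => a.elim0, fun a => a.elim0, fun a => a.elim0, fun a => a.elim0, fun v w => by simp⟩

theorem isSum_add {f g : (Fin j ⊕ Fin j → X) → W → k} (hf : IsSum S S' f) (hg : IsSum S S' g) :
    IsSum S S' (fun v w => f v w + g v w) := by
  obtain ⟨r, B, y, hB, hy, hf⟩ := hf
  obtain ⟨r', B', y', hB', hy', hg⟩ := hg
  refine ⟨r + r', Fin.append B B', Fin.append y y', ?_, ?_, fun v w => ?_⟩
  · intro a
    refine Fin.addCases (fun a => ?_) (fun a => ?_) a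
    · rw [Fin.append_left]
      exact hB a
    · rw [Fin.append_right]
      exact hB' a
  · intro a
    refine Fin.addCases (fun a => ?_) (fun a => ?_) a
    · rw [Fin.append_left]
      exact hy a
    · rw [Fin.append_right]
      exact hy' a
  · show f v w + g v w = _
    rw [Fin.sum_univ_add, hf, hg]
    simp only [Fin.append_left, Fin.append_right]

theorem isSum_smul {f : (Fin j ⊕ Fin j → X) → W → k} (c : k) (hf : IsSum S S' f) :
    IsSum S S' (fun v w => c * f v w) := by
  obtain ⟨r, B, y, hB, hy, hf⟩ := hf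
  refine ⟨r, B, fun a => c • y a, hB, fun a p hp w => ?_, fun v w => ?_⟩
  · rw [LinearMap.smul_apply, LinearMap.smul_apply, hy a p hp, smul_eq_mul, smul_eq_mul]
    ring
  · show c * f v w = ∑ a, cup (fun i x z => B a i x z) v * (c • y a) w
    rw [hf, Finset.mul_sum]
    refine Finset.sum_congr rfl fun a _ => ?_
    rw [LinearMap.smul_apply, smul_eq_mul]
    ring

/-- The alternating sum of a multilinear map over the permutations of the arguments. -/
def altSum (e0 : Fin j ⊕ Fin j ≃ Fin (2 * j)) (D : MultilinearMap k (fun _ : Fin (2 * j) => X) (W →ₗ[k] k))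
    (v : Fin j ⊕ Fin j → X) (w : W) : k :=
  ∑ π : Equiv.Perm (Fin j ⊕ Fin j), ((Equiv.Perm.sign π : ℤ) : k) * D (fun a => v (π (e0.symm a))) w

theorem isSum_altSum [CharZero k] (S' : ℕ → Set ((W →ₗ[k] W) × k)) (e0 : Fin j ⊕ Fin j ≃ Fin (2 * j))
    (D : MultilinearMap k (fun _ : Fin (2 * j) => X) (W →ₗ[k] k))
    (hD : D ∈ Submodule.span k {D : MultilinearMap k (fun _ : Fin (2 * j) => X) (W →ₗ[k] k) |
      ∃ (m : ℕ) (e : Fin m ⊕ Fin m ≃ Fin (2 * j)), IsProdW S (S' m) e D}) :
    IsSum S (S' j) (altSum e0 D) := by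
  classical
  induction hD using Submodule.span_induction with
  | mem D hD =>
    obtain ⟨m, e, b, y, hb, hy, hD⟩ := hD
    have hm : m = j := by
      have h1 := Fintype.card_congr e
      simp only [Fintype.card_sum, Fintype.card_fin] at h1
      omega
    subst hm
    have h2 : (2 : k) ^ m ≠ 0 := pow_ne_zero _ two_ne_zero
    have h3 : ∀ v w, altSum e0 D v w = ((Equiv.Perm.sign (e.trans e0.symm) : ℤ) : k) * ((2 ^ m)⁻¹ *
        (cup (fun i x z => (b i - (b i).flip) x z) v * y w)) := by
      intro v w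
      have h4 : altSum e0 D v w = (∑ π : Equiv.Perm (Fin m ⊕ Fin m), ((Equiv.Perm.sign π : ℤ) : k) *
          ∏ i, b i (v (π ((e.trans e0.symm) (Sum.inl i)))) (v (π ((e.trans e0.symm) (Sum.inr i))))) * y w := by
        rw [altSum, Finset.sum_mul]
        refine Finset.sum_congr rfl fun π _ => ?_
        rw [hD, mul_assoc]
        rfl
      have h5 : cup (fun i x z => (b i - (b i).flip) x z) v = 2 ^ m * cup (fun i x z => b i x z) v := by
        have h6 := cup_alt (fun i x z => b i x z) Finset.univ v
        rw [Finset.card_univ, Fintype.card_fin] at h6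
        rw [← h6]
        congr 1
        funext i
        rw [if_pos (Finset.mem_univ i)]
        rfl
      rw [h4, cup_perm (fun i x z => b i x z) (e.trans e0.symm) v, h5]
      field_simp
    have h7 : altSum e0 D = fun v w => ((Equiv.Perm.sign (e.trans e0.symm) : ℤ) : k) * ((2 ^ m)⁻¹ *
        (cup (fun i x z => (b i - (b i).flip) x z) v * y w)) := by
      funext v w
      exact h3 v w
    rw [h7]
    refine isSum_smul S _ _ (isSum_smul S _ _ ⟨1, fun _ i => b i - (b i).flip, fun _ => y, ?_, fun _ => hy, fun v w => ?_⟩)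
    · refine fun _ i => ⟨fun x => ?_, fun p hp x z => ?_⟩
      · rw [LinearMap.sub_apply, LinearMap.sub_apply, LinearMap.flip_apply, sub_self]
      · simp only [LinearMap.sub_apply, LinearMap.flip_apply]
        rw [hb i p hp, hb i p hp]
        ring
    · rw [Finset.sum_const, Finset.card_univ, Fintype.card_fin, one_smul]
  | zero =>
    have h1 : altSum e0 (0 : MultilinearMap k (fun _ : Fin (2 * j) => X) (W →ₗ[k] k)) = fun _ _ => 0 := by
      funext v w
      exact Finset.sum_eq_zero fun π _ => mul_zero _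
    rw [h1]
    exact isSum_zero S _
  | add x y _ _ hx hy =>
    have h1 : altSum e0 (x + y) = fun v w => altSum e0 x v w + altSum e0 y v w := by
      funext v w
      rw [altSum, altSum, altSum, ← Finset.sum_add_distrib]
      exact Finset.sum_congr rfl fun π _ => mul_add _ _ _
    rw [h1]
    exact isSum_add S _ hx hy
  | smul c x _ hx =>
    have h1 : altSum e0 (c • x) = fun v w => c * altSum e0 x v w := by
      funext v w
      rw [altSum, altSum, Finset.mul_sum]
      exact Finset.sum_congr rfl fun π _ => mul_left_comm _ _ _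
    rw [h1]
    exact isSum_smul S _ c hx

/-- **Cup products.**  An alternating form with values in a dual space which is a combination of products is a sum of products
of cup products of alternating forms of degree two and of linear forms. -/
theorem isSum_of_span [CharZero k] (S' : ℕ → Set ((W →ₗ[k] W) × k)) (T : X [⋀^Fin j ⊕ Fin j]→ₗ[k] (W →ₗ[k] k))
    (e0 : Fin j ⊕ Fin j ≃ Fin (2 * j))
    (hT : T.toMultilinearMap.domDomCongr e0 ∈ Submodule.span k {D : MultilinearMap k (fun _ : Fin (2 * j) => X)
      (W →ₗ[k] k) | ∃ (m : ℕ) (e : Fin m ⊕ Fin m ≃ Fin (2 * j)), IsProdW S (S' m) e D}) :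
    IsSum S (S' j) (fun v w => T v w) := by
  classical
  have h0 := isSum_altSum S S' e0 _ hT
  have hcard : (Fintype.card (Equiv.Perm (Fin j ⊕ Fin j)) : k) ≠ 0 :=
    Nat.cast_ne_zero.2 Fintype.card_ne_zero
  have h1 : ∀ v w, altSum e0 (T.toMultilinearMap.domDomCongr e0) v w =
      (Fintype.card (Equiv.Perm (Fin j ⊕ Fin j)) : k) * T v w := by
    intro v w
    have h2 : ∀ π : Equiv.Perm (Fin j ⊕ Fin j), ((Equiv.Perm.sign π : ℤ) : k) *
        (T.toMultilinearMap.domDomCongr e0) (fun a => v (π (e0.symm a))) w = T v w := by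
      intro π
      have h3 : (T.toMultilinearMap.domDomCongr e0) (fun a => v (π (e0.symm a))) = T (v ∘ π) := by
        show T (fun a => v (π (e0.symm (e0 a)))) = T (v ∘ π)
        simp only [Equiv.symm_apply_apply]
        rfl
      rw [h3, T.map_perm, Units.smul_def, LinearMap.smul_apply, zsmul_eq_mul, ← mul_assoc, ← Int.cast_mul,
        ← Units.val_mul, Int.units_mul_self, Units.val_one, Int.cast_one, one_mul]
    rw [altSum, Finset.sum_congr rfl fun π _ => h2 π, Finset.sum_const, Finset.card_univ, nsmul_eq_mul]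
  have h4 : (fun (v : Fin j ⊕ Fin j → X) (w : W) => T v w) = fun v w =>
      (Fintype.card (Equiv.Perm (Fin j ⊕ Fin j)) : k)⁻¹ * altSum e0 (T.toMultilinearMap.domDomCongr e0) v w := by
    funext v w
    rw [h1, ← mul_assoc, inv_mul_cancel₀ hcard, one_mul]
  rw [h4]
  exact isSum_smul S _ _ h0

/-- In an odd number of arguments there are no products. -/
theorem eq_zero_of_span (S' : ℕ → Set ((W →ₗ[k] W) × k)) {n : ℕ} (hn : ¬ 2 ∣ n)
    (T : MultilinearMap k (fun _ : Fin n => X) (W →ₗ[k] k))
    (hT : T ∈ Submodule.span k {D : MultilinearMap k (fun _ : Fin n => X) (W →ₗ[k] k) |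
      ∃ (m : ℕ) (e : Fin m ⊕ Fin m ≃ Fin n), IsProdW S (S' m) e D}) : T = 0 := by
  have h1 : {D : MultilinearMap k (fun _ : Fin n => X) (W →ₗ[k] k) |
      ∃ (m : ℕ) (e : Fin m ⊕ Fin m ≃ Fin n), IsProdW S (S' m) e D} = ∅ := by
    refine Set.eq_empty_of_forall_notMem ?_
    rintro D ⟨m, e, _⟩
    have h2 := Fintype.card_congr e
    simp only [Fintype.card_sum, Fintype.card_fin] at h2
    exact hn ⟨m, by omega⟩
  rw [h1, Submodule.span_empty] at hT
  exact (Submodule.mem_bot k).1 hT

end

end Pool.Agent.Lib.MP_021685_agTT
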