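import Pool.Agent.Lib.MP_021685_agTT.LO
import Pool.Agent.Lib.MP_021685_agTT.LR
import Pool.Agent.Lib.MP_021685_agTT.BW

/-!
Tate classes on the products of the powers of an abelian variety over a finite field and of a second variety: Frobenius
polynomials with multiple roots.
-/

set_option autoImplicit false

namespace Pool.Agent.Lib.MP_021685_agTT

open Polynomial Module TensorProduct Pool.Agent.Lib.MP_17a322_nt.VA

/-- **All Tate classes on the products `A ^ n × Z` are sums of products of Tate classes of degree two on `A ^ n` and of Tate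
classes on `Z`**, for all abelian varieties `A` with Frobenius polynomial `R`, which may have multiple roots, over the fields
with `Q` elements and all varieties `Z` over the same field, if the Frobenius eigenvalues of `Z` have the property `S`.  The
letters are those of `LitOver`.

`F` is semisimple on `V_l(A)` (this is always true, by Weil).  The polynomial `R` may have multiple roots, as for
`A = B ^ 2 × C`.

* A Tate class `T` on `A ^ n × Z` over the extension of degree `d` of `K`, in `H^(2 j)(A ^ n) ⊗ H^(2 i)(Z)`, is a sum of products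
  of cup products of `j` Tate classes `D` of degree two on `A ^ n` over `K` itself, alternating forms on `V_l(A) ^ n` with
  `D (F v) (F w) = Q D v w` (by Tate's theorem the combinations of classes of divisors), and of Tate classes `y` on `Z` over the
  extension.
* In `H^(2 j + 1)(A ^ n) ⊗ H^(2 i + 1)(Z)` there are no Tate classes but `0`. -/
def LitSemi (Q : ℕ) (R : ℤ[X]) (S : ℂ → Prop) : Prop :=
  ∀ (K : Type) [Field K] [Fintype K] (N : ℕ) (A : AV K N) (l : ℕ) [Fact l.Prime],
    Fintype.card K = Q → (l : K) ≠ 0 → (frobV A l).charpoly = R.map (Int.castRingHom ℚ_[l]) →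
    Module.End.IsSemisimple (frobV A l) →
    ∀ (W : Type) [AddCommGroup W] [Module ℚ_[l] W] [Module.Finite ℚ_[l] W] (G : W →ₗ[ℚ_[l]] W)
      (p : ℤ[X]), G.charpoly = p.map (Int.castRingHom ℚ_[l]) → (∀ z : ℂ, aeval z p = 0 → S z) →
      ∀ d n j i : ℕ, 0 < d →
        (∀ T : (Fin n → VlA A l) [⋀^Fin j ⊕ Fin j]→ₗ[ℚ_[l]] (W →ₗ[ℚ_[l]] ℚ_[l]),
          (∀ (v : Fin j ⊕ Fin j → Fin n → VlA A l) (w : W),
            T (fun a s => (frobV A l ^ d) (v a s)) ((G ^ d) w) = Q ^ (d * (j + i)) * T v w) →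
          ∃ (r : ℕ) (D : Fin r → Fin j → (Fin n → VlA A l) →ₗ[ℚ_[l]] (Fin n → VlA A l) →ₗ[ℚ_[l]] ℚ_[l])
            (y : Fin r → W →ₗ[ℚ_[l]] ℚ_[l]),
            (∀ a b, (∀ v, D a b v v = 0) ∧ ∀ v w : Fin n → VlA A l,
              D a b (fun s => frobV A l (v s)) (fun s => frobV A l (w s)) = Q * D a b v w) ∧
            (∀ a w, y a ((G ^ d) w) = Q ^ (d * i) * y a w) ∧
            ∀ v w, T v w = ∑ a, cup (fun b x z => D a b x z) v * y a w) ∧
        ∀ T : (Fin n → VlA A l) [⋀^Fin (2 * j + 1)]→ₗ[ℚ_[l]] (W →ₗ[ℚ_[l]] ℚ_[l]),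
          (∀ (v : Fin (2 * j + 1) → Fin n → VlA A l) (w : W),
            T (fun a s => (frobV A l ^ d) (v a s)) ((G ^ d) w) =
              Q ^ (d * (j + i + 1)) * T v w) → T = 0

theorem exists_eigenbasis_ss {V : Type} [AddCommGroup V] [Module ℂ V] [FiniteDimensional ℂ V]
    (F : V →ₗ[ℂ] V) (h : Module.End.IsSemisimple F) :
    ∃ (ι : Type) (_ : Fintype ι) (b : Basis ι ℂ V) (x : ι → ℂ), ∀ i, F (b i) = x i • b i := by
  classical
  have h1 : ⨆ μ : ℂ, Module.End.eigenspace F μ = ⊤ := by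
    have h2 := Module.End.iSup_maxGenEigenspace_eq_top F
    rw [← h2]
    exact iSup_congr fun μ => (h.isFinitelySemisimple.maxGenEigenspace_eq_eigenspace μ).symm
  have hint : DirectSum.IsInternal (fun μ : ℂ => Module.End.eigenspace F μ) :=
    DirectSum.isInternal_submodule_of_iSupIndep_of_iSup_eq_top (Module.End.eigenspaces_iSupIndep F) h1
  let b := hint.collectedBasis fun μ => finBasis ℂ (Module.End.eigenspace F μ)
  have hfin : Finite (Σ μ : ℂ, Fin (finrank ℂ (Module.End.eigenspace F μ))) := Module.Finite.finite_basis b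
  refine ⟨_, Fintype.ofFinite _, b, fun i => i.1, fun i => ?_⟩
  exact Module.End.mem_eigenspace_iff.1 (hint.collectedBasis_mem (fun μ => finBasis ℂ (Module.End.eigenspace F μ)) i)

section

variable {k : Type} [Field k] [CharZero k] [Algebra k ℂ] {V W : Type} [AddCommGroup V] [Module k V]
  [AddCommGroup W] [Module k W] [FiniteDimensional k V] [FiniteDimensional k W]

omit [FiniteDimensional k W] in
theorem ss_baseChange (F : V →ₗ[k] V) (h : Module.End.IsSemisimple F) :
    Module.End.IsSemisimple (F.baseChange ℂ) := by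
  have h1 : (minpoly k F).Separable :=
    PerfectField.separable_iff_squarefree.2 (Module.End.IsSemisimple.minpoly_squarefree h)
  have h2 : Squarefree ((minpoly k F).map (algebraMap k ℂ)) := (h1.map (f := algebraMap k ℂ)).squarefree
  refine Module.End.isSemisimple_of_squarefree_aeval_eq_zero h2 ?_
  rw [aeval_map_algebraMap]
  have h3 : aeval (Module.End.baseChangeHom k ℂ V F) (minpoly k F) =
      Module.End.baseChangeHom k ℂ V (aeval F (minpoly k F)) := aeval_algHom_apply _ _ _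
  rw [minpoly.aeval, map_zero] at h3
  exact h3

/-- Tate forms over `k`, all arguments in `V`. -/
theorem semi_core {Q : ℕ} {R : ℤ[X]} (hroot : ∀ z : ℂ, aeval z R = 0 → z ^ 2 ≠ Q) {S : ℂ → Prop} (hS1 : S 1)
    (hfull : FullS Q R S) (F : V →ₗ[k] V) (hF : F.charpoly = R.map (Int.castRingHom k))
    (hss : Module.End.IsSemisimple F) (G : W →ₗ[k] W)
    (hG : ∀ y, Module.End.HasEigenvalue (G.baseChange ℂ) y → S y) {d : ℕ} (hd : 0 < d)
    {r b s : ℕ} (hrb : r + b = 2 * s) (T : MultilinearMap k (fun _ : Fin r => V) (W →ₗ[k] k))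
    (hT : ∀ (v : Fin r → V) (w : W), T (fun a => (F ^ d) (v a)) (G w) = (Q : k) ^ (d * s) * T v w) :
    T ∈ Submodule.span k {D : MultilinearMap k (fun _ : Fin r => V) (W →ₗ[k] k) |
      ∃ (m : ℕ) (e : Fin m ⊕ Fin m ≃ Fin r), IsProdW {(F, (Q : k))} {(G, (Q : k) ^ (d * (s - m)))} e D} := by
  classical
  obtain ⟨TC, hTC, hTC'⟩ := exists_extendW ℂ T
  have hssC := ss_baseChange F hss
  have hFC : (F.baseChange ℂ).charpoly = R.map (Int.castRingHom ℂ) := by
    rw [LinearMap.charpoly_baseChange, hF, Polynomial.map_map]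
    exact congrArg (fun f : ℤ →+* ℂ => R.map f) (RingHom.ext_int _ _)
  have hfull' := full_of_fullS hS1 hfull
  obtain ⟨ι, _, bb, x, hb⟩ := exists_eigenbasis_ss (F.baseChange ℂ) hssC
  have hx : ∀ i, x i ^ 2 ≠ (Q : ℂ) := by
    intro i
    refine hroot _ ?_
    have h1 : Module.End.HasEigenvalue (F.baseChange ℂ) (x i) :=
      Module.End.hasEigenvalue_of_hasEigenvector ⟨Module.End.mem_eigenspace_iff.2 (hb i), bb.ne_zero i⟩
    have h2 := (Module.End.hasEigenvalue_iff_isRoot_charpoly _ _).1 h1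
    rw [hFC, IsRoot.def, eval_map] at h2
    rw [aeval_def]
    exact h2
  have hexact : ∀ B : ℂ ⊗[k] V →ₗ[ℂ] ℂ ⊗[k] V →ₗ[ℂ] ℂ, TI.IsPairing Q d (F.baseChange ℂ) B →
      ∀ v w, B (F.baseChange ℂ v) (F.baseChange ℂ w) = (Q : ℂ) * B v w := by
    intro B hB
    have h1 : B.compl₁₂ (F.baseChange ℂ) (F.baseChange ℂ) = (Q : ℂ) • B := by
      refine bb.ext fun i => bb.ext fun j => ?_
      rw [LinearMap.compl₁₂_apply, hb, hb, map_smul, map_smul, LinearMap.smul_apply, LinearMap.smul_apply,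
        LinearMap.smul_apply, smul_smul, smul_eq_mul, smul_eq_mul]
      by_cases h : B (bb i) (bb j) = 0
      · rw [h, mul_zero, mul_zero]
      · have h2 := ratio hb (fun k T hT => hfull' _ _ hssC hFC 1 k one_pos T hT) hx hd (pairing_eig hb hB h)
        rw [← h2]
        ring
    intro v w
    have h2 := LinearMap.congr_fun₂ h1 v w
    rwa [LinearMap.compl₁₂_apply, LinearMap.smul_apply, LinearMap.smul_apply, smul_eq_mul] at h2
  have hsqrt : ((Real.sqrt Q : ℝ) : ℂ) ^ 2 = (Q : ℂ) := by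
    rw [← Complex.ofReal_pow, Real.sq_sqrt (Nat.cast_nonneg Q), Complex.ofReal_natCast]
  have hpowC : (F.baseChange ℂ) ^ d = (F ^ d).baseChange ℂ :=
    (map_pow (Module.End.baseChangeHom k ℂ V) F d).symm
  have hmem := hfull (ℂ ⊗[k] V) (ℂ ⊗[k] W) (F.baseChange ℂ) (G.baseChange ℂ) hssC hFC hG d r b hd TC (by
    intro v w
    have h1 := hTC' (F ^ d) G ((Q : k) ^ (d * s)) hT v w
    have h2 : ((Real.sqrt Q : ℝ) : ℂ) ^ (d * (r + b)) = (Q : ℂ) ^ (d * s) := by
      rw [hrb, show d * (2 * s) = 2 * (d * s) by ring, pow_mul, hsqrt]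
    rw [hpowC, h1, h2, map_pow, map_natCast])
  refine descentW (C := ℂ) {(F, (Q : k))} (fun m => {(G, (Q : k) ^ (d * (s - m)))}) T
    (fun T' => TK.IsProdOver Q d r b (F.baseChange ℂ) (G.baseChange ℂ) T') (fun T' hT' => ?_) TC hTC hmem
  obtain ⟨T₀, c, ⟨m, e, B, hB, hT₀⟩, hc, hT'⟩ := hT'
  refine ⟨m, e, B, c, ?_, ?_, fun v w => by rw [hT', hT₀]⟩
  · rintro j p hp v w
    rw [Set.mem_singleton_iff.1 hp, map_natCast]
    exact hexact _ (hB j) v w
  · rintro p hp w
    rw [Set.mem_singleton_iff.1 hp, map_pow, map_natCast]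
    have hm : m + m = r := by
      have h1 := Fintype.card_congr e
      rwa [Fintype.card_sum, Fintype.card_fin, Fintype.card_fin] at h1
    have hbs : b = 2 * (s - m) := by omega
    show c (G.baseChange ℂ w) = _
    rw [hc w]
    have h2 : ((Real.sqrt Q : ℝ) : ℂ) ^ (d * b) = (Q : ℂ) ^ (d * (s - m)) := by
      rw [hbs, show d * (2 * (s - m)) = 2 * (d * (s - m)) by ring, pow_mul, hsqrt]
    rw [h2]

/-- Tate forms over `k`, all arguments in `V ^ n`. -/
theorem semi_power {Q : ℕ} {R : ℤ[X]} (hroot : ∀ z : ℂ, aeval z R = 0 → z ^ 2 ≠ Q) {S : ℂ → Prop} (hS1 : S 1)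
    (hfull : FullS Q R S) (F : V →ₗ[k] V) (hF : F.charpoly = R.map (Int.castRingHom k))
    (hss : Module.End.IsSemisimple F) (G : W →ₗ[k] W)
    (hG : ∀ y, Module.End.HasEigenvalue (G.baseChange ℂ) y → S y) {d : ℕ} (hd : 0 < d)
    {n r b s : ℕ} (hrb : r + b = 2 * s) (T : MultilinearMap k (fun _ : Fin r => Fin n → V) (W →ₗ[k] k))
    (hT : ∀ (v : Fin r → Fin n → V) (w : W), T (fun a t => (F ^ d) (v a t)) (G w) = (Q : k) ^ (d * s) * T v w) :
    T ∈ Submodule.span k {D : MultilinearMap k (fun _ : Fin r => Fin n → V) (W →ₗ[k] k) |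
      ∃ (m : ℕ) (e : Fin m ⊕ Fin m ≃ Fin r),
        IsProdW {(F.compLeft (Fin n), (Q : k))} {(G, (Q : k) ^ (d * (s - m)))} e D} := by
  classical
  let Tf : (Fin r → Fin n) → MultilinearMap k (fun _ : Fin r => V) (W →ₗ[k] k) := fun f =>
    T.compLinearMap fun a => LinearMap.single k (fun _ : Fin n => V) (f a)
  have hTf : ∀ f, Tf f ∈ Submodule.span k {D : MultilinearMap k (fun _ : Fin r => V) (W →ₗ[k] k) |
      ∃ (m : ℕ) (e : Fin m ⊕ Fin m ≃ Fin r), IsProdW {(F, (Q : k))} {(G, (Q : k) ^ (d * (s - m)))} e D} := by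
    intro f
    refine semi_core hroot hS1 hfull F hF hss G hG hd hrb (Tf f) fun v w => ?_
    show T (fun a => LinearMap.single k (fun _ : Fin n => V) (f a) ((F ^ d) (v a))) (G w) =
      (Q : k) ^ (d * s) * T (fun a => LinearMap.single k (fun _ : Fin n => V) (f a) (v a)) w
    rw [← hT]
    refine congrArg (fun z => T z (G w)) (funext fun a => funext fun t => ?_)
    show (Pi.single (f a) ((F ^ d) (v a)) : Fin n → V) t = (F ^ d) ((Pi.single (f a) (v a) : Fin n → V) t)
    by_cases h : t = f a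
    · subst h
      rw [Pi.single_eq_same, Pi.single_eq_same]
    · rw [Pi.single_eq_of_ne h, Pi.single_eq_of_ne h, map_zero]
  let L : (Fin r → Fin n) → MultilinearMap k (fun _ : Fin r => V) (W →ₗ[k] k) →ₗ[k]
      MultilinearMap k (fun _ : Fin r => Fin n → V) (W →ₗ[k] k) := fun f =>
    { toFun := fun D => D.compLinearMap fun a => LinearMap.proj (f a)
      map_add' := fun x y => rfl
      map_smul' := fun c x => rfl }
  have hL : ∀ f D v, L f D v = D fun a => v a (f a) := fun f D v => rfl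
  have hsum : T = ∑ f, L f (Tf f) := by
    refine MultilinearMap.ext fun v => ?_
    rw [sum_apply]
    have h1 : v = fun a => ∑ t : Fin n, LinearMap.single k (fun _ : Fin n => V) t (v a t) := by
      funext a
      exact (Finset.univ_sum_single (v a)).symm
    conv_lhs => rw [h1]
    rw [MultilinearMap.map_sum]
    rfl
  rw [hsum]
  refine Submodule.sum_mem _ fun f _ => ?_
  have h2 : L f (Tf f) ∈ Submodule.map (L f) (Submodule.span k
      {D : MultilinearMap k (fun _ : Fin r => V) (W →ₗ[k] k) | ∃ (m : ℕ) (e : Fin m ⊕ Fin m ≃ Fin r),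
        IsProdW {(F, (Q : k))} {(G, (Q : k) ^ (d * (s - m)))} e D}) := Submodule.mem_map_of_mem (hTf f)
  rw [Submodule.map_span] at h2
  refine Submodule.span_mono ?_ h2
  rintro _ ⟨D, ⟨m, e', c, y, hc, hy, hD⟩, rfl⟩
  refine ⟨m, e', fun i => (c i).compl₁₂ (LinearMap.proj (f (e' (Sum.inl i)))) (LinearMap.proj (f (e' (Sum.inr i)))),
    y, ?_, hy, fun v w => ?_⟩
  · intro i p hp v w
    rw [Set.mem_singleton_iff.1 hp]
    exact hc i _ rfl (v (f (e' (Sum.inl i)))) (w (f (e' (Sum.inr i))))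
  · rw [hL, hD]
    rfl

end

/-- **The literal form of `FullS` for Frobenius polynomials with multiple roots.** -/
theorem litSemi_of_full {Q : ℕ} {R : ℤ[X]} {S : ℂ → Prop} (hroot : ∀ z : ℂ, aeval z R = 0 → z ^ 2 ≠ Q)
    (hS1 : S 1) (hSp : ∀ (z : ℂ) (d : ℕ), 0 < d → S z → S (z ^ d)) (h : FullS Q R S) : LitSemi Q R S := by
  intro K _ _ N A l _ _ _ hchar hss W _ _ _ G p hp hz d n j i hd
  obtain ⟨σ⟩ := exists_embedding l
  let _ : Algebra ℚ_[l] ℂ := σ.toAlgebra
  have hG := eig_pow hp hz hd (S := S) fun z => hSp z d hd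
  refine ⟨fun T hT => ?_, fun T hT => ?_⟩
  · let e0 : Fin j ⊕ Fin j ≃ Fin (2 * j) := finSumFinEquiv.trans (finCongr (two_mul j).symm)
    have hspan := semi_power hroot hS1 h (frobV A l) hchar hss (G ^ d) hG hd (n := n) (r := 2 * j) (b := 2 * i)
      (s := j + i) (by ring) (T.toMultilinearMap.domDomCongr e0) fun v w => hT (fun a => v (e0 a)) w
    obtain ⟨r, D, y, hD, hy, hTs⟩ := isSum_of_span _
      (fun m => {(G ^ d, (Q : ℚ_[l]) ^ (d * (j + i - m)))}) T e0 hspan
    refine ⟨r, D, y, fun a b => ⟨(hD a b).1, fun v w => (hD a b).2 _ rfl v w⟩, fun a w => ?_, hTs⟩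
    have h1 := hy a _ rfl w
    rwa [show j + i - j = i by omega] at h1
  · have hspan := semi_power hroot hS1 h (frobV A l) hchar hss (G ^ d) hG hd (n := n) (r := 2 * j + 1)
      (b := 2 * i + 1) (s := j + i + 1) (by ring) T.toMultilinearMap hT
    have h1 := eq_zero_of_span _ (fun m => {(G ^ d, (Q : ℚ_[l]) ^ (d * (j + i + 1 - m)))}) (by omega) _ hspan
    exact AlternatingMap.coe_multilinearMap_injective h1

end Pool.Agent.Lib.MP_021685_agTT
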