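import Mathlib

/-!
Descent of linear combinations of products of bilinear forms from a field `C` to a subfield `k`.
-/

set_option autoImplicit false

namespace Pool.Agent.Lib.MP_021685_agTT

open scoped TensorProduct

universe u v w

section

variable {k : Type u} [Field k] {V : Type v} [AddCommGroup V] [Module k V]

/-- The bilinear forms `b` with `b (g v, g w) = c b (v, w)` for the pairs `(g, c)` in `S`. -/
def IsPair (S : Set ((V →ₗ[k] V) × k)) (b : V →ₗ[k] V →ₗ[k] k) : Prop :=
  ∀ p ∈ S, ∀ v w, b (p.1 v) (p.1 w) = p.2 * b v w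

/-- The products of such forms, the arguments matched by `e`. -/
def IsProd (S : Set ((V →ₗ[k] V) × k)) {n m : ℕ} (e : Fin m ⊕ Fin m ≃ Fin n)
    (D : MultilinearMap k (fun _ : Fin n => V) k) : Prop :=
  ∃ b : Fin m → V →ₗ[k] V →ₗ[k] k, (∀ j, IsPair S (b j)) ∧
    ∀ v, D v = ∏ j, b j (v (e (Sum.inl j))) (v (e (Sum.inr j)))

/-- The multilinear form `∏ b j (v .., v ..)`. -/
noncomputable def mulForm {n m : ℕ} (e : Fin m ⊕ Fin m ≃ Fin n) (b : Fin m → V →ₗ[k] V →ₗ[k] k) :
    MultilinearMap k (fun _ : Fin n => V) k where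
  toFun v := ∏ j, b j (v (e (Sum.inl j))) (v (e (Sum.inr j)))
  map_update_add' := by
    classical
    intro _ v i x y
    obtain ⟨a, rfl⟩ := e.surjective i
    rcases a with a | a
    · rw [← Finset.mul_prod_erase _ _ (Finset.mem_univ a), ← Finset.mul_prod_erase _ _ (Finset.mem_univ a),
        ← Finset.mul_prod_erase _ _ (Finset.mem_univ a)]
      have h1 : ∀ z : V, ∏ j ∈ Finset.univ.erase a, b j (Function.update v (e (Sum.inl a)) z (e (Sum.inl j)))
          (Function.update v (e (Sum.inl a)) z (e (Sum.inr j))) =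
          ∏ j ∈ Finset.univ.erase a, b j (v (e (Sum.inl j))) (v (e (Sum.inr j))) := by
        intro z
        refine Finset.prod_congr rfl fun j hj => ?_
        rw [Function.update_of_ne (fun h => Finset.ne_of_mem_erase hj (Sum.inl_injective (e.injective h))),
          Function.update_of_ne (fun h => by simpa using e.injective h)]
      have h2 : ∀ z : V, Function.update v (e (Sum.inl a)) z (e (Sum.inr a)) = v (e (Sum.inr a)) := fun z =>
        Function.update_of_ne (fun h => by simpa using e.injective h) _ _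
      simp only [h1, h2, Function.update_self, map_add, LinearMap.add_apply, add_mul]
    · rw [← Finset.mul_prod_erase _ _ (Finset.mem_univ a), ← Finset.mul_prod_erase _ _ (Finset.mem_univ a),
        ← Finset.mul_prod_erase _ _ (Finset.mem_univ a)]
      have h1 : ∀ z : V, ∏ j ∈ Finset.univ.erase a, b j (Function.update v (e (Sum.inr a)) z (e (Sum.inl j)))
          (Function.update v (e (Sum.inr a)) z (e (Sum.inr j))) =
          ∏ j ∈ Finset.univ.erase a, b j (v (e (Sum.inl j))) (v (e (Sum.inr j))) := by
        intro z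
        refine Finset.prod_congr rfl fun j hj => ?_
        rw [Function.update_of_ne (fun h => Finset.ne_of_mem_erase hj (Sum.inr_injective (e.injective h))),
          Function.update_of_ne (fun h => by simpa using e.injective h)]
      have h2 : ∀ z : V, Function.update v (e (Sum.inr a)) z (e (Sum.inl a)) = v (e (Sum.inl a)) := fun z =>
        Function.update_of_ne (fun h => by simpa using e.injective h) _ _
      simp only [h1, h2, Function.update_self, map_add, add_mul]
  map_update_smul' := by
    classical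
    intro _ v i c x
    obtain ⟨a, rfl⟩ := e.surjective i
    rcases a with a | a
    · rw [← Finset.mul_prod_erase _ _ (Finset.mem_univ a), ← Finset.mul_prod_erase _ _ (Finset.mem_univ a)]
      have h1 : ∀ z : V, ∏ j ∈ Finset.univ.erase a, b j (Function.update v (e (Sum.inl a)) z (e (Sum.inl j)))
          (Function.update v (e (Sum.inl a)) z (e (Sum.inr j))) =
          ∏ j ∈ Finset.univ.erase a, b j (v (e (Sum.inl j))) (v (e (Sum.inr j))) := by
        intro z
        refine Finset.prod_congr rfl fun j hj => ?_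
        rw [Function.update_of_ne (fun h => Finset.ne_of_mem_erase hj (Sum.inl_injective (e.injective h))),
          Function.update_of_ne (fun h => by simpa using e.injective h)]
      have h2 : ∀ z : V, Function.update v (e (Sum.inl a)) z (e (Sum.inr a)) = v (e (Sum.inr a)) := fun z =>
        Function.update_of_ne (fun h => by simpa using e.injective h) _ _
      simp only [h1, h2, Function.update_self, map_smul, LinearMap.smul_apply, smul_eq_mul, mul_assoc]
    · rw [← Finset.mul_prod_erase _ _ (Finset.mem_univ a), ← Finset.mul_prod_erase _ _ (Finset.mem_univ a)]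
      have h1 : ∀ z : V, ∏ j ∈ Finset.univ.erase a, b j (Function.update v (e (Sum.inr a)) z (e (Sum.inl j)))
          (Function.update v (e (Sum.inr a)) z (e (Sum.inr j))) =
          ∏ j ∈ Finset.univ.erase a, b j (v (e (Sum.inl j))) (v (e (Sum.inr j))) := by
        intro z
        refine Finset.prod_congr rfl fun j hj => ?_
        rw [Function.update_of_ne (fun h => Finset.ne_of_mem_erase hj (Sum.inr_injective (e.injective h))),
          Function.update_of_ne (fun h => by simpa using e.injective h)]
      have h2 : ∀ z : V, Function.update v (e (Sum.inr a)) z (e (Sum.inl a)) = v (e (Sum.inl a)) := fun z =>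
        Function.update_of_ne (fun h => by simpa using e.injective h) _ _
      simp only [h1, h2, Function.update_self, map_smul, smul_eq_mul, mul_assoc]

theorem mulForm_apply {n m : ℕ} (e : Fin m ⊕ Fin m ≃ Fin n) (b : Fin m → V →ₗ[k] V →ₗ[k] k) (v : Fin n → V) :
    mulForm e b v = ∏ j, b j (v (e (Sum.inl j))) (v (e (Sum.inr j))) := rfl

variable {C : Type w} [Field C] [Algebra k C]

/-- A bilinear map to `C` with the property of the forms in `IsPair` is a combination of such forms over `k`. -/
theorem exists_expand [Module.Finite k V] (S : Set ((V →ₗ[k] V) × k)) (β : V →ₗ[k] V →ₗ[k] C)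
    (hβ : ∀ p ∈ S, ∀ v w, β (p.1 v) (p.1 w) = algebraMap k C p.2 * β v w) :
    ∃ (r : ℕ) (c : Fin r → C) (b : Fin r → V →ₗ[k] V →ₗ[k] k), (∀ s, IsPair S (b s)) ∧
      ∀ v w, β v w = ∑ s, c s * algebraMap k C (b s v w) := by
  let φ₀ : V ⊗[k] V →ₗ[k] C := TensorProduct.lift β
  let W : Submodule k C := LinearMap.range φ₀
  let φ : V ⊗[k] V →ₗ[k] W := φ₀.rangeRestrict
  have hφ : ∀ v w, ((φ (v ⊗ₜ w) : W) : C) = β v w := fun v w => TensorProduct.lift.tmul v w
  let bs := Module.finBasis k W
  refine ⟨_, fun s => (bs s : C), fun s => TensorProduct.curry ((bs.coord s).comp φ), ?_, ?_⟩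
  · intro s p hp v w
    have h1 : φ (p.1 v ⊗ₜ p.1 w) = p.2 • φ (v ⊗ₜ w) := by
      apply Subtype.ext
      rw [Submodule.coe_smul, hφ, hφ, hβ p hp, Algebra.smul_def]
    show bs.coord s (φ (p.1 v ⊗ₜ p.1 w)) = p.2 * bs.coord s (φ (v ⊗ₜ w))
    rw [h1, map_smul, smul_eq_mul]
  · intro v w
    have h1 := congrArg (fun z : W => (z : C)) (bs.sum_repr (φ (v ⊗ₜ w)))
    simp only [hφ] at h1
    rw [← h1, Submodule.coe_sum]
    refine Finset.sum_congr rfl fun s _ => ?_
    rw [Submodule.coe_smul, Algebra.smul_def, mul_comm]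
    rfl

/-- A product of bilinear maps to `C` is a combination of products of forms over `k`. -/
theorem prod_mem_span [Module.Finite k V] (S : Set ((V →ₗ[k] V) × k)) {n m : ℕ} (e : Fin m ⊕ Fin m ≃ Fin n)
    (β : Fin m → V →ₗ[k] V →ₗ[k] C)
    (hβ : ∀ j, ∀ p ∈ S, ∀ v w, β j (p.1 v) (p.1 w) = algebraMap k C p.2 * β j v w) :
    (fun v : Fin n → V => ∏ j, β j (v (e (Sum.inl j))) (v (e (Sum.inr j)))) ∈
      Submodule.span C {f : (Fin n → V) → C | ∃ D, IsProd S e D ∧ f = fun v => algebraMap k C (D v)} := by
  classical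
  choose r c b hb hexp using fun j => exists_expand S (β j) (hβ j)
  have h1 : (fun v : Fin n → V => ∏ j, β j (v (e (Sum.inl j))) (v (e (Sum.inr j)))) =
      ∑ p ∈ Fintype.piFinset (fun j => (Finset.univ : Finset (Fin (r j)))),
        (∏ j, c j (p j)) • fun v : Fin n → V => algebraMap k C (mulForm e (fun j => b j (p j)) v) := by
    funext v
    rw [Finset.sum_apply]
    simp only [hexp]
    rw [Finset.prod_univ_sum]
    refine Finset.sum_congr rfl fun p _ => ?_
    rw [Pi.smul_apply, mulForm_apply, map_prod, smul_eq_mul, ← Finset.prod_mul_distrib]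
  rw [h1]
  refine Submodule.sum_mem _ fun p _ => Submodule.smul_mem _ _ (Submodule.subset_span ⟨_, ?_, rfl⟩)
  exact ⟨fun j => b j (p j), fun j => hb j (p j), fun v => rfl⟩

/-- If a form over `k` is a combination over `C` of forms over `k`, it is one over `k`. -/
theorem mem_span_of_mem_span {n : ℕ} (P : MultilinearMap k (fun _ : Fin n => V) k → Prop)
    (T : MultilinearMap k (fun _ : Fin n => V) k)
    (hT : (fun v : Fin n → V => algebraMap k C (T v)) ∈
      Submodule.span C {f : (Fin n → V) → C | ∃ D, P D ∧ f = fun v => algebraMap k C (D v)}) :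
    T ∈ Submodule.span k {D | P D} := by
  obtain ⟨lam, hlam⟩ : ∃ lam : C →ₗ[k] k, ∀ a : k, lam (algebraMap k C a) = a := by
    obtain ⟨g, hg⟩ := LinearMap.exists_leftInverse_of_injective (Algebra.linearMap k C)
      (LinearMap.ker_eq_bot.2 (FaithfulSMul.algebraMap_injective k C))
    exact ⟨g, fun a => LinearMap.congr_fun hg a⟩
  have key : ∀ f ∈ Submodule.span C {f : (Fin n → V) → C | ∃ D, P D ∧ f = fun v => algebraMap k C (D v)},
      ∀ a : C, ∃ D ∈ Submodule.span k {D | P D}, ∀ v, lam (a * f v) = D v := by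
    intro f hf
    induction hf using Submodule.span_induction with
    | mem f hf =>
      obtain ⟨D, hD, rfl⟩ := hf
      intro a
      refine ⟨lam a • D, Submodule.smul_mem _ _ (Submodule.subset_span hD), fun v => ?_⟩
      have h1 : a * algebraMap k C (D v) = D v • a := by rw [Algebra.smul_def, mul_comm]
      rw [h1, map_smul, smul_eq_mul, mul_comm]
      rfl
    | zero =>
      intro a
      refine ⟨0, Submodule.zero_mem _, fun v => ?_⟩
      rw [Pi.zero_apply, mul_zero, map_zero]
      rfl
    | add f g _ _ hf hg =>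
      intro a
      obtain ⟨D, hD, h1⟩ := hf a
      obtain ⟨D', hD', h2⟩ := hg a
      refine ⟨D + D', Submodule.add_mem _ hD hD', fun v => ?_⟩
      rw [Pi.add_apply, mul_add, map_add, h1, h2]
      rfl
    | smul c f _ hf =>
      intro a
      obtain ⟨D, hD, h1⟩ := hf (a * c)
      refine ⟨D, hD, fun v => ?_⟩
      rw [← h1, Pi.smul_apply, smul_eq_mul, mul_assoc]
  obtain ⟨D, hD, h1⟩ := key _ hT 1
  have h2 : T = D := by
    refine MultilinearMap.ext fun v => ?_
    rw [← h1, one_mul, hlam]
  rw [h2]
  exact hD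

/-- **Descent.** If the form `TC` over `C`, which extends the form `T` over `k`, is a combination of products of forms with the
property of `IsPair` over `C`, then `T` is a combination of products of such forms over `k`. -/
theorem descent [Module.Finite k V] (S : Set ((V →ₗ[k] V) × k)) {n : ℕ}
    (T : MultilinearMap k (fun _ : Fin n => V) k)
    (P' : MultilinearMap C (fun _ : Fin n => C ⊗[k] V) C → Prop)
    (hP : ∀ T', P' T' → ∃ (m : ℕ) (e : Fin m ⊕ Fin m ≃ Fin n) (B : Fin m → C ⊗[k] V →ₗ[C] C ⊗[k] V →ₗ[C] C) (c : C),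
      (∀ j, ∀ p ∈ S, ∀ x y, B j (p.1.baseChange C x) (p.1.baseChange C y) = algebraMap k C p.2 * B j x y) ∧
        ∀ v, T' v = (∏ j, B j (v (e (Sum.inl j))) (v (e (Sum.inr j)))) * c)
    (TC : MultilinearMap C (fun _ : Fin n => C ⊗[k] V) C)
    (hTC : ∀ v : Fin n → V, TC (fun a => 1 ⊗ₜ v a) = algebraMap k C (T v))
    (h : TC ∈ Submodule.span C {T' | P' T'}) :
    T ∈ Submodule.span k {D | ∃ (m : ℕ) (e : Fin m ⊕ Fin m ≃ Fin n), IsProd S e D} := by
  apply mem_span_of_mem_span (C := C)
  have h1 : (fun v : Fin n → V => algebraMap k C (T v)) = fun v => TC (fun a => 1 ⊗ₜ v a) := by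
    funext v
    exact (hTC v).symm
  rw [h1]
  clear hTC h1
  induction h using Submodule.span_induction with
  | mem T' hT' =>
    obtain ⟨m, e, B, c, hB, h2⟩ := hP T' hT'
    let β : Fin m → V →ₗ[k] V →ₗ[k] C := fun j =>
      LinearMap.mk₂ k (fun v w => B j (1 ⊗ₜ v) (1 ⊗ₜ w))
        (fun v v' w => by rw [TensorProduct.tmul_add, map_add, LinearMap.add_apply])
        (fun a v w => by
          have h3 : (1 : C) ⊗ₜ[k] (a • v) = algebraMap k C a • ((1 : C) ⊗ₜ[k] v) := by
            rw [TensorProduct.tmul_smul, algebraMap_smul]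
          rw [h3, map_smul, LinearMap.smul_apply, algebraMap_smul])
        (fun v w w' => by rw [TensorProduct.tmul_add, map_add])
        (fun a v w => by
          have h3 : (1 : C) ⊗ₜ[k] (a • w) = algebraMap k C a • ((1 : C) ⊗ₜ[k] w) := by
            rw [TensorProduct.tmul_smul, algebraMap_smul]
          rw [h3, map_smul, algebraMap_smul])
    have hβ : ∀ j, ∀ p ∈ S, ∀ v w, β j (p.1 v) (p.1 w) = algebraMap k C p.2 * β j v w := by
      intro j p hp v w
      have h3 := hB j p hp (1 ⊗ₜ v) (1 ⊗ₜ w)
      rw [LinearMap.baseChange_tmul, LinearMap.baseChange_tmul] at h3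
      exact h3
    have h4 := prod_mem_span S e β hβ
    have h5 : (fun v : Fin n → V => T' (fun a => 1 ⊗ₜ v a)) =
        c • fun v : Fin n → V => ∏ j, β j (v (e (Sum.inl j))) (v (e (Sum.inr j))) := by
      funext v
      rw [h2, Pi.smul_apply, smul_eq_mul, mul_comm]
      rfl
    rw [h5]
    refine Submodule.smul_mem _ _ (Submodule.span_mono ?_ h4)
    rintro f ⟨D, hD, rfl⟩
    exact ⟨D, ⟨m, e, hD⟩, rfl⟩
  | zero => exact Submodule.zero_mem _
  | add x y _ _ hx hy => exact Submodule.add_mem _ hx hy
  | smul c x _ hx => exact Submodule.smul_mem _ c hx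

end

end Pool.Agent.Lib.MP_021685_agTT
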