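import Pool.Agent.Lib.MP_021685_agTT.LA2
import Pool.Agent.Lib.MP_021685_agTT.DG

/-!
Existence of a non-degenerate alternating form `e` with `e (F v) (F w) = Q e v w`.
-/

set_option autoImplicit false

namespace Pool.Agent.Lib.MP_021685_agTT

open Polynomial Module TensorProduct

/-- Over `ℂ`: an operator with simple eigenvalues `z`, for which `Q / z` is an eigenvalue different from `z`, preserves a
non-degenerate alternating form up to the factor `Q`. -/
theorem exists_form_complex {V : Type} [AddCommGroup V] [Module ℂ V] [FiniteDimensional ℂ V] (F : V →ₗ[ℂ] V)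
    (hsep : F.charpoly.Separable) {Q : ℕ}
    (hroot : ∀ z : ℂ, F.charpoly.IsRoot z → z * starRingEnd ℂ z = Q ∧ z ^ 2 ≠ Q ∧ F.charpoly.IsRoot (starRingEnd ℂ z)) :
    ∃ e : V →ₗ[ℂ] V →ₗ[ℂ] ℂ, (∀ v w, e v w = - e w v) ∧ (∀ v, (∀ w, e v w = 0) → v = 0) ∧
      ∀ v w, e (F v) (F w) = (Q : ℂ) * e v w := by
  classical
  obtain ⟨ι, _, b, x, hinj, hb⟩ := exists_eigenbasis F hsep
  have heig : ∀ i, F.charpoly.IsRoot (x i) := fun i =>
    (Module.End.hasEigenvalue_iff_isRoot_charpoly F (x i)).1 (Module.End.hasEigenvalue_of_hasEigenvector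
      ⟨Module.End.mem_eigenspace_iff.2 (hb i), b.ne_zero i⟩)
  have hall : ∀ z, F.charpoly.IsRoot z → ∃ i, x i = z := by
    intro z hz
    obtain ⟨v, hv, hv0⟩ := ((Module.End.hasEigenvalue_iff_isRoot_charpoly F z).2 hz).exists_hasEigenvector
    have hv' : F v = z • v := Module.End.mem_eigenspace_iff.1 hv
    obtain ⟨i, hi⟩ : ∃ i, b.coord i v ≠ 0 := by
      by_contra hcon
      push Not at hcon
      exact hv0 ((Basis.forall_coord_eq_zero_iff b).1 hcon)
    refine ⟨i, ?_⟩
    have h1 := coord_apply_eig hb i v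
    rw [hv', map_smul, smul_eq_mul] at h1
    exact (mul_right_cancel₀ hi h1).symm
  choose τ hτ using fun i => hall _ (hroot _ (heig i)).2.2
  have hττ : ∀ i, τ (τ i) = i := by
    intro i
    apply hinj
    rw [hτ, hτ, Complex.conj_conj]
  have hxτ : ∀ i, x i * x (τ i) = Q := fun i => by rw [hτ]; exact (hroot _ (heig i)).1
  have hne : ∀ i, x i - x (τ i) ≠ 0 := by
    intro i h
    have h1 := hxτ i
    rw [← sub_eq_zero.1 h, ← sq] at h1
    exact (hroot _ (heig i)).2.1 h1
  let e : V →ₗ[ℂ] V →ₗ[ℂ] ℂ := ∑ i, (x i - x (τ i)) • (LinearMap.mul ℂ ℂ).compl₁₂ (b.coord i) (b.coord (τ i))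
  have he : ∀ v w, e v w = ∑ i, (x i - x (τ i)) * (b.coord i v * b.coord (τ i) w) := by
    intro v w
    show (∑ i, (x i - x (τ i)) • (LinearMap.mul ℂ ℂ).compl₁₂ (b.coord i) (b.coord (τ i))) v w = _
    rw [LinearMap.sum_apply, LinearMap.sum_apply]
    rfl
  refine ⟨e, fun v w => ?_, fun v hv => ?_, fun v w => ?_⟩
  · rw [he, he, ← Finset.sum_neg_distrib]
    refine Finset.sum_nbij' τ τ (fun _ _ => Finset.mem_univ _) (fun _ _ => Finset.mem_univ _)
      (fun i _ => hττ i) (fun i _ => hττ i) fun i _ => ?_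
    rw [hττ]
    ring
  · refine (Basis.forall_coord_eq_zero_iff b).1 fun i => ?_
    have h1 := hv (b (τ i))
    rw [he, Finset.sum_eq_single i] at h1
    · have h2 : b.coord (τ i) (b (τ i)) = 1 := by
        rw [Basis.coord_apply, Basis.repr_self, Finsupp.single_eq_same]
      rw [h2, mul_one] at h1
      exact (mul_eq_zero.1 h1).resolve_left (hne i)
    · intro j _ hj
      have h2 : b.coord (τ j) (b (τ i)) = 0 := by
        rw [Basis.coord_apply, Basis.repr_self, Finsupp.single_eq_of_ne]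
        intro h
        exact hj (by rw [← hττ j, h, hττ])
      rw [h2, mul_zero, mul_zero]
    · intro h
      exact absurd (Finset.mem_univ _) h
  · rw [he, he, Finset.mul_sum]
    refine Finset.sum_congr rfl fun i _ => ?_
    rw [coord_apply_eig hb, coord_apply_eig hb, ← hxτ i]
    ring

section

variable {k : Type} [Field k] [Algebra k ℂ] {V : Type} [AddCommGroup V] [Module k V]

/-- **Existence.**  Let the characteristic polynomial of `F` be the image of `R` in `ℤ[X]` without multiple roots, and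
`|z| ^ 2 = Q`, `z ^ 2 ≠ Q` for all complex roots `z` of `R`.  Then there is a non-degenerate alternating form `e` with
`e (F v) (F w) = Q e v w`. -/
theorem exists_form [FiniteDimensional k V] {Q : ℕ} {R : ℤ[X]} (hR : (R.map (Int.castRingHom ℚ)).Separable)
    (hroot : ∀ z : ℂ, aeval z R = 0 → z * starRingEnd ℂ z = Q ∧ z ^ 2 ≠ Q) (F : V →ₗ[k] V)
    (hF : F.charpoly = R.map (Int.castRingHom k)) :
    ∃ e : V →ₗ[k] V →ₗ[k] k, (∀ v, e v v = 0) ∧ (∀ v, (∀ w, e v w = 0) → v = 0) ∧
      ∀ v w, e (F v) (F w) = (Q : k) * e v w := by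
  classical
  have hchar : CharZero k := RingHom.charZero (algebraMap k ℂ)
  have hFC : (F.baseChange ℂ).charpoly = R.map (Int.castRingHom ℂ) := by
    rw [LinearMap.charpoly_baseChange, hF, Polynomial.map_map]
    exact congrArg (fun f : ℤ →+* ℂ => R.map f) (RingHom.ext_int _ _)
  have hsepC : (F.baseChange ℂ).charpoly.Separable := by
    rw [hFC]
    have h1 : R.map (Int.castRingHom ℂ) = (R.map (Int.castRingHom ℚ)).map (algebraMap ℚ ℂ) := by
      rw [Polynomial.map_map]
      exact congrArg (fun f : ℤ →+* ℂ => R.map f) (RingHom.ext_int _ _)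
    rw [h1]
    exact hR.map
  have hz : ∀ z : ℂ, (F.baseChange ℂ).charpoly.IsRoot z ↔ aeval z R = 0 := by
    intro z
    rw [hFC, IsRoot.def, eval_map, aeval_def]
    exact Iff.rfl
  have hconj : ∀ z : ℂ, aeval z R = 0 → aeval (starRingEnd ℂ z) R = 0 := by
    intro z h
    have h1 : aeval (starRingEnd ℂ z) R = starRingEnd ℂ (aeval z R) := by
      rw [aeval_def, aeval_def, hom_eval₂]
      exact congrArg (fun f : ℤ →+* ℂ => eval₂ f (starRingEnd ℂ z) R) (RingHom.ext_int _ _)
    rw [h1, h, map_zero]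
  obtain ⟨eC, halt, hnd, he⟩ := exists_form_complex (F.baseChange ℂ) hsepC (Q := Q) fun z h =>
    ⟨(hroot z ((hz z).1 h)).1, (hroot z ((hz z).1 h)).2, (hz _).2 (hconj z ((hz z).1 h))⟩
  let β : V →ₗ[k] V →ₗ[k] ℂ := LinearMap.mk₂ k (fun v w => eC (1 ⊗ₜ v) (1 ⊗ₜ w))
    (fun v v' w => by rw [TensorProduct.tmul_add, map_add, LinearMap.add_apply])
    (fun a v w => by
      have h3 : (1 : ℂ) ⊗ₜ[k] (a • v) = algebraMap k ℂ a • ((1 : ℂ) ⊗ₜ[k] v) := by
        rw [TensorProduct.tmul_smul, algebraMap_smul]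
      rw [h3, map_smul, LinearMap.smul_apply, algebraMap_smul])
    (fun v w w' => by rw [TensorProduct.tmul_add, map_add])
    (fun a v w => by
      have h3 : (1 : ℂ) ⊗ₜ[k] (a • w) = algebraMap k ℂ a • ((1 : ℂ) ⊗ₜ[k] w) := by
        rw [TensorProduct.tmul_smul, algebraMap_smul]
      rw [h3, map_smul, algebraMap_smul])
  have hβ : ∀ v w, β v w = eC (1 ⊗ₜ v) (1 ⊗ₜ w) := fun v w => rfl
  obtain ⟨r, c, b, hb, hexp⟩ := exists_expand (C := ℂ) {((F, (Q : k)) : (V →ₗ[k] V) × k)} β (by
    rintro p rfl v w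
    have h3 := he (1 ⊗ₜ v) (1 ⊗ₜ w)
    rw [LinearMap.baseChange_tmul, LinearMap.baseChange_tmul] at h3
    rw [hβ, hβ, h3, map_natCast])
  -- the alternating forms
  let a : Fin r → V →ₗ[k] V →ₗ[k] k := fun s => b s - (b s).flip
  have ha : ∀ s v w, a s v w = b s v w - b s w v := fun s v w => rfl
  have hexp2 : ∀ v w, (2 : ℂ) * eC (1 ⊗ₜ v) (1 ⊗ₜ w) = ∑ s, c s * algebraMap k ℂ (a s v w) := by
    intro v w
    have h1 : (2 : ℂ) * eC (1 ⊗ₜ v) (1 ⊗ₜ w) = β v w - β w v := by
      rw [hβ, hβ, halt (1 ⊗ₜ w) (1 ⊗ₜ v)]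
      ring
    rw [h1, hexp, hexp, ← Finset.sum_sub_distrib]
    refine Finset.sum_congr rfl fun s _ => ?_
    rw [ha, map_sub, mul_sub]
  let bs := finBasis k V
  let n := finrank k V
  -- the determinant as a polynomial in the coefficients
  let M : Matrix (Fin n) (Fin n) (MvPolynomial (Fin r) k) := fun i j =>
    ∑ s, MvPolynomial.X s * MvPolynomial.C (a s (bs i) (bs j))
  have hM : ∀ {L : Type} [Field L] [Algebra k L] (y : Fin r → L),
      MvPolynomial.aeval y M.det = (Matrix.of fun i j => ∑ s, y s * algebraMap k L (a s (bs i) (bs j))).det := by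
    intro L _ _ y
    rw [AlgHom.map_det]
    congr 1
    ext i j
    simp only [M, AlgHom.mapMatrix_apply, Matrix.map_apply, Matrix.of_apply, map_sum, map_mul, MvPolynomial.aeval_X,
      MvPolynomial.aeval_C]
  have hdet : M.det ≠ 0 := by
    intro h0
    have h1 := hM (L := ℂ) c
    rw [h0, map_zero] at h1
    obtain ⟨u, hu0, hu⟩ := Matrix.exists_vecMul_eq_zero_iff.2 h1.symm
    let v : ℂ ⊗[k] V := ∑ i, u i • ((1 : ℂ) ⊗ₜ[k] bs i)
    have hv : v = 0 := by
      refine hnd v fun w => ?_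
      have h2 : eC v = 0 := by
        refine (bs.baseChange ℂ).ext fun j => ?_
        rw [Basis.baseChange_apply, LinearMap.zero_apply]
        have h3 := congrFun hu j
        have h4 : ∑ i, u i * ∑ s, c s * algebraMap k ℂ (a s (bs i) (bs j)) = 0 := h3
        have h5 : (2 : ℂ) * eC v (1 ⊗ₜ bs j) = 0 := by
          rw [← h4]
          show (2 : ℂ) * eC (∑ i, u i • ((1 : ℂ) ⊗ₜ[k] bs i)) (1 ⊗ₜ bs j) = _
          rw [map_sum, LinearMap.sum_apply, Finset.mul_sum]
          refine Finset.sum_congr rfl fun i _ => ?_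
          rw [map_smul, LinearMap.smul_apply, smul_eq_mul, ← hexp2]
          ring
        exact (mul_eq_zero.1 h5).resolve_left two_ne_zero
      rw [h2, LinearMap.zero_apply]
    apply hu0
    funext i
    have h6 : (bs.baseChange ℂ).coord i v = u i := by
      show (bs.baseChange ℂ).coord i (∑ i, u i • ((1 : ℂ) ⊗ₜ[k] bs i)) = _
      simp only [← Basis.baseChange_apply ℂ bs]
      rw [Basis.coord_apply, Basis.repr_sum_self]
    rw [← h6, hv, map_zero]
    rfl
  obtain ⟨y, hy⟩ : ∃ y : Fin r → k, MvPolynomial.eval y M.det ≠ 0 := by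
    by_contra hcon
    push Not at hcon
    exact hdet (MvPolynomial.funext fun y => by rw [hcon y, map_zero])
  have hy' : (Matrix.of fun i j => ∑ s, y s * a s (bs i) (bs j)).det ≠ 0 := by
    have h1 := hM (L := k) y
    have h2 : MvPolynomial.aeval y M.det = MvPolynomial.eval y M.det := by
      rw [MvPolynomial.aeval_def]
      rfl
    rw [h2] at h1
    intro h3
    apply hy
    rw [h1, ← h3]
    rfl
  refine ⟨∑ s, y s • a s, fun v => ?_, fun v hv => ?_, fun v w => ?_⟩
  · rw [LinearMap.sum_apply, LinearMap.sum_apply]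
    refine Finset.sum_eq_zero fun s _ => ?_
    rw [LinearMap.smul_apply, LinearMap.smul_apply, ha, sub_self, smul_zero]
  · by_contra hv0
    apply hy'
    refine Matrix.exists_vecMul_eq_zero_iff.1 ⟨fun i => bs.repr v i, fun h => hv0 ?_, ?_⟩
    · rw [← bs.sum_repr v]
      exact Finset.sum_eq_zero fun i _ => by rw [congrFun h i, Pi.zero_apply, zero_smul]
    · funext j
      show ∑ i, bs.repr v i * ∑ s, y s * a s (bs i) (bs j) = 0
      have h1 := hv (bs j)
      conv_lhs at h1 => rw [← bs.sum_repr v]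
      rw [map_sum, LinearMap.sum_apply] at h1
      rw [← h1]
      refine Finset.sum_congr rfl fun i _ => ?_
      rw [map_smul, LinearMap.smul_apply, smul_eq_mul, LinearMap.sum_apply, LinearMap.sum_apply]
      rfl
  · rw [LinearMap.sum_apply, LinearMap.sum_apply, LinearMap.sum_apply, LinearMap.sum_apply, Finset.mul_sum]
    refine Finset.sum_congr rfl fun s _ => ?_
    rw [LinearMap.smul_apply, LinearMap.smul_apply, LinearMap.smul_apply, LinearMap.smul_apply, ha, ha,
      smul_eq_mul, smul_eq_mul, hb s _ rfl v w, hb s _ rfl w v]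
    ring

end

end Pool.Agent.Lib.MP_021685_agTT
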