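import Pool.Agent.Lib.MP_021685_agTT.LO
import Pool.Agent.Lib.MP_021685_agTT.EX

/-!
Tate classes on the products of the powers of an abelian variety over a finite field and of a second variety: the form without
a hypothesis on a pairing.
-/

set_option autoImplicit false

namespace Pool.Agent.Lib.MP_021685_agTT

open Polynomial Pool.Agent.Lib.MP_17a322_nt.VA TensorProduct

/-- **All Tate classes on the products `A ^ n × Z` are sums of products of Tate classes of degree two on `A ^ n` and of Tate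
classes on `Z`**, for all abelian varieties `A` with Frobenius polynomial `R` over the fields with `Q` elements and all varieties
`Z` over the same field, if the Frobenius eigenvalues of `Z` have the property `S`: the only hypothesis on `A` is its Frobenius
polynomial.  The letters are those of `LitOver`.

* There is a non-degenerate alternating form `e` on `V_l(A)` with `e (F v) (F w) = Q e v w`.
* A Tate class `T` on `A ^ n × Z` over the extension of degree `d` of `K`, in `H^(2 j)(A ^ n) ⊗ H^(2 i)(Z)`, is a sum of products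
  of cup products of `j` Tate classes `D` of degree two on `A ^ n` over `K` itself, alternating forms on `V_l(A) ^ n` with
  `D (F v) (F w) = Q D v w` (by Tate's theorem the combinations of classes of divisors; they can be chosen among the pull backs
  of `e`, see `LitOver`), and of Tate classes `y` on `Z` over the extension.
* In `H^(2 j + 1)(A ^ n) ⊗ H^(2 i + 1)(Z)` there are no Tate classes but `0`. -/
def LitFree (Q : ℕ) (R : ℤ[X]) (S : ℂ → Prop) : Prop :=
  ∀ (K : Type) [Field K] [Fintype K] (N : ℕ) (A : AV K N) (l : ℕ) [Fact l.Prime],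
    Fintype.card K = Q → (l : K) ≠ 0 → (frobV A l).charpoly = R.map (Int.castRingHom ℚ_[l]) →
    (∃ e : VlA A l →ₗ[ℚ_[l]] VlA A l →ₗ[ℚ_[l]] ℚ_[l], (∀ v, e v v = 0) ∧ (∀ v, (∀ w, e v w = 0) → v = 0) ∧
      ∀ v w, e (frobV A l v) (frobV A l w) = Q * e v w) ∧
    ∀ (W : Type) [AddCommGroup W] [Module ℚ_[l] W] [Module.Finite ℚ_[l] W] (G : W →ₗ[ℚ_[l]] W)
      (p : ℤ[X]), G.charpoly = p.map (Int.castRingHom ℚ_[l]) → (∀ z : ℂ, aeval z p = 0 → S z) →
      ∀ d n j i : ℕ, 0 < d →
        (∀ T : (Fin n → VlA A l) [⋀^Fin j ⊕ Fin j]→ₗ[ℚ_[l]] (W →ₗ[ℚ_[l]] ℚ_[l]),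
          (∀ (v : Fin j ⊕ Fin j → Fin n → VlA A l) (w : W),
            T (fun a s => (frobV A l ^ d) (v a s)) ((G ^ d) w) = Q ^ (d * (j + i)) * T v w) →
          ∃ (r : ℕ) (D : Fin r → Fin j → (Fin n → VlA A l) →ₗ[ℚ_[l]] (Fin n → VlA A l) →ₗ[ℚ_[l]] ℚ_[l])
            (y : Fin r → W →ₗ[ℚ_[l]] ℚ_[l]),
            (∀ a b, (∀ v, D a b v v = 0) ∧ ∀ v w : Fin n → VlA A l,
              D a b (fun s => frobV A l (v s)) (fun s => frobV A l (w s)) = Q * D a b v w) ∧
            (∀ a w, y a ((G ^ d) w) = Q ^ (d * i) * y a w) ∧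
            ∀ v w, T v w = ∑ a, cup (fun b x z => D a b x z) v * y a w) ∧
        ∀ T : (Fin n → VlA A l) [⋀^Fin (2 * j + 1)]→ₗ[ℚ_[l]] (W →ₗ[ℚ_[l]] ℚ_[l]),
          (∀ (v : Fin (2 * j + 1) → Fin n → VlA A l) (w : W),
            T (fun a s => (frobV A l ^ d) (v a s)) ((G ^ d) w) =
              Q ^ (d * (j + i + 1)) * T v w) → T = 0

section

variable {k : Type} [Field k] {V : Type} [AddCommGroup V] [Module k V] {n : ℕ}

/-- The linear map `homV F m`. -/
noncomputable def homVL (F : V →ₗ[k] V) (m : Fin n → ℤ[X]) : (Fin n → V) →ₗ[k] V :=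
  ∑ s, (aeval (R := ℤ) (A := Module.End k V) F (m s)).comp (LinearMap.proj s)

theorem homVL_apply (F : V →ₗ[k] V) (m : Fin n → ℤ[X]) (x : Fin n → V) : homVL F m x = homV F m x := by
  rw [homVL, LinearMap.sum_apply]
  rfl

theorem homVL_comm (F : V →ₗ[k] V) (m : Fin n → ℤ[X]) (x : Fin n → V) :
    homVL F m (fun s => F (x s)) = F (homVL F m x) := by
  rw [homVL, LinearMap.sum_apply, LinearMap.sum_apply, map_sum]
  refine Finset.sum_congr rfl fun s _ => ?_
  have h1 : (aeval (R := ℤ) (A := Module.End k V) F (m s)) * F = F * aeval (R := ℤ) (A := Module.End k V) F (m s) := by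
    have h2 : aeval (R := ℤ) (A := Module.End k V) F (m s * X) = aeval (R := ℤ) (A := Module.End k V) F (X * m s) := by
      rw [mul_comm]
    rwa [map_mul, map_mul, aeval_X] at h2
  exact LinearMap.congr_fun h1 (x s)

end

theorem litFree_of_over {Q : ℕ} {R : ℤ[X]} {S : ℂ → Prop} (hR : (R.map (Int.castRingHom ℚ)).Separable)
    (hroot : ∀ z : ℂ, aeval z R = 0 → z * starRingEnd ℂ z = Q ∧ z ^ 2 ≠ Q) (h : LitOver Q R S) : LitFree Q R S := by
  intro K _ _ N A l _ hK hl hchar
  obtain ⟨σ⟩ := exists_embedding l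
  let _ : Algebra ℚ_[l] ℂ := σ.toAlgebra
  obtain ⟨e, halt, hnd, he⟩ := exists_form hR hroot (frobV A l) hchar
  refine ⟨⟨e, halt, hnd, he⟩, fun W _ _ _ G p hp hz d n j i hd => ?_⟩
  obtain ⟨h1, h2⟩ := h K N A l hK hl hchar e halt hnd he W G p hp hz d n j i hd
  refine ⟨fun T hT => ?_, h2⟩
  obtain ⟨c, hc, hT'⟩ := h1 T hT
  let ε := c.support.equivFin
  refine ⟨c.support.card, fun a b => e.compl₁₂ (homVL (frobV A l) ((ε.symm a : Fin j → Fin n → ℤ[X]) b))
    (homVL (frobV A l) ((ε.symm a : Fin j → Fin n → ℤ[X]) b)), fun a => c (ε.symm a), fun a b => ⟨fun v => halt _,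
      fun v w => ?_⟩, fun a w => hc _ w, fun v w => ?_⟩
  · rw [LinearMap.compl₁₂_apply, LinearMap.compl₁₂_apply, homVL_comm, homVL_comm, he]
  · rw [hT', Finsupp.sum, ← Finset.sum_coe_sort c.support, ← Equiv.sum_comp ε.symm]
    refine Finset.sum_congr rfl fun a _ => ?_
    congr 1
    congr 1
    funext b x z
    rw [LinearMap.compl₁₂_apply, homVL_apply, homVL_apply]
    rfl

end Pool.Agent.Lib.MP_021685_agTT
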