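import Pool.Agent.Lib.MP_021685_agTT.TN
import Pool.Agent.Lib.MP_021685_agTAL.TM

/-!
The two forms of the characterisation of the rational Tate module are the same.
-/

set_option autoImplicit false

namespace Pool.Agent.Lib.MP_021685_agTT

section

variable {l : ℕ} [hl : Fact l.Prime] {M : Type} [AddCommGroup M] {V : Type} [AddCommGroup V] [Module ℚ_[l] V]
  {ι : (ℕ → M) → V}

theorem isTateMod_iff : TAL.IsTateMod l M V ι ↔ IsTateMod l M V ι := by
  constructor
  · intro h
    refine ⟨fun x y hx hy => h.add x hx y hy, fun a x hx => h.smul a x hx, fun x hx h0 n => ?_, fun v => ?_⟩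
    · rw [h.inj x hx h0]
      rfl
    · obtain ⟨k, x, hx, hv⟩ := h.surj v
      exact ⟨k, x, hx, hv.symm⟩
  · intro h
    refine ⟨fun x hx y hy => h.add x y hx hy, fun a x hx => h.smul a x hx, fun x hx h0 => funext fun n => h.inj x hx h0 n,
      fun v => ?_⟩
    obtain ⟨k, x, hx, hv⟩ := h.span v
    exact ⟨k, x, hx, hv.symm⟩

end

end Pool.Agent.Lib.MP_021685_agTT
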