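import Mathlib

/-!
The absolute Galois group of a field, the cyclotomic character, the Frobenius elements of a number field, and the complex form of
an action on a space over a subfield of the field of complex numbers: definitions.
-/

set_option autoImplicit false

universe u

namespace Pool.Agent.Lib.MP_021685_agTT

open NumberField TensorProduct

/-- The absolute Galois group of the field `K`: the automorphisms over `K` of its algebraic closure. -/
abbrev GalK (K : Type u) [Field K] : Type u := AlgebraicClosure K ≃ₐ[K] AlgebraicClosure K

/-- The `l`-adic cyclotomic character `χ` of the absolute Galois group of `K`, with values in `ℚ_l`. -/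
noncomputable def cyc (K : Type u) [Field K] (l : ℕ) [Fact l.Prime] : GalK K →* ℚ_[l]ˣ :=
  (Units.map (PadicInt.Coe.ringHom (p := l) : ℤ_[l] →* ℚ_[l])).comp
    ((cyclotomicCharacter (AlgebraicClosure K) l).comp (MulSemiringAction.toRingAut (GalK K) (AlgebraicClosure K)))

/-- `φ` is a Frobenius element at the prime ideal `p` of the number field `K`: there is a prime ideal `P` over `p` in the ring of
all algebraic integers of the algebraic closure of `K` such that `φ x` is congruent to `x ^ N (p)` modulo `P` for all `x`. -/
def IsFrobAt {K : Type} [Field K] [NumberField K] (p : Ideal (𝓞 K)) (φ : GalK K) : Prop :=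
  ∃ P : Ideal (integralClosure ℤ (AlgebraicClosure K)), P.IsPrime ∧
    (∀ (a : 𝓞 K) (x : integralClosure ℤ (AlgebraicClosure K)),
      (x : AlgebraicClosure K) = algebraMap K (AlgebraicClosure K) a → (x ∈ P ↔ a ∈ p)) ∧
    ∀ x y : integralClosure ℤ (AlgebraicClosure K),
      (y : AlgebraicClosure K) = φ x - (x : AlgebraicClosure K) ^ Ideal.absNorm p → y ∈ P

/-- The action on `ℂ ⊗ V` given by an action on the space `V` over the field `k`, with an embedding of `k` in `ℂ`. -/
noncomputable def repC {k : Type} [Field k] [Algebra k ℂ] {G : Type} [Group G] {V : Type} [AddCommGroup V] [Module k V]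
    (ρ : Representation k G V) : Representation ℂ G (ℂ ⊗[k] V) :=
  (Module.End.baseChangeHom k ℂ V : Module.End k V →* Module.End ℂ (ℂ ⊗[k] V)).comp ρ

/-- A character with values in `k`, with values in `ℂ`. -/
noncomputable def charC {k : Type} [Field k] [Algebra k ℂ] {G : Type} [Group G] (χ : G →* kˣ) : G →* ℂˣ :=
  (Units.map (algebraMap k ℂ : k →* ℂ)).comp χ

end Pool.Agent.Lib.MP_021685_agTT
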