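import Pool.Agent.Lib.MP_021685_agTM.MD
import Pool.Agent.Lib.MP_17a322_nt.VA.AV
import Pool.Agent.Lib.MP_021685_agTAL.TM
import Pool.Agent.Lib.MP_021685_agTT.GC

/-!
Tate classes on products of a power of an abelian variety and another variety, over any field, in terms of Tate modules: the
statement.
-/

set_option autoImplicit false

namespace Pool.Agent.Lib.MP_021685_agTT

open Polynomial TensorProduct Pool.Agent.Lib.MP_17a322_nt.VA

/-- `V`, with `ι` and the action `ρ` of the absolute Galois group of `K`, is the rational `l`-adic Tate module of the abelian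
variety `B` over `K` (in any of its constructions): `ι` maps the sequences `x` of points of `B` over the algebraic closure of `K`
with `x 0 = 0` and `l x (n + 1) = x n` (the elements of the Tate module) to `V` (`TAL.IsTateMod`), and `s (ι x) = ι x'` for `s` in
the Galois group, if `x' n` is the image of the point `x n` under `s` (the automorphism is applied to the coordinates). -/
def IsGalMod {K : Type} [Field K] {N : ℕ} (B : AV K N) (l : ℕ) [Fact l.Prime] {V : Type} [AddCommGroup V] [Module ℚ_[l] V]
    (ι : (ℕ → B.Pts (AlgebraicClosure K)) → V) (ρ : Representation ℚ_[l] (GalK K) V) : Prop :=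
  TAL.IsTateMod l (B.Pts (AlgebraicClosure K)) V ι ∧
    ∀ (s : GalK K) (x x' : ℕ → B.Pts (AlgebraicClosure K)), x ∈ TAL.TateSeq l (B.Pts (AlgebraicClosure K)) →
      (∀ n, IsImg (I := B.I) (s : AlgebraicClosure K →ₐ[K] AlgebraicClosure K) (x n) (x' n)) → ρ s (ι x) = ι x'

section

variable {K : Type} [Field K] {l : ℕ} [Fact l.Prime] {X : Type} [AddCommGroup X] [Module ℚ_[l] X] (τ : GalK K → X → X)

/-- `D` is an alternating form on `X` with `D (s v) (s w) = χ (s) D v w` for all `s` in the Galois group of the extension `L` of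
`K` in its algebraic closure; the action of the absolute Galois group of `K` on `X` is `τ`, and `χ` is the cyclotomic character.
For `X = V_l(A)`, `A` an abelian variety over `K`, `D` is a Tate class of degree two on `A` over `L`.  By the theorem of Faltings
(for finitely generated `K`), these are the combinations of classes of divisors on `A` over `L`. -/
def IsTateTwo (L : IntermediateField K (AlgebraicClosure K)) (D : X →ₗ[ℚ_[l]] X →ₗ[ℚ_[l]] ℚ_[l]) : Prop :=
  (∀ v, D v v = 0) ∧ ∀ s ∈ L.fixingSubgroup, ∀ v w : X, D (τ s v) (τ s w) = (cyc K l s : ℚ_[l]) * D v w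

/-- `e` is a non-degenerate alternating form on `X = V_l(B)` with `e (s v) (s w) = χ (s) e v w` for the absolute Galois group of
`K` (the Weil pairing of a polarization of `B`). -/
def IsWeilForm (e : X →ₗ[ℚ_[l]] X →ₗ[ℚ_[l]] ℚ_[l]) : Prop :=
  (∀ v, (∀ w, e v w = 0) → v = 0) ∧ IsTateTwo τ ⊥ e

variable {W : Type} [AddCommGroup W] [Module ℚ_[l] W] (σ : Representation ℚ_[l] (GalK K) W)

/-- `y` is a Tate form of weight `i` on `W` over the extension `L` of `K`. -/
def IsTateForm (L : IntermediateField K (AlgebraicClosure K)) (i : ℤ) (y : W →ₗ[ℚ_[l]] ℚ_[l]) : Prop :=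
  ∀ s ∈ L.fixingSubgroup, ∀ w : W, y (σ s w) = ((cyc K l s ^ i : ℚ_[l]ˣ) : ℚ_[l]) * y w

/-- `T` is a Tate form on `X` and `W` over the extension `L` of `K`: an alternating form in the arguments `v a`, `a` in `A`,
from `X` with values in the dual of `W`, with `T (s v) (s w) = χ (s) ^ i T v w` for all `s` in the Galois group of `L`. -/
def IsTateClass {A : Type} (L : IntermediateField K (AlgebraicClosure K)) (i : ℤ)
    (T : X [⋀^A]→ₗ[ℚ_[l]] (W →ₗ[ℚ_[l]] ℚ_[l])) : Prop :=
  ∀ s ∈ L.fixingSubgroup, ∀ (v : A → X) (w : W),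
    T (fun a => τ s (v a)) (σ s w) = ((cyc K l s ^ i : ℚ_[l]ˣ) : ℚ_[l]) * T v w

/-- All Tate forms on `X` and `W` over all finite extensions `L` of `K` are generated in degree two: if the number `m` of the
arguments from `X` is `2 j`, there is a finite extension `L'` of `K` such that `T` is a sum of products of cup products of `j`
forms `D` as in `IsTateTwo` over `L'` and Tate forms `y` on `W` over `L'` (the alternating sum over the permutations of the
arguments is `2 ^ j` times the cup product); if `m` is odd, `T = 0`. -/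
def GenOn : Prop :=
  ∀ (j : ℕ) (i : ℤ) (L : IntermediateField K (AlgebraicClosure K)), FiniteDimensional K L →
    (∀ T : X [⋀^Fin j ⊕ Fin j]→ₗ[ℚ_[l]] (W →ₗ[ℚ_[l]] ℚ_[l]), IsTateClass τ σ L i T →
      ∃ L' : IntermediateField K (AlgebraicClosure K), FiniteDimensional K L' ∧
        ∃ (r : ℕ) (D : Fin r → Fin j → X →ₗ[ℚ_[l]] X →ₗ[ℚ_[l]] ℚ_[l]) (y : Fin r → W →ₗ[ℚ_[l]] ℚ_[l]),
          (∀ a b, IsTateTwo τ L' (D a b)) ∧ (∀ a, IsTateForm σ L' (i - j) (y a)) ∧
            ∀ v w, T v w = ∑ a, (∑ π : Equiv.Perm (Fin j ⊕ Fin j), ((Equiv.Perm.sign π : ℤ) : ℚ_[l]) *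
              ∏ b, D a b (v (π (Sum.inl b))) (v (π (Sum.inr b)))) * y a w) ∧
    ∀ T : X [⋀^Fin (2 * j + 1)]→ₗ[ℚ_[l]] (W →ₗ[ℚ_[l]] ℚ_[l]), IsTateClass τ σ L i T → T = 0

end

/-- **All Tate classes on all `B ^ n × Z` over all finite extensions of `K` are generated in degree two.**

`V = V_l(B)`, with the action `ρ`, is the Tate module of an abelian variety `B` over `K`, `Z` is a variety over `K`, and `W`, with
the action `σ`, is the dual of `H ^ b (Z)` (`W = ℚ_l` with the trivial action for `Z` a point).  An element of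
`H ^ m (B ^ n) ⊗ H ^ b (Z)`, `H ^ m (B ^ n) = Λ ^ m V_l(B ^ n) ^*`, `V_l(B ^ n) = V_l(B) ^ n`, is an alternating form `T` in `m`
arguments from `X = V ^ n` with values in the dual of `W`; it is a Tate class (of weight `i`) over a finite extension `L` of `K` in
the algebraic closure if it satisfies `IsTateClass`.  The conclusion is `GenOn`, for every `n`. -/
def Generated {K : Type} [Field K] {l : ℕ} [Fact l.Prime] {V : Type} [AddCommGroup V] [Module ℚ_[l] V]
    (ρ : Representation ℚ_[l] (GalK K) V) {W : Type} [AddCommGroup W] [Module ℚ_[l] W]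
    (σ : Representation ℚ_[l] (GalK K) W) : Prop :=
  ∀ n : ℕ, GenOn (fun (s : GalK K) (v : Fin n → V) (t : Fin n) => ρ s (v t)) σ

/-- **Abelian varieties with enough good elements over any field.**

`B` is an abelian variety in projective space over a field `K`, `l` a prime number different from the characteristic, `GalK K`
the absolute Galois group, `V`, with `ι` and the action `ρ`, its Tate module `V_l(B)` (`IsGalMod`), `cyc K l` the cyclotomic
character `χ`; `e` is a non-degenerate alternating form on `V_l(B)` with multiplier `χ` (the Weil pairing of a polarization; `e` is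
arbitrary, and such `B` are not claimed to exist); `W` is any finite-dimensional space with a continuous action `σ` (for
`Generated`: the dual of `H ^ b (Z)`, `Z` a variety over `K`).  It is assumed that there are enough good elements (Frobenius
elements of places) for the actions on `V_l(B)` and `W`, after an embedding of `ℚ_l` in `ℂ` (`TPM.Enough`, `TPM.GoodAt`; over a
field without such elements this hypothesis does not hold).  Then all Tate classes on all `B ^ n × Z` over all finite extensions of
`K` are generated in degree two. -/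
def LitLift : Prop :=
  ∀ (K : Type) [Field K] (N : ℕ) (B : AV K N) (l : ℕ) [Fact l.Prime] [Algebra ℚ_[l] ℂ]
    (V : Type) [AddCommGroup V] [Module ℚ_[l] V] [FiniteDimensional ℚ_[l] V] (ι : (ℕ → B.Pts (AlgebraicClosure K)) → V)
    (ρ : Representation ℚ_[l] (GalK K) V) (e : V →ₗ[ℚ_[l]] V →ₗ[ℚ_[l]] ℚ_[l])
    (W : Type) [AddCommGroup W] [Module ℚ_[l] W] [FiniteDimensional ℚ_[l] W] (σ : Representation ℚ_[l] (GalK K) W),
    (l : K) ≠ 0 → IsGalMod B l ι ρ → IsWeilForm (fun s => ρ s) e →
    (∀ (y : W →ₗ[ℚ_[l]] ℚ_[l]) (w : W), Continuous fun s => y (σ s w)) →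
    TPM.Enough (TPM.GoodAt (repC σ) (charC (cyc K l))) (repC ρ) (charC (cyc K l)) → Generated ρ σ

end Pool.Agent.Lib.MP_021685_agTT
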