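import Pool.Agent.Lib.MP_021685_agTT.GV
import Pool.Agent.Lib.MP_021685_agTT.GD

/-!
The action of the absolute Galois group on the Tate modules of an abelian variety is continuous; subgroups of finite index and
finite extensions.
-/

set_option autoImplicit false

universe u

namespace Pool.Agent.Lib.MP_021685_agTT

open Polynomial TensorProduct Topology Pool.Agent.Lib.MP_17a322_nt.VA

/-- A point over the algebraic closure is fixed by the automorphisms over a finite extension. -/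
theorem exists_stab {K : Type u} [Field K] {N : ℕ} (A : AV K N) (P : A.Pts (AlgebraicClosure K)) :
    ∃ L : IntermediateField K (AlgebraicClosure K), FiniteDimensional K L ∧ ∀ s ∈ L.fixingSubgroup,
      ptsMap A ((s : GalK K) : AlgebraicClosure K →ₐ[K] AlgebraicClosure K) P = P := by
  refine ⟨IntermediateField.adjoin K (Set.range P.1.rep), IntermediateField.finiteDimensional_adjoin fun x _ =>
    (Algebra.IsAlgebraic.isAlgebraic x).isIntegral, fun s hs => ?_⟩
  refine eq_mapPt A.homog ⟨1, one_ne_zero, fun i => ?_⟩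
  rw [one_mul]
  exact (IntermediateField.mem_fixingSubgroup_iff _ _).1 hs _ (IntermediateField.subset_adjoin K _ ⟨i, rfl⟩)

section

variable {l : ℕ} [hl : Fact l.Prime] {M : Type u} [AddCommGroup M]

theorem Tl.exists_of_apply {x : Tl l M} {n : ℕ} (h : (x : ℕ → M) n = 0) :
    ∃ y : Tl l M, x = ((l ^ n : ℕ) : ℤ_[l]) • y := by
  refine ⟨⟨fun m => (x : ℕ → M) (m + n), by
    show (x : ℕ → M) (0 + n) = 0
    rw [zero_add]
    exact h, fun m => ?_⟩, ?_⟩
  · have h1 := Tl.succ' x (m + n)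
    show l • (x : ℕ → M) (m + 1 + n) = (x : ℕ → M) (m + n)
    rw [show m + 1 + n = m + n + 1 by ring]
    exact h1
  · refine Tl.ext' fun m => ?_
    rw [Tl.natCast_smul]
    exact (Tl.pow_smul' x n m).symm

theorem exists_bound [Module.Finite ℤ_[l] (Tl l M)] (f : Tl l M →ₗ[ℤ_[l]] ℚ_[l]) : ∃ C : ℝ, 0 < C ∧ ∀ x, ‖f x‖ ≤ C := by
  obtain ⟨S, hS⟩ := Module.Finite.fg_top (R := ℤ_[l]) (M := Tl l M)
  refine ⟨1 + ∑ g ∈ S, ‖f g‖, by positivity, fun x => ?_⟩
  have hx : x ∈ Submodule.span ℤ_[l] (S : Set (Tl l M)) := by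
    rw [hS]
    exact Submodule.mem_top
  induction hx using Submodule.span_induction with
  | mem g hg =>
    have h1 : ‖f g‖ ≤ ∑ g ∈ S, ‖f g‖ := Finset.single_le_sum (f := fun g => ‖f g‖) (fun _ _ => norm_nonneg _) hg
    linarith
  | zero =>
    rw [map_zero, norm_zero]
    positivity
  | add x y _ _ hx hy =>
    rw [map_add]
    exact (Padic.nonarchimedean _ _).trans (max_le hx hy)
  | smul a x _ hx =>
    rw [map_smul, Algebra.smul_def, norm_mul]
    have h1 : ‖algebraMap ℤ_[l] ℚ_[l] a‖ ≤ 1 := a.2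
    calc _ ≤ 1 * ‖f x‖ := by gcongr
      _ ≤ _ := by rw [one_mul]; exact hx

end

section

variable {K : Type u} [Field K] {N : ℕ} (A : AV K N) (l : ℕ) [hl : Fact l.Prime]

theorem cont_T (f : Tl l (A.Pts (AlgebraicClosure K)) →ₗ[ℤ_[l]] ℚ_[l]) (x : Tl l (A.Pts (AlgebraicClosure K))) :
    Continuous fun s : GalK K =>
      f (Tl.map (ptsMap A (s : AlgebraicClosure K →ₐ[K] AlgebraicClosure K)) x) := by
  have : Module.Finite ℤ_[l] (Tl l (A.Pts (AlgebraicClosure K))) := Tl.finite (tors_finite A l hl.out.pos)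
  obtain ⟨C, hC, hf⟩ := exists_bound f
  refine continuous_iff_continuousAt.2 fun s₀ => Metric.tendsto_nhds.2 fun ε hε => ?_
  obtain ⟨n, hn⟩ : ∃ n : ℕ, (l : ℝ)⁻¹ ^ n < ε / C :=
    exists_pow_lt_of_lt_one (by positivity) (inv_lt_one_of_one_lt₀ (by exact_mod_cast hl.out.one_lt))
  obtain ⟨L, hL, hstab⟩ := exists_stab A ((x : ℕ → A.Pts (AlgebraicClosure K)) n)
  have h1 : {s : GalK K | s₀⁻¹ * s ∈ L.fixingSubgroup} ∈ 𝓝 s₀ := by
    refine IsOpen.mem_nhds ((L.fixingSubgroup_isOpen).preimage (continuous_const_mul s₀⁻¹)) ?_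
    show s₀⁻¹ * s₀ ∈ L.fixingSubgroup
    rw [inv_mul_cancel]
    exact one_mem _
  filter_upwards [h1] with s hs
  have h2 : ((Tl.map (ptsMap A ((s₀⁻¹ * s : GalK K) : AlgebraicClosure K →ₐ[K] AlgebraicClosure K)) x - x :
      Tl l (A.Pts (AlgebraicClosure K))) : ℕ → A.Pts (AlgebraicClosure K)) n = 0 := by
    show ptsMap A ((s₀⁻¹ * s : GalK K) : AlgebraicClosure K →ₐ[K] AlgebraicClosure K)
      ((x : ℕ → A.Pts (AlgebraicClosure K)) n) - (x : ℕ → A.Pts (AlgebraicClosure K)) n = 0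
    rw [hstab _ hs, sub_self]
  obtain ⟨y, hy⟩ := Tl.exists_of_apply h2
  have h3 : Tl.map (ptsMap A (s : AlgebraicClosure K →ₐ[K] AlgebraicClosure K)) x =
      Tl.map (ptsMap A (s₀ : AlgebraicClosure K →ₐ[K] AlgebraicClosure K)) x + ((l ^ n : ℕ) : ℤ_[l]) •
        Tl.map (ptsMap A (s₀ : AlgebraicClosure K →ₐ[K] AlgebraicClosure K)) y := by
    have h4 : s = s₀ * (s₀⁻¹ * s) := by rw [mul_inv_cancel_left]
    have h5 : Tl.map (ptsMap A ((s₀⁻¹ * s : GalK K) : AlgebraicClosure K →ₐ[K] AlgebraicClosure K)) x =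
        x + ((l ^ n : ℕ) : ℤ_[l]) • y := by
      rw [← hy]
      exact (add_sub_cancel _ _).symm
    conv_lhs => rw [h4, ptsMap_mul, Tl.map_comp]
    rw [LinearMap.comp_apply, h5, map_add, map_smul]
  rw [h3, map_add, dist_eq_norm, add_sub_cancel_left, map_smul, Algebra.smul_def, norm_mul]
  have h6 : ‖algebraMap ℤ_[l] ℚ_[l] ((l ^ n : ℕ) : ℤ_[l])‖ = (l : ℝ)⁻¹ ^ n := by
    rw [map_natCast, Nat.cast_pow, norm_pow, Padic.norm_p]
  rw [h6]
  calc _ ≤ (l : ℝ)⁻¹ ^ n * C := by gcongr; exact hf _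
    _ < ε / C * C := by gcongr
    _ = ε := div_mul_cancel₀ _ hC.ne'

end

section

variable {K : Type} [Field K] {N : ℕ} {B : AV K N} {l : ℕ} [hl : Fact l.Prime] {V : Type} [AddCommGroup V] [Module ℚ_[l] V]
  {ι : (ℕ → B.Pts (AlgebraicClosure K)) → V} {ρ : Representation ℚ_[l] (GalK K) V}

theorem cont_V (h : IsGalMod B l ι ρ) (f : V →ₗ[ℚ_[l]] ℚ_[l]) (v : V) : Continuous fun s : GalK K => f (ρ s v) := by
  obtain ⟨hι, hρ⟩ := h
  obtain ⟨k, x, hx, hv⟩ := hι.surj v
  let g : Tl l (B.Pts (AlgebraicClosure K)) →ₗ[ℤ_[l]] ℚ_[l] :=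
    { toFun := fun y => f (ι y)
      map_add' := fun y z => by
        show f (ι fun n => (y : ℕ → B.Pts (AlgebraicClosure K)) n + (z : ℕ → B.Pts (AlgebraicClosure K)) n) = _
        exact (congrArg f (hι.add _ y.2 _ z.2)).trans (map_add f _ _)
      map_smul' := fun a y => by
        show f (ι fun n => a.appr n • (y : ℕ → B.Pts (AlgebraicClosure K)) n) = _
        rw [hι.smul a _ y.2, map_smul]
        rfl }
  let xT : Tl l (B.Pts (AlgebraicClosure K)) := ⟨x, hx⟩
  have hl0 : (l : ℚ_[l]) ^ k ≠ 0 := pow_ne_zero _ (Nat.cast_ne_zero.2 hl.out.ne_zero)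
  have h1 : ∀ s : GalK K, f (ρ s v) = ((l : ℚ_[l]) ^ k)⁻¹ *
      g (Tl.map (ptsMap B (s : AlgebraicClosure K →ₐ[K] AlgebraicClosure K)) xT) := by
    intro s
    have h2 : ρ s (ι x) = ι (Tl.map (ptsMap B (s : AlgebraicClosure K →ₐ[K] AlgebraicClosure K)) xT) :=
      hρ s x _ hx fun n => isImg_mapPt B.homog (s : AlgebraicClosure K →ₐ[K] AlgebraicClosure K) (x n)
    have h3 : f (ρ s (ι x)) = (l : ℚ_[l]) ^ k * f (ρ s v) := by
      rw [← hv, map_smul, map_smul, smul_eq_mul]
    show _ = ((l : ℚ_[l]) ^ k)⁻¹ * f (ι (Tl.map (ptsMap B (s : AlgebraicClosure K →ₐ[K] AlgebraicClosure K)) xT))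
    rw [← h2, h3, inv_mul_cancel_left₀ hl0]
  simp only [h1]
  exact continuous_const.mul (cont_T B l g xT)

end

section

variable {K : Type} [Field K] {l : ℕ} [Fact l.Prime] {V : Type} [AddCommGroup V] [Module ℚ_[l] V] [FiniteDimensional ℚ_[l] V]
  {ρ : Representation ℚ_[l] (GalK K) V}

theorem cont_bil (hρ : ∀ (f : V →ₗ[ℚ_[l]] ℚ_[l]) (v : V), Continuous fun s : GalK K => f (ρ s v))
    (b : V →ₗ[ℚ_[l]] V →ₗ[ℚ_[l]] ℚ_[l]) (v w : V) : Continuous fun s : GalK K => b (ρ s v) (ρ s w) := by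
  let β := Module.finBasis ℚ_[l] V
  have h1 : ∀ x y : V, b x y = ∑ i, β.coord i x * b (β i) y := by
    intro x y
    conv_lhs => rw [← β.sum_repr x]
    rw [map_sum, LinearMap.sum_apply]
    refine Finset.sum_congr rfl fun i _ => ?_
    rw [map_smul, LinearMap.smul_apply, smul_eq_mul]
    rfl
  have h2 : (fun s : GalK K => b (ρ s v) (ρ s w)) =
      fun s => ∑ i, β.coord i (ρ s v) * b (β i) (ρ s w) := funext fun s => h1 _ _
  rw [h2]
  exact continuous_finsetSum _ fun i _ => (hρ (β.coord i) v).mul (hρ (b (β i)) w)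

end

theorem cont_cyc (K : Type u) [Field K] (l : ℕ) [Fact l.Prime] : Continuous (cyc K l) := by
  have h1 : Continuous fun s : GalK K =>
      cyclotomicCharacter (AlgebraicClosure K) l (MulSemiringAction.toRingAut (GalK K) (AlgebraicClosure K) s) :=
    cyclotomicCharacter.continuous l K (AlgebraicClosure K)
  have h2 : Continuous (Units.map (PadicInt.Coe.ringHom (p := l) : ℤ_[l] →* ℚ_[l])) :=
    Continuous.units_map _ continuous_subtype_val
  exact h2.comp h1

theorem cont_cyc_zpow (K : Type u) [Field K] (l : ℕ) [Fact l.Prime] (i : ℤ) :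
    Continuous fun s : GalK K => ((cyc K l s ^ i : ℚ_[l]ˣ) : ℚ_[l]) :=
  Units.continuous_val.comp ((cont_cyc K l).zpow i)

/-- A subgroup of finite index of the absolute Galois group is dense in the group of a finite extension. -/
theorem exists_finite_ext {K : Type u} [Field K] (G' : Subgroup (GalK K)) (h : G'.FiniteIndex) :
    ∃ L : IntermediateField K (AlgebraicClosure K), FiniteDimensional K L ∧
      ∀ s ∈ L.fixingSubgroup, s ∈ closure (G' : Set (GalK K)) := by
  have h1 : G'.topologicalClosure.FiniteIndex := Subgroup.finiteIndex_of_le G'.le_topologicalClosure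
  have h2 : IsOpen (G'.topologicalClosure : Set (GalK K)) :=
    Subgroup.isOpen_of_isClosed_of_finiteIndex _ G'.isClosed_topologicalClosure
  obtain ⟨L, hL, hL'⟩ := (krullTopology_mem_nhds_one_iff K (AlgebraicClosure K) _).1
    (h2.mem_nhds (one_mem G'.topologicalClosure))
  exact ⟨L, hL, fun s hs => hL' hs⟩

/-- The group of a finite extension has finite index. -/
theorem finiteIndex_fixing {K : Type u} [Field K] (L : IntermediateField K (AlgebraicClosure K))
    [FiniteDimensional K L] : L.fixingSubgroup.FiniteIndex := by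
  let f : GalK K → (L →ₐ[K] AlgebraicClosure K) := fun s =>
    (s : AlgebraicClosure K →ₐ[K] AlgebraicClosure K).comp L.val
  have key : ∀ s t, f s = f t → s⁻¹ * t ∈ L.fixingSubgroup := by
    intro s t h
    rw [IntermediateField.mem_fixingSubgroup_iff]
    intro x hx
    have h1 : s x = t x := AlgHom.congr_fun h ⟨x, hx⟩
    show s⁻¹ (t x) = x
    rw [← h1]
    exact AlgEquiv.symm_apply_apply s x
  have : Finite (GalK K ⧸ L.fixingSubgroup) := by
    refine Finite.of_injective (fun q => f q.out) fun q q' h => ?_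
    have h1 := key _ _ h
    rw [← QuotientGroup.eq] at h1
    rwa [QuotientGroup.out_eq', QuotientGroup.out_eq'] at h1
  exact Subgroup.finiteIndex_of_finite_quotient

end Pool.Agent.Lib.MP_021685_agTT
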