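import Pool.Agent.Lib.MP_021685_agTT.LC

/-!
Tate forms on a power of `V`.
-/

set_option autoImplicit false

namespace Pool.Agent.Lib.MP_021685_agTT

open Polynomial TensorProduct

section

variable {k : Type} [Field k] {G : Type} [Group G] {V : Type} [AddCommGroup V] [Module k V] {W : Type} [AddCommGroup W]
  [Module k W]

/-- The action on `V ^ n` given by an action on `V`. -/
noncomputable def repPow (ρ : Representation k G V) (n : ℕ) : Representation k G (Fin n → V) where
  toFun g := (ρ g).compLeft (Fin n)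
  map_one' := by
    rw [map_one]
    rfl
  map_mul' g h := by
    rw [map_mul]
    rfl

theorem repPow_apply (ρ : Representation k G V) (n : ℕ) (g : G) (v : Fin n → V) (i : Fin n) :
    repPow ρ n g v i = ρ g (v i) := rfl

theorem repPow_single (ρ : Representation k G V) (n : ℕ) (g : G) (i : Fin n) (v : V) :
    repPow ρ n g (LinearMap.single k (fun _ : Fin n => V) i v) =
      LinearMap.single k (fun _ : Fin n => V) i (ρ g v) := by
  funext t
  show ρ g ((Pi.single i v : Fin n → V) t) = (Pi.single i (ρ g v) : Fin n → V) t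
  by_cases h : t = i
  · subst h
    rw [Pi.single_eq_same, Pi.single_eq_same]
  · rw [Pi.single_eq_of_ne h, Pi.single_eq_of_ne h, map_zero]

theorem lins_mono (σ : Representation k G W) (χ : G →* kˣ) {G₁ G₂ : Subgroup G} (h : G₁ ≤ G₂) (i : ℤ) :
    lins σ χ G₁ i ⊆ lins σ χ G₂ i := by
  rintro p ⟨g, hg, rfl⟩
  exact ⟨g, h hg, rfl⟩

variable [Algebra k ℂ]

theorem lift_power [Module.Finite k V] [Module.Finite k W] (h : TPM.FullG)
    (ρ : Representation k G V) (σ : Representation k G W)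
    (χ : G →* kˣ) (e : V →ₗ[k] V →ₗ[k] k) (halt : ∀ v, e v v = 0) (hnd : ∀ v, (∀ w, e v w = 0) → v = 0)
    (he : ∀ g v w, e (ρ g v) (ρ g w) = (χ g : k) * e v w)
    (hen : TPM.Enough (TPM.GoodAt (repC σ) (charC χ)) (repC ρ) (charC χ))
    (G' : Subgroup G) (hG' : G'.FiniteIndex) {r n : ℕ} (i : ℤ)
    (T : MultilinearMap k (fun _ : Fin r => Fin n → V) (W →ₗ[k] k))
    (hT : ∀ g ∈ G', ∀ v w, T (fun a => repPow ρ n g (v a)) (σ g w) = ((χ g ^ i : kˣ) : k) * T v w) :
    ∃ G'' : Subgroup G, G''.FiniteIndex ∧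
      T ∈ Submodule.span k {D | ∃ (m : ℕ) (e : Fin m ⊕ Fin m ≃ Fin r),
        IsProdW (pairs (repPow ρ n) χ G'') (lins σ χ G'' (i - m)) e D} := by
  classical
  let Tf : (Fin r → Fin n) → MultilinearMap k (fun _ : Fin r => V) (W →ₗ[k] k) := fun f =>
    T.compLinearMap fun a => LinearMap.single k (fun _ : Fin n => V) (f a)
  have hTf : ∀ f, ∃ G'' : Subgroup G, G''.FiniteIndex ∧
      Tf f ∈ Submodule.span k {D | ∃ (m : ℕ) (e : Fin m ⊕ Fin m ≃ Fin r),
        IsProdW (pairs ρ χ G'') (lins σ χ G'' (i - m)) e D} := by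
    intro f
    refine lift_core h ρ σ χ e halt hnd he hen G' hG' i (Tf f) fun g hg v w => ?_
    show T (fun a => LinearMap.single k (fun _ : Fin n => V) (f a) (ρ g (v a))) (σ g w) =
      ((χ g ^ i : kˣ) : k) * T (fun a => LinearMap.single k (fun _ : Fin n => V) (f a) (v a)) w
    rw [← hT g hg]
    exact congrArg (fun z => T z (σ g w)) (funext fun a => (repPow_single ρ n g (f a) (v a)).symm)
  choose G'' hG'' hspan using hTf
  refine ⟨⨅ f, G'' f, Subgroup.finiteIndex_iInf hG'', ?_⟩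
  let L : (Fin r → Fin n) → MultilinearMap k (fun _ : Fin r => V) (W →ₗ[k] k) →ₗ[k]
      MultilinearMap k (fun _ : Fin r => Fin n → V) (W →ₗ[k] k) := fun f =>
    { toFun := fun D => D.compLinearMap fun a => LinearMap.proj (f a)
      map_add' := fun x y => rfl
      map_smul' := fun c x => rfl }
  have hL : ∀ f D v, L f D v = D fun a => v a (f a) := fun f D v => rfl
  have hsum : T = ∑ f, L f (Tf f) := by
    refine MultilinearMap.ext fun v => ?_
    rw [sum_apply]
    have h1 : v = fun a => ∑ t : Fin n, LinearMap.single k (fun _ : Fin n => V) t (v a t) := by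
      funext a
      exact (Finset.univ_sum_single (v a)).symm
    conv_lhs => rw [h1]
    rw [MultilinearMap.map_sum]
    rfl
  rw [hsum]
  refine Submodule.sum_mem _ fun f _ => ?_
  have h2 : L f (Tf f) ∈ Submodule.map (L f) (Submodule.span k {D | ∃ (m : ℕ) (e : Fin m ⊕ Fin m ≃ Fin r),
      IsProdW (pairs ρ χ (G'' f)) (lins σ χ (G'' f) (i - m)) e D}) := Submodule.mem_map_of_mem (hspan f)
  rw [Submodule.map_span] at h2
  refine Submodule.span_mono ?_ h2
  rintro _ ⟨D, ⟨m, e', b, y, hb, hy, hD⟩, rfl⟩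
  have h3 : ∀ g ∈ ⨅ f, G'' f, g ∈ G'' f := fun g hg => (Subgroup.mem_iInf.1 hg) f
  refine ⟨m, e', fun i => (b i).compl₁₂ (LinearMap.proj (f (e' (Sum.inl i)))) (LinearMap.proj (f (e' (Sum.inr i)))),
    y, ?_, ?_, fun v w => ?_⟩
  · rintro i _ ⟨g, hg, rfl⟩ v w
    exact hb i _ ⟨g, h3 g hg, rfl⟩ (v (f (e' (Sum.inl i)))) (w (f (e' (Sum.inr i))))
  · rintro _ ⟨g, hg, rfl⟩ w
    exact hy _ ⟨g, h3 g hg, rfl⟩ w
  · rw [hL, hD]
    rfl

end

end Pool.Agent.Lib.MP_021685_agTT
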