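import Pool.Agent.Lib.MP_021685_agTT.GD
import Pool.Agent.Lib.MP_021685_agTT.GO
import Pool.Agent.Lib.MP_021685_agTT.LP
import Pool.Agent.Lib.MP_021685_agTT.LR

/-!
Tate classes on products of a power of an abelian variety and another variety, over any field, in terms of Tate modules: the
proof.
-/

set_option autoImplicit false

namespace Pool.Agent.Lib.MP_021685_agTT

open Polynomial TensorProduct Pool.Agent.Lib.MP_17a322_nt.VA

section

variable {K : Type} [Field K] {l : ℕ} [Fact l.Prime] {V : Type} [AddCommGroup V] [Module ℚ_[l] V] [FiniteDimensional ℚ_[l] V]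
  {ρ : Representation ℚ_[l] (GalK K) V}

theorem cont_bil_pow (hρ : ∀ (f : V →ₗ[ℚ_[l]] ℚ_[l]) (v : V), Continuous fun s : GalK K => f (ρ s v))
    {n : ℕ} (D : (Fin n → V) →ₗ[ℚ_[l]] (Fin n → V) →ₗ[ℚ_[l]] ℚ_[l]) (v w : Fin n → V) :
    Continuous fun s : GalK K => D (fun t => ρ s (v t)) (fun t => ρ s (w t)) := by
  classical
  have h1 : ∀ x y : Fin n → V, D x y = ∑ t, ∑ u,
      (D.compl₁₂ (LinearMap.single ℚ_[l] (fun _ : Fin n => V) t)
        (LinearMap.single ℚ_[l] (fun _ : Fin n => V) u)) (x t) (y u) := by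
    intro x y
    have hx : x = ∑ t, LinearMap.single ℚ_[l] (fun _ : Fin n => V) t (x t) := (Finset.univ_sum_single x).symm
    have hy : y = ∑ u, LinearMap.single ℚ_[l] (fun _ : Fin n => V) u (y u) := (Finset.univ_sum_single y).symm
    conv_lhs => rw [hx, hy]
    rw [map_sum, Finset.sum_comm]
    refine Finset.sum_congr rfl fun u _ => ?_
    rw [map_sum, LinearMap.sum_apply]
    rfl
  have h2 : (fun s : GalK K => D (fun t => ρ s (v t)) (fun t => ρ s (w t))) =
      fun s => ∑ t, ∑ u, (D.compl₁₂ (LinearMap.single ℚ_[l] (fun _ : Fin n => V) t)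
        (LinearMap.single ℚ_[l] (fun _ : Fin n => V) u)) (ρ s (v t)) (ρ s (w u)) :=
    funext fun s => h1 _ _
  rw [h2]
  exact continuous_finsetSum _ fun t _ => continuous_finsetSum _ fun u _ => cont_bil hρ _ (v t) (w u)

end

/-- **The literal form of `TPM.FullG`.** -/
theorem lit_lift (h : TPM.FullG) : LitLift := by
  intro K _ N B l _ _ V _ _ _ ι ρ e W _ _ _ σ _ hι he hcont hen n j i L hL
  have hρ : ∀ (f : V →ₗ[ℚ_[l]] ℚ_[l]) (v : V), Continuous fun s : GalK K => f (ρ s v) := cont_V hι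
  obtain ⟨hnd, halt, he⟩ := he
  have he : ∀ (s : GalK K) (v w : V), e (ρ s v) (ρ s w) = (cyc K l s : ℚ_[l]) * e v w := fun s => he s (by
    rw [IntermediateField.fixingSubgroup_bot]
    exact Subgroup.mem_top _)
  have hG : L.fixingSubgroup.FiniteIndex := finiteIndex_fixing L
  refine ⟨fun T hT => ?_, fun T hT => ?_⟩
  · let e0 : Fin j ⊕ Fin j ≃ Fin (2 * j) := finSumFinEquiv.trans (finCongr (two_mul j).symm)
    obtain ⟨G'', hG'', hspan⟩ := lift_power h ρ σ (cyc K l) e halt hnd he hen L.fixingSubgroup hG i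
      (T.toMultilinearMap.domDomCongr e0) fun s hs v w => hT s hs (fun a => v (e0 a)) w
    obtain ⟨r, D, y, hD, hy, hTs⟩ := isSum_of_span _ (fun m => lins σ (cyc K l) G'' (i - m)) T e0 hspan
    obtain ⟨L', hL', hcl⟩ := exists_finite_ext G'' hG''
    refine ⟨L', hL', r, D, y, fun a b => ⟨(hD a b).1, fun s hs v w => ?_⟩, fun a s hs w => ?_, hTs⟩
    · have h1 : IsClosed {s : GalK K | D a b (fun t => ρ s (v t)) (fun t => ρ s (w t)) =
          (cyc K l s : ℚ_[l]) * D a b v w} :=
        isClosed_eq (cont_bil_pow hρ (D a b) v w) ((Units.continuous_val.comp (cont_cyc K l)).mul continuous_const)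
      have h2 : (G'' : Set (GalK K)) ⊆ {s : GalK K | D a b (fun t => ρ s (v t)) (fun t => ρ s (w t)) =
          (cyc K l s : ℚ_[l]) * D a b v w} := fun g hg => (hD a b).2 _ ⟨g, hg, rfl⟩ v w
      exact closure_minimal h2 h1 (hcl s hs)
    · have h1 : IsClosed {s : GalK K | y a (σ s w) = ((cyc K l s ^ (i - j) : ℚ_[l]ˣ) : ℚ_[l]) * y a w} :=
        isClosed_eq (hcont (y a) w) ((cont_cyc_zpow K l (i - j)).mul continuous_const)
      have h2 : (G'' : Set (GalK K)) ⊆ {s : GalK K | y a (σ s w) =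
          ((cyc K l s ^ (i - j) : ℚ_[l]ˣ) : ℚ_[l]) * y a w} := fun g hg => hy a _ ⟨g, hg, rfl⟩ w
      exact closure_minimal h2 h1 (hcl s hs)
  · obtain ⟨G'', hG'', hspan⟩ := lift_power h ρ σ (cyc K l) e halt hnd he hen L.fixingSubgroup hG i
      T.toMultilinearMap fun s hs v w => hT s hs v w
    have h1 := eq_zero_of_span _ (fun m => lins σ (cyc K l) G'' (i - m)) (by omega) _ hspan
    exact AlternatingMap.coe_multilinearMap_injective h1

end Pool.Agent.Lib.MP_021685_agTT
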