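import Pool.Agent.Lib.MP_021685_agTT.GC

/-!
Frobenius elements of a number field, and the cyclotomic character.
-/

set_option autoImplicit false

namespace Pool.Agent.Lib.MP_021685_agTT

open Polynomial NumberField

/-- In a domain in which the prime number `l` is not zero modulo the prime ideal `P`, the roots of unity of order a power of `l`
stay different modulo `P`. -/
theorem modEq_of_pow_mem {S : Type} [CommRing S] [IsDomain S] (P : Ideal S) [P.IsPrime] {l : ℕ} [hl : Fact l.Prime]
    (hlP : (l : S) ∉ P) {n : ℕ} {z : S} (hz : IsPrimitiveRoot z (l ^ n)) {a b : ℕ} (h : z ^ a - z ^ b ∈ P) :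
    a ≡ b [MOD l ^ n] := by
  rcases n with _ | n
  · rw [pow_zero]
    exact Nat.modEq_one
  have h1 : (Ideal.Quotient.mk P z) ^ l ^ (n + 1) = 1 := by
    rw [← map_pow, hz.pow_eq_one, map_one]
  have h2 : ¬ (Ideal.Quotient.mk P z) ^ l ^ n = 1 := by
    intro h2
    have hω : IsPrimitiveRoot (z ^ l ^ n) l := by
      refine hz.pow (pow_pos hl.out.pos _) ?_
      rw [pow_succ]
    have h3 := hω.geom_sum_eq_zero hl.out.one_lt
    have h4 := congrArg (Ideal.Quotient.mk P) h3
    rw [map_sum, map_zero] at h4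
    simp only [map_pow, h2, one_pow] at h4
    rw [Finset.sum_const, Finset.card_range, nsmul_eq_mul, mul_one] at h4
    apply hlP
    rw [← Ideal.Quotient.eq_zero_iff_mem, map_natCast]
    exact h4
  let u : (S ⧸ P)ˣ := Units.ofPowEqOne _ (l ^ (n + 1)) h1 (pow_pos hl.out.pos _).ne'
  have hu : (u : S ⧸ P) = Ideal.Quotient.mk P z := rfl
  have h5 : orderOf u = l ^ (n + 1) := by
    refine orderOf_eq_prime_pow (fun h => h2 ?_) ?_
    · rw [← hu, ← Units.val_pow_eq_pow_val, h, Units.val_one]
    · apply Units.ext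
      rw [Units.val_pow_eq_pow_val, hu, h1, Units.val_one]
  rw [← h5, ← pow_eq_pow_iff_modEq]
  apply Units.ext
  rw [Units.val_pow_eq_pow_val, Units.val_pow_eq_pow_val, hu, ← map_pow, ← map_pow, Ideal.Quotient.eq]
  exact h

/-- **The cyclotomic character at a Frobenius element.** -/
theorem cyc_frob {K : Type} [Field K] [NumberField K] {l : ℕ} [hl : Fact l.Prime] {p : Ideal (𝓞 K)} (hlp : (l : 𝓞 K) ∉ p)
    {φ : GalK K} (h : IsFrobAt p φ) : (cyc K l φ : ℚ_[l]) = Ideal.absNorm p := by
  obtain ⟨P, hP, hover, hfrob⟩ := h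
  have hchar : CharZero (AlgebraicClosure K) :=
    charZero_of_injective_algebraMap (algebraMap K (AlgebraicClosure K)).injective
  have hNZ : ∀ i : ℕ, NeZero ((l ^ i : ℕ) : AlgebraicClosure K) := fun i =>
    ⟨Nat.cast_ne_zero.2 (pow_pos hl.out.pos i).ne'⟩
  have hroots : ∀ i : ℕ, HasEnoughRootsOfUnity (AlgebraicClosure K) (l ^ i) := fun i => inferInstance
  have hlP : (l : integralClosure ℤ (AlgebraicClosure K)) ∉ P := by
    intro h
    exact hlp ((hover (l : 𝓞 K) _ (by simp)).1 h)
  have key : (cyclotomicCharacter (AlgebraicClosure K) l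
      (MulSemiringAction.toRingAut (GalK K) (AlgebraicClosure K) φ)).val = (Ideal.absNorm p : ℤ_[l]) := by
    refine PadicInt.ext_of_toZModPow.1 fun n => ?_
    obtain ⟨ζ, hζ⟩ := (hroots n).prim
    have hint : IsIntegral ℤ ζ := hζ.isIntegral (pow_pos hl.out.pos n)
    let z : integralClosure ℤ (AlgebraicClosure K) := ⟨ζ, hint⟩
    have hz : IsPrimitiveRoot z (l ^ n) :=
      IsPrimitiveRoot.of_map_of_injective (f := (integralClosure ℤ (AlgebraicClosure K)).val) hζ Subtype.val_injective
    have h1 := cyclotomicCharacter.spec l (n := n)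
      (MulSemiringAction.toRingAut (GalK K) (AlgebraicClosure K) φ) ζ hζ.pow_eq_one
    set m := (PadicInt.toZModPow n (cyclotomicCharacter (AlgebraicClosure K) l
      (MulSemiringAction.toRingAut (GalK K) (AlgebraicClosure K) φ)).val).val with hm
    have h2 : φ ζ = ζ ^ m := h1
    have h3 : z ^ m - z ^ Ideal.absNorm p ∈ P := by
      refine hfrob z _ ?_
      rw [AddSubgroupClass.coe_sub, SubmonoidClass.coe_pow, SubmonoidClass.coe_pow]
      show ζ ^ m - ζ ^ Ideal.absNorm p = φ ζ - ζ ^ Ideal.absNorm p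
      rw [h2]
    have h4 := modEq_of_pow_mem P hlP hz h3
    have : NeZero (l ^ n) := ⟨(pow_pos hl.out.pos n).ne'⟩
    rw [map_natCast, ← (ZMod.natCast_eq_natCast_iff _ _ _).2 h4, hm, ZMod.natCast_zmod_val]
  show ((cyclotomicCharacter (AlgebraicClosure K) l
      (MulSemiringAction.toRingAut (GalK K) (AlgebraicClosure K) φ)).val : ℚ_[l]) = _
  rw [key]
  rfl

end Pool.Agent.Lib.MP_021685_agTT
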