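import Pool.Agent.Lib.MP_021685_agTT.PD
import Pool.Agent.Lib.MP_021685_agTT.GL
import Pool.Agent.Lib.MP_021685_agTT.FP

/-!
Tate classes on products of a power of an abelian variety and another variety over a number field: the proof.
-/

set_option autoImplicit false

namespace Pool.Agent.Lib.MP_021685_agTT

open Polynomial NumberField TensorProduct Pool.Agent.Lib.MP_17a322_nt.VA

theorem goodAt_of_place {K : Type} [Field K] [NumberField K] {l : ℕ} [Fact l.Prime]
    [Algebra ℚ_[l] ℂ] {W : Type} [AddCommGroup W]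
    [Module ℚ_[l] W] [FiniteDimensional ℚ_[l] W] {σ : Representation ℚ_[l] (GalK K) W} {φ : GalK K} {P : ℤ[X]}
    {S : ℂ → Prop} (h : GoodPlace l σ φ P S) : TPM.GoodAt (repC σ) (charC (cyc K l)) φ P S := by
  obtain ⟨p, f, -, -, hlp, hφ, hg, hf, hz⟩ := h
  refine ⟨Ideal.absNorm p, hg, ?_, fun y hy => hz y ?_⟩
  · rw [charC_apply, cyc_frob hlp hφ, map_natCast]
  · have h1 : (repC σ φ).charpoly = f.map (Int.castRingHom ℂ) := by
      show ((σ φ).baseChange ℂ).charpoly = _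
      rw [LinearMap.charpoly_baseChange, hf, Polynomial.map_map]
      exact congrArg (fun g : ℤ →+* ℂ => f.map g) (RingHom.ext_int _ _)
    have h2 := (Module.End.hasEigenvalue_iff_isRoot_charpoly (repC σ φ) y).1 hy
    rw [h1, IsRoot.def, eval_map] at h2
    exact h2

theorem enough_mono {G H : Type} [Group G] [AddCommGroup H] [Module ℂ H] [FiniteDimensional ℂ H]
    {R R' : G → ℤ[X] → (ℂ → Prop) → Prop} (hR : ∀ φ P S, R φ P S → R' φ P S) (ρ : Representation ℂ G H) (μ : G →* ℂˣ)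
    (h : TPM.Enough R ρ μ) : TPM.Enough R' ρ μ := by
  have hown : ∀ U : Submodule ℂ H, TPM.Own R ρ μ U → TPM.Own R' ρ μ U := by
    rintro U ⟨φ, P, S, V, z, h1, h2⟩
    exact ⟨φ, P, S, V, z, hR _ _ _ h1, h2⟩
  rcases h with ⟨φ, P, S, h1, h2⟩ | ⟨h1, h2, h3⟩
  · exact Or.inl ⟨φ, P, S, hR _ _ _ h1, h2⟩
  · refine Or.inr ⟨h1, fun U hU => (h2 U hU).imp_right (hown U), ?_⟩
    rcases h3 with h3 | ⟨φ, P, S, h4, h5⟩
    · exact Or.inl fun U hU => hown U (h3 U hU)
    · exact Or.inr ⟨φ, P, S, hR _ _ _ h4, h5⟩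

/-- **The literal form of `TPM.FullG` over number fields.** -/
theorem lit_place (h : TPM.FullG) : LitPlace := by
  intro K _ _ N B l hl V _ _ _ ι ρ e W _ _ _ σ hι he hcont
  have hK : (l : K) ≠ 0 := Nat.cast_ne_zero.2 hl.out.ne_zero
  refine ⟨fun φ P S hg hchar => ?_, ?_⟩
  · obtain ⟨emb⟩ := exists_embedding l
    let _ : Algebra ℚ_[l] ℂ := emb.toAlgebra
    refine lit_lift h K N B l V ι ρ e W σ hK hι he hcont (Or.inl ⟨φ, P, S, goodAt_of_place hg, ?_⟩)
    show ((ρ φ).baseChange ℂ).charpoly = _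
    rw [LinearMap.charpoly_baseChange, hchar, Polynomial.map_map]
    exact congrArg (fun g : ℤ →+* ℂ => P.map g) (RingHom.ext_int _ _)
  · intro _ hen
    exact lit_lift h K N B l V ι ρ e W σ hK hι he hcont (enough_mono (fun φ P S => goodAt_of_place) _ _ hen)

end Pool.Agent.Lib.MP_021685_agTT
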