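import Pool.Agent.Lib.MP_021685_agTT.TT

/-!
The Tate module of an abelian group with finite `l`-torsion is finitely generated.
-/

universe u v w

namespace Pool.Agent.Lib.MP_021685_agTT

variable {l : ℕ} [hl : Fact l.Prime] {M : Type u} [AddCommGroup M]

theorem Tl.exists_of_one {x : Tl l M} (h : (x : ℕ → M) 1 = 0) :
    ∃ y : Tl l M, x = (l : ℤ_[l]) • y := by
  refine ⟨⟨fun n => (x : ℕ → M) (n + 1), h, fun n => Tl.succ' x (n + 1)⟩, ?_⟩
  refine Tl.ext' fun n => ?_
  rw [Tl.natCast_smul]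
  exact (Tl.succ' x n).symm

theorem padic_limit (f : ℕ → ℤ_[l]) (hf : ∀ n, ∃ w, f (n + 1) = f n + (l : ℤ_[l]) ^ n * w) :
    ∃ L, ∀ n, ∃ w, f n = L + (l : ℤ_[l]) ^ n * w := by
  have hc : ∀ m k, ∃ w, f (m + k) = f m + (l : ℤ_[l]) ^ m * w := by
    intro m k
    induction k with
    | zero => exact ⟨0, by simp⟩
    | succ k ih =>
      obtain ⟨w, hw⟩ := ih
      obtain ⟨w', hw'⟩ := hf (m + k)
      refine ⟨w + (l : ℤ_[l]) ^ k * w', ?_⟩
      rw [← add_assoc, hw', hw, pow_add]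
      ring
  have hmem : ∀ (n : ℕ) (a b : ℤ_[l]), a ≡ b [SMOD ((IsLocalRing.maximalIdeal ℤ_[l]) ^ n • ⊤ :
      Submodule ℤ_[l] ℤ_[l])] ↔ ∃ w, a = b + (l : ℤ_[l]) ^ n * w := by
    intro n a b
    rw [SModEq.sub_mem, smul_eq_mul, Ideal.mul_top, PadicInt.maximalIdeal_eq_span_p,
      Ideal.span_singleton_pow, Ideal.mem_span_singleton]
    constructor
    · rintro ⟨w, hw⟩
      exact ⟨w, by rw [← hw]; ring⟩
    · rintro ⟨w, hw⟩
      exact ⟨w, by rw [hw]; ring⟩
  obtain ⟨L, hL⟩ := IsPrecomplete.prec (I := IsLocalRing.maximalIdeal ℤ_[l]) (M := ℤ_[l])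
    inferInstance (f := f) (by
      intro m n hmn
      obtain ⟨k, rfl⟩ := Nat.exists_eq_add_of_le hmn
      obtain ⟨w, hw⟩ := hc m k
      rw [hmem]
      exact ⟨-w, by rw [hw]; ring⟩)
  exact ⟨L, fun n => (hmem n _ _).1 (hL n)⟩

theorem Tl.finite (h : {m : M | l • m = 0}.Finite) : Module.Finite ℤ_[l] (Tl l M) := by
  classical
  haveI : Fintype {m : M | l • m = 0} := h.fintype
  have hone : ∀ x : Tl l M, (x : ℕ → M) 1 ∈ {m : M | l • m = 0} := fun x => by
    have := Tl.tor x 1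
    rwa [pow_one] at this
  let b : {m : M | l • m = 0} → Tl l M := fun m =>
    if hm : ∃ x : Tl l M, (x : ℕ → M) 1 = m then hm.choose else 0
  have hb : ∀ x : Tl l M, ((b ⟨_, hone x⟩ : Tl l M) : ℕ → M) 1 = (x : ℕ → M) 1 := by
    intro x
    have hm : ∃ y : Tl l M, (y : ℕ → M) 1 = (x : ℕ → M) 1 := ⟨x, rfl⟩
    simp only [b]
    rw [dif_pos hm]
    exact hm.choose_spec
  have hz : ∀ x : Tl l M, ∃ y : Tl l M, x = b ⟨_, hone x⟩ + (l : ℤ_[l]) • y := by
    intro x
    obtain ⟨y, hy⟩ := Tl.exists_of_one (x := x - b ⟨_, hone x⟩) (by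
      change (x : ℕ → M) 1 - ((b ⟨_, hone x⟩ : Tl l M) : ℕ → M) 1 = 0
      rw [hb, sub_self])
    exact ⟨y, by rw [← hy, add_sub_cancel]⟩
  choose z hz using hz
  refine ⟨⟨Finset.univ.image b, ?_⟩⟩
  rw [eq_top_iff]
  intro x _
  let y : ℕ → Tl l M := fun k => z^[k] x
  have hy0 : y 0 = x := rfl
  have hys : ∀ k, y (k + 1) = z (y k) := fun k => Function.iterate_succ_apply' z k x
  let f : {m : M | l • m = 0} → ℕ → ℤ_[l] := fun m n =>
    ∑ k ∈ Finset.range n, if (⟨_, hone (y k)⟩ : {m : M | l • m = 0}) = m then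
      (l : ℤ_[l]) ^ k else 0
  have hf : ∀ m n, ∃ w, f m (n + 1) = f m n + (l : ℤ_[l]) ^ n * w := by
    intro m n
    refine ⟨if (⟨_, hone (y n)⟩ : {m : M | l • m = 0}) = m then 1 else 0, ?_⟩
    simp only [f, Finset.sum_range_succ]
    split_ifs <;> simp
  choose L hL using fun m => padic_limit (f m) (hf m)
  have hsum : ∀ n, x = ∑ m, f m n • b m + ((l : ℤ_[l]) ^ n) • y n := by
    intro n
    induction n with
    | zero => simp [f, hy0]
    | succ n ih =>
      have h1 : ∑ m, f m (n + 1) • b m = ∑ m, f m n • b m +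
          ((l : ℤ_[l]) ^ n) • b ⟨_, hone (y n)⟩ := by
        simp only [f, Finset.sum_range_succ, add_smul, Finset.sum_add_distrib]
        congr 1
        rw [Finset.sum_eq_single (⟨_, hone (y n)⟩ : {m : M | l • m = 0})]
        · simp
        · intro m _ hm
          rw [if_neg (Ne.symm hm), zero_smul]
        · intro hm
          exact absurd (Finset.mem_univ _) hm
      rw [h1, hys, pow_succ, mul_smul, add_assoc, ← smul_add, ← hz (y n)]
      exact ih
  have hx : x = ∑ m, L m • b m := by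
    rw [← sub_eq_zero]
    refine Tl.ext' fun n => ?_
    have h2 : ∃ v : Tl l M, x - ∑ m, L m • b m = ((l : ℤ_[l]) ^ n) • v := by
      choose w hw using fun m => hL m n
      refine ⟨∑ m, w m • b m + y n, ?_⟩
      conv_lhs => rw [hsum n]
      simp only [hw, add_smul, Finset.sum_add_distrib, smul_add, Finset.smul_sum, mul_smul]
      abel
    obtain ⟨v, hv⟩ := h2
    rw [hv, ← Nat.cast_pow, Tl.natCast_smul, Tl.tor]
    rfl
  rw [hx]
  refine Submodule.sum_mem _ fun m _ => Submodule.smul_mem _ _ (Submodule.subset_span ?_)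
  simp only [Finset.coe_image, Finset.coe_univ, Set.image_univ]
  exact ⟨m, rfl⟩

/-- The rational Tate module of an abelian group with finite `l`-torsion is finite-dimensional. -/
theorem Vl.finite (h : {m : M | l • m = 0}.Finite) : Module.Finite ℚ_[l] (Vl l M) :=
  haveI := Tl.finite h
  inferInstance

end Pool.Agent.Lib.MP_021685_agTT
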