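import Mathlib
import Pool.Agent.Lib.MP_17a322_nt.VA.A2
import Pool.Agent.Lib.MP_17a322_nt.VA.A3b

/-!
The torsion points of an abelian variety over an algebraically closed field: there are finitely many of each order.
-/

set_option autoImplicit false

universe u v w

namespace Pool.Agent.Lib.MP_021685_agTT

open MvPolynomial
open Pool.Agent.Lib.MP_17a322_nt.VA

/-! ### Constants -/

theorem mem_range_of_isIntegral {F : Type v} [Field F] [IsAlgClosed F] {Ω : Type w} [Field Ω] [Algebra F Ω]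
    (z : Ω) (h : IsIntegral F z) : ∃ a : F, algebraMap F Ω a = z := by
  have h1 : (minpoly F z).degree = 1 :=
    IsAlgClosed.degree_eq_one_of_irreducible F (minpoly.irreducible h)
  exact minpoly.mem_range_of_degree_eq_one F z h1

theorem isIntegral_of_range {F : Type v} [Field F] {Ω : Type w} [Field Ω] [Algebra F Ω]
    (z : Ω) (h : IsIntegral (algebraMap F Ω).range z) : IsIntegral F z := by
  obtain ⟨p, hp, hz⟩ := h
  have hsurj : Function.Surjective (algebraMap F Ω).rangeRestrict := (algebraMap F Ω).rangeRestrict_surjective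
  have hl : p ∈ Polynomial.lifts (algebraMap F Ω).rangeRestrict := by
    rw [Polynomial.lifts_iff_coeff_lifts]
    intro n
    exact hsurj (p.coeff n)
  obtain ⟨q, hq, -, hqm⟩ := Polynomial.lifts_and_natDegree_eq_and_monic hl hp
  refine ⟨q, hqm, ?_⟩
  rw [← hq, Polynomial.eval₂_map] at hz
  exact hz

/-- An element of all the valuation rings over the algebraically closed field `F` is in `F`. -/
theorem mem_range_of_valuationSubring {F : Type v} [Field F] [IsAlgClosed F] {Ω : Type w} [Field Ω]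
    [Algebra F Ω] (z : Ω)
    (h : ∀ V : ValuationSubring Ω, (∀ a : F, algebraMap F Ω a ∈ V) → z ∈ V) :
    ∃ a : F, algebraMap F Ω a = z := by
  by_contra hz
  have hz' : z ∉ (algebraMap F Ω).range := fun ⟨a, ha⟩ => hz ⟨a, ha⟩
  have hcl : IsIntegrallyClosedIn (algebraMap F Ω).range Ω := by
    rw [Subring.isIntegrallyClosedIn_iff]
    intro x hx
    obtain ⟨a, ha⟩ := mem_range_of_isIntegral x (isIntegral_of_range x hx)
    exact ⟨a, ha⟩
  obtain ⟨V, hV, hzV⟩ := Subring.exists_le_valuationSubring_of_isIntegrallyClosedIn hz'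
  exact hzV (h V fun a => hV ⟨a, rfl⟩)

/-! ### Rigidity -/

theorem aeval_mem_val {K : Type v} {Ω : Type w} [Field K] [Field Ω] [Algebra K Ω] (V : ValuationSubring Ω)
    (hK : ∀ a : K, algebraMap K Ω a ∈ V) {σ : Type*} (x : σ → Ω) (hx : ∀ i, x i ∈ V)
    (f : MvPolynomial σ K) : aeval x f ∈ V := by
  induction f using MvPolynomial.induction_on with
  | C a => rw [aeval_C]; exact hK a
  | add p q hp hq => rw [map_add]; exact V.add_mem _ _ hp hq
  | mul_X p i hp => rw [map_mul, aeval_X]; exact V.mul_mem _ _ hp (hx i)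

variable {K : Type u} [Field K] {N : ℕ} (A : AV K N)

theorem mu_ne {L : Type u} [Field L] [Algebra K L] {y : Fin (N + 1) → L} (hy : y ≠ 0) (hp : A.IsPt y) (j : ℕ) :
    ∃ a, A.mu j y a ≠ 0 := by
  obtain ⟨P, hP⟩ := A.exists_rep hy hp
  have h := (hP.mu j).ne_zero
  exact Function.ne_iff.mp h

/-- On normalized coordinates of a point, one of the values of the forms of the multiplication by `2 ^ j` is a
unit. -/
theorem exists_mu_unit {Ω : Type u} [Field Ω] [Algebra K Ω] (V : ValuationSubring Ω)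
    (hK : ∀ a : K, algebraMap K Ω a ∈ V) (j : ℕ) {x : Fin (N + 1) → Ω} (hx : ∀ i, x i ∈ V)
    (hp : A.IsPt x) (i₀ : Fin (N + 1)) (h1 : x i₀ = 1) :
    ∃ t, 1 ≤ V.valuation (A.mu j x t) := by
  obtain ⟨M, R, hR⟩ := nullst_fun.{u, u} (A.I : Set (MvPolynomial (Fin (N + 1)) K)) (A.muP j) (X i₀) (by
    intro L _ _ y hy hF
    rw [aeval_X]
    by_contra hne
    have hy0 : y ≠ 0 := fun h => hne (by rw [h]; rfl)
    obtain ⟨a, ha⟩ := mu_ne A hy0 hy j
    rw [← A.aeval_muP] at ha
    exact ha (hF a))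
  have h2 := hR Ω x hp
  rw [aeval_X, h1, one_pow, finsum_eq_sum_of_fintype] at h2
  by_contra hcon
  push Not at hcon
  have h3 : V.valuation (∑ i, aeval x (R i) * aeval x (A.muP j i)) < 1 := by
    refine Valuation.map_sum_lt _ one_ne_zero fun i _ => ?_
    rw [map_mul, A.aeval_muP]
    have h4 : V.valuation (aeval x (R i)) ≤ 1 :=
      (V.valuation_le_one_iff _).2 (aeval_mem_val V hK x hx (R i))
    exact lt_of_le_of_lt (mul_le_of_le_one_left' h4) (hcon i)
  rw [← h2, map_one] at h3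
  exact lt_irrefl _ h3

/-- A point `y` with `2 ^ j y` given by forms of smaller degree than `4 ^ j` is constant. -/
theorem rigid {F : Type u} [Field F] [IsAlgClosed F] [Algebra K F] {Ω : Type u} [Field Ω] [Algebra K Ω]
    [Algebra F Ω] [IsScalarTower K F Ω] (j e : ℕ) (he : e < 4 ^ j) (y m : Fin (N + 1) → Ω) (c : Ω)
    (hy : y ≠ 0) (hp : A.IsPt y) (hm : ∀ a, A.mu j y a = c * m a)
    (hv : ∀ V : ValuationSubring Ω, (∀ a : F, algebraMap F Ω a ∈ V) → ∀ s : Ω,
      (∀ i, V.valuation (y i) ≤ V.valuation s) → ∀ a, V.valuation (m a) ≤ V.valuation s ^ e) :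
    ∃ (x : Fin (N + 1) → F) (s : Ω), s ≠ 0 ∧ ∀ i, y i = s * algebraMap F Ω (x i) := by
  have hc : c ≠ 0 := by
    intro h0
    obtain ⟨a, ha⟩ := mu_ne A hy hp j
    rw [hm, h0, zero_mul] at ha
    exact ha rfl
  obtain ⟨d, hd⟩ : ∃ d, 4 ^ j = e + (d + 1) := ⟨4 ^ j - e - 1, by omega⟩
  have key : ∀ i, ∃ g : F, algebraMap F Ω g = y i ^ (d + 1) / c := by
    intro i
    refine mem_range_of_valuationSubring _ fun V hV => ?_
    have hK : ∀ a : K, algebraMap K Ω a ∈ V := fun a => by
      rw [IsScalarTower.algebraMap_apply K F Ω]; exact hV _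
    obtain ⟨i₀, hi₀⟩ := Finite.exists_max fun i => V.valuation (y i)
    have hne : y i₀ ≠ 0 := by
      intro h0
      apply hy
      funext i
      have h1 := hi₀ i
      rw [h0, map_zero] at h1
      exact (map_eq_zero V.valuation).1 (le_antisymm h1 zero_le)
    have hne' : V.valuation (y i₀) ≠ 0 := (map_ne_zero V.valuation).2 hne
    have hx : ∀ i, (y i₀)⁻¹ * y i ∈ V := by
      intro i
      rw [← V.valuation_le_one_iff, map_mul, map_inv₀]
      calc (V.valuation (y i₀))⁻¹ * V.valuation (y i) ≤ (V.valuation (y i₀))⁻¹ * V.valuation (y i₀) :=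
            mul_le_mul_right (hi₀ i) _
        _ = 1 := inv_mul_cancel₀ hne'
    have hpx : A.IsPt fun i => (y i₀)⁻¹ * y i := hp.smul _
    obtain ⟨t, ht⟩ := exists_mu_unit A V hK j hx hpx i₀ (inv_mul_cancel₀ hne)
    rw [A.mu_smul, hm, map_mul, map_mul, map_pow, map_inv₀] at ht
    have h2 : V.valuation (m t) ≤ V.valuation (y i₀) ^ e := hv V hV (y i₀) hi₀ t
    have h3 : 1 ≤ (V.valuation (y i₀))⁻¹ ^ 4 ^ j * (V.valuation c * V.valuation (y i₀) ^ e) :=
      ht.trans (mul_le_mul_right (mul_le_mul_right h2 _) _)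
    have h4 : V.valuation (y i₀) ^ (d + 1) ≤ V.valuation c := by
      have h5 := mul_le_mul_left h3 (V.valuation (y i₀) ^ (d + 1))
      rw [one_mul, hd] at h5
      refine h5.trans (le_of_eq ?_)
      rw [inv_pow, pow_add]
      have h6 : V.valuation (y i₀) ^ e ≠ 0 := pow_ne_zero _ hne'
      have h7 : V.valuation (y i₀) ^ (d + 1) ≠ 0 := pow_ne_zero _ hne'
      field_simp
    rw [← V.valuation_le_one_iff, map_div₀, map_pow]
    have h8 : V.valuation (y i) ^ (d + 1) ≤ V.valuation c := (pow_le_pow_left' (hi₀ i) _).trans h4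
    exact div_le_one_of_le₀ h8 zero_le
  obtain ⟨i₁, hi₁⟩ := Function.ne_iff.mp hy
  rw [Pi.zero_apply] at hi₁
  have hint : ∀ i, ∃ a : F, algebraMap F Ω a = y i / y i₁ := by
    intro i
    apply mem_range_of_isIntegral
    apply IsIntegral.of_pow (Nat.succ_pos d)
    obtain ⟨g, hg⟩ := key i
    obtain ⟨g', hg'⟩ := key i₁
    have h1 : (y i / y i₁) ^ (d + 1) = algebraMap F Ω (g / g') := by
      rw [map_div₀, hg, hg', div_pow]
      field_simp
    rw [h1]
    exact isIntegral_algebraMap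
  choose x hx using hint
  refine ⟨x, y i₁, hi₁, fun i => ?_⟩
  rw [hx]
  field_simp

/-! ### Compactness -/

/-- The ultrapower of a field. -/
theorem exists_ultra (F : Type u) [Field F] : ∃ (Ω : Type u) (_ : Field Ω) (ρ : (ℕ → F) →+* Ω) (φ : Filter ℕ),
    φ.NeBot ∧ Function.Surjective ρ ∧ (∀ f g : ℕ → F, ρ f = ρ g ↔ ∀ᶠ n in φ, f n = g n) ∧
      ∀ n, ∀ᶠ k in φ, k ≠ n := by
  refine ⟨Filter.Germ (Filter.hyperfilter ℕ : Filter ℕ) F, Filter.Germ.instField,
    Filter.Germ.coeRingHom _, (Filter.hyperfilter ℕ : Filter ℕ), inferInstance, ?_,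
    fun f g => Filter.Germ.coe_eq, ?_⟩
  · intro s
    induction s using Filter.Germ.inductionOn with
    | _ s' => exact ⟨s', rfl⟩
  · intro n
    have h6 : ({n}ᶜ : Set ℕ) ∈ (Filter.hyperfilter ℕ : Filter ℕ) :=
      Filter.compl_mem_hyperfilter_of_finite (Set.finite_singleton n)
    exact h6

/-- A sequence of points `P n` over the algebraically closed field `F` with `2 ^ j (P n)` proportional to vectors
`m n` of smaller degree is not injective. -/
theorem not_injective {F : Type u} [Field F] [IsAlgClosed F] [Algebra K F] (j e : ℕ) (he : e < 4 ^ j)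
    (P : ℕ → A.Pts F) (c : ℕ → F) (m : Fin (N + 1) → ℕ → F)
    (hm : ∀ n a, A.mu j (A.x (P n)) a = c n * m a n)
    (hv : (∀ a n, m a n = A.x (P n) a ∧ e = 1) ∨ (e = 0 ∧ ∀ a, ∃ b : F, ∀ n, m a n = b)) :
    ¬ Function.Injective P := by
  intro hinj
  obtain ⟨Ω, fΩ, ρ₀, φ, hφ, hsurj, hρ₀, hcof⟩ := exists_ultra F
  let algF : Algebra F Ω := (ρ₀.comp (Pi.constRingHom ℕ F)).toAlgebra
  let algK : Algebra K Ω := ((algebraMap F Ω).comp (algebraMap K F)).toAlgebra
  have : IsScalarTower K F Ω := IsScalarTower.of_algebraMap_eq fun _ => rfl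
  let ρ : (ℕ → F) →ₐ[K] Ω := { ρ₀ with commutes' := fun a => rfl }
  have hρ : ∀ f g : ℕ → F, ρ f = ρ g ↔ ∀ᶠ n in φ, f n = g n := hρ₀
  have hconst : ∀ a : F, algebraMap F Ω a = ρ (fun _ => a) := fun a => rfl
  let Y : Fin (N + 1) → (ℕ → F) := fun i n => A.x (P n) i
  have hYp : A.IsPt Y := by
    intro f hf
    funext n
    have h1 : (Pi.evalAlgHom K (fun _ : ℕ => F) n) (aeval Y f) = aeval (A.x (P n)) f := by
      rw [← AlgHom.comp_apply, MvPolynomial.comp_aeval]
      rfl
    exact h1.trans (A.x_isPt (P n) f hf)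
  have hYm : ∀ a, A.mu j Y a = c * m a := by
    intro a
    funext n
    have h1 := A.map_mu (Pi.evalAlgHom K (fun _ : ℕ => F) n) j Y a
    exact h1.trans (hm n a)
  have hy0 : (fun i => ρ (Y i)) ≠ 0 := by
    intro h0
    have h1 : ∀ i, ∀ᶠ n in φ, A.x (P n) i = 0 := by
      intro i
      have h2 : ρ (Y i) = ρ (fun _ => 0) := (congrFun h0 i).trans (map_zero ρ).symm
      exact (hρ _ _).1 h2
    have h3 : ∀ᶠ n in φ, ∀ i, A.x (P n) i = 0 := Filter.eventually_all.2 h1
    obtain ⟨n, hn⟩ := h3.exists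
    exact A.x_ne (P n) (funext hn)
  obtain ⟨x, s, hs, hx⟩ := rigid A (F := F) j e he (fun i => ρ (Y i)) (fun a => ρ (m a)) (ρ c) hy0
    (hYp.map ρ) (fun a => by rw [← A.map_mu, hYm, map_mul]) (by
      intro V hV t ht a
      rcases hv with h1 | ⟨h1, h2⟩
      · have h3 : m a = Y a := funext fun n => (h1 a n).1
        rw [h3, (h1 a 0).2, pow_one]
        exact ht a
      · obtain ⟨b, hb⟩ := h2 a
        have h3 : m a = fun _ => b := funext hb
        rw [h3, h1, pow_zero, V.valuation_le_one_iff, ← hconst]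
        exact hV b)
  obtain ⟨s', rfl⟩ : ∃ s' : ℕ → F, ρ s' = s := hsurj s
  have h4 : ∀ᶠ n in φ, ∀ i, A.x (P n) i = s' n * x i := by
    refine Filter.eventually_all.2 fun i => ?_
    refine (hρ (Y i) (s' * fun _ => x i)).1 ?_
    rw [map_mul, ← hconst]
    exact hx i
  obtain ⟨n, hn⟩ := h4.exists
  have h5 : ∀ᶠ k in φ, k ≠ n := hcof n
  obtain ⟨k, hk, hkn⟩ := (h4.and h5).exists
  apply hkn
  apply hinj
  have hsn : ∀ k, (∀ i, A.x (P k) i = s' k * x i) → s' k ≠ 0 := by
    intro k hk h0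
    refine A.x_ne (P k) (funext fun i => ?_)
    rw [hk i, h0, zero_mul]
    rfl
  have hn0 := hsn n hn
  refine (AV.Rep.self (P k)).unique ?_
  refine ⟨s' k / s' n, div_ne_zero (hsn k hk) hn0, fun i => ?_⟩
  rw [hk i, hn i]
  field_simp

/-- The points of order `2` over an algebraically closed field. -/
theorem two_finite {F : Type u} [Field F] [IsAlgClosed F] [Algebra K F] :
    {P : A.Pts F | 2 • P = 0}.Finite := by
  by_contra hinf
  let P := Set.Infinite.natEmbedding _ hinf
  have hP : ∀ n, 2 • (P n : A.Pts F) = 0 := fun n => (P n).2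
  have h1 : ∀ n, ∃ c : F, ∀ a, A.mu 1 (A.x (P n : A.Pts F)) a = c * A.x (0 : A.Pts F) a := by
    intro n
    have h2 := (AV.Rep.self (P n : A.Pts F)).mu 1
    rw [pow_one, hP n] at h2
    obtain ⟨c, -, hc⟩ := h2
    exact ⟨c, hc⟩
  choose c hc using h1
  refine not_injective A 1 0 (by norm_num) (fun n => (P n : A.Pts F)) c (fun a _ => A.x (0 : A.Pts F) a)
    (fun n a => hc n a) (Or.inr ⟨rfl, fun a => ⟨_, fun _ => rfl⟩⟩) ?_
  exact Subtype.val_injective.comp P.injective

/-- The points of odd order `n` over an algebraically closed field. -/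
theorem odd_finite {F : Type u} [Field F] [IsAlgClosed F] [Algebra K F] (n : ℕ) (hn : Nat.Coprime 2 n)
    (hn1 : 0 < n) : {P : A.Pts F | n • P = 0}.Finite := by
  by_contra hinf
  let P := Set.Infinite.natEmbedding _ hinf
  have hP : ∀ k, n • (P k : A.Pts F) = 0 := fun k => (P k).2
  have h0 : 2 ^ n.totient ≡ 1 [MOD n] := Nat.ModEq.pow_totient hn
  obtain ⟨t, ht⟩ : ∃ t, 2 ^ n.totient = 1 + n * t := by
    have h1 : n ∣ 2 ^ n.totient - 1 := (Nat.modEq_iff_dvd' Nat.one_le_two_pow).1 h0.symm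
    obtain ⟨t, ht⟩ := h1
    exact ⟨t, by have := Nat.one_le_two_pow (n := n.totient); omega⟩
  have h1 : ∀ k, ∃ c : F, ∀ a, A.mu n.totient (A.x (P k : A.Pts F)) a = c * A.x (P k : A.Pts F) a := by
    intro k
    have h2 := (AV.Rep.self (P k : A.Pts F)).mu n.totient
    rw [ht, add_nsmul, one_nsmul, mul_comm, mul_nsmul', hP k, nsmul_zero, add_zero] at h2
    obtain ⟨c, -, hc⟩ := h2
    exact ⟨c, hc⟩
  choose c hc using h1
  refine not_injective A n.totient 1 ?_ (fun n => (P n : A.Pts F)) c (fun a k => A.x (P k : A.Pts F) a)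
    (fun k a => hc k a) (Or.inl fun a k => ⟨rfl, rfl⟩) ?_
  · have : 0 < n.totient := Nat.totient_pos.2 hn1
    exact Nat.one_lt_pow this.ne' (by norm_num)
  · exact Subtype.val_injective.comp P.injective

theorem finite_mul {G : Type v} [AddCommGroup G] {a b : ℕ} (ha : {P : G | a • P = 0}.Finite)
    (hb : {P : G | b • P = 0}.Finite) : {P : G | (a * b) • P = 0}.Finite := by
  have h1 : {P : G | (a * b) • P = 0} ⊆ ⋃ Q ∈ {Q : G | b • Q = 0}, {P : G | a • P = Q} := by
    intro P hP
    rw [Set.mem_iUnion₂]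
    refine ⟨a • P, ?_, rfl⟩
    show b • a • P = 0
    rw [← mul_nsmul]
    exact hP
  refine (hb.biUnion fun Q _ => ?_).subset h1
  by_cases hne : ({P : G | a • P = Q} : Set G).Nonempty
  · obtain ⟨P₀, hP₀⟩ := hne
    have h2 : {P : G | a • P = Q} ⊆ (fun P => P + P₀) '' {P : G | a • P = 0} := by
      intro P hP
      refine ⟨P - P₀, ?_, sub_add_cancel _ _⟩
      show a • (P - P₀) = 0
      have h3 : a • P = Q := hP
      have h4 : a • P₀ = Q := hP₀
      rw [nsmul_sub, h3, h4, sub_self]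
    exact (ha.image _).subset h2
  · rw [Set.not_nonempty_iff_eq_empty] at hne
    rw [hne]
    exact Set.finite_empty

/-- An abelian variety has finitely many points of each order over an algebraically closed field. -/
theorem tors_finite {F : Type u} [Field F] [IsAlgClosed F] [Algebra K F] (n : ℕ) (hn : 0 < n) :
    {P : A.Pts F | n • P = 0}.Finite := by
  induction n using induction_on_primes with
  | zero => exact absurd hn (lt_irrefl 0)
  | one =>
    have h1 : {P : A.Pts F | 1 • P = 0} = {0} := by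
      ext P
      show 1 • P = 0 ↔ P = 0
      rw [one_nsmul]
    rw [h1]
    exact Set.finite_singleton _
  | prime_mul p a hp ih =>
    have ha : 0 < a := Nat.pos_of_ne_zero (fun h0 => by rw [h0, mul_zero] at hn; exact absurd hn (lt_irrefl 0))
    refine finite_mul ?_ (ih ha)
    rcases hp.eq_two_or_odd' with h2 | h2
    · rw [h2]; exact two_finite A
    · exact odd_finite A p ((Nat.coprime_primes Nat.prime_two hp).2 (fun h => by rw [← h] at h2; exact absurd h2 (by decide))) hp.pos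

end Pool.Agent.Lib.MP_021685_agTT
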