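import Pool.Agent.Lib.MP_021685_agTT.LT
import Pool.Agent.Lib.MP_021685_agTT.GC

/-!
The action of the absolute Galois group on the points of an abelian variety.
-/

set_option autoImplicit false

universe u

namespace Pool.Agent.Lib.MP_021685_agTT

open Polynomial TensorProduct Pool.Agent.Lib.MP_17a322_nt.VA

theorem ptsMap_mul {K : Type u} [Field K] {N : ℕ} (A : AV K N) (s t : GalK K) :
    ptsMap A (((s * t : GalK K) : AlgebraicClosure K →ₐ[K] AlgebraicClosure K)) =
      (ptsMap A (s : AlgebraicClosure K →ₐ[K] AlgebraicClosure K)).comp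
        (ptsMap A (t : AlgebraicClosure K →ₐ[K] AlgebraicClosure K)) := by
  refine AddMonoidHom.ext fun P => ?_
  obtain ⟨c, hc, h⟩ := isImg_mapPt A.homog (t : AlgebraicClosure K →ₐ[K] AlgebraicClosure K) P
  obtain ⟨c', hc', h'⟩ := isImg_mapPt A.homog (s : AlgebraicClosure K →ₐ[K] AlgebraicClosure K)
    (mapPt A.homog (t : AlgebraicClosure K →ₐ[K] AlgebraicClosure K) P)
  refine eq_mapPt A.homog ⟨s c * c', mul_ne_zero ((map_ne_zero s).2 hc) hc', fun i => ?_⟩
  show s (t (P.1.rep i)) = _
  have h1 : t (P.1.rep i) = c * (mapPt A.homog (t : AlgebraicClosure K →ₐ[K] AlgebraicClosure K) P).1.rep i := h i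
  have h2 := h' i
  rw [h1, map_mul, mul_assoc]
  exact congrArg (fun z => s c * z) h2

end Pool.Agent.Lib.MP_021685_agTT
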