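import Pool.Agent.Lib.MP_021685_agTT.GD
import Pool.Agent.Lib.MP_021685_agTT.GV
import Pool.Agent.Lib.MP_021685_agTT.TNB

/-!
The Tate modules of abelian varieties with the action of the Galois group exist.
-/

set_option autoImplicit false

namespace Pool.Agent.Lib.MP_021685_agTT

open TensorProduct Pool.Agent.Lib.MP_17a322_nt.VA

theorem ptsMap_one {K : Type} [Field K] {N : ℕ} (A : AV K N) :
    ptsMap A (((1 : GalK K) : AlgebraicClosure K →ₐ[K] AlgebraicClosure K)) =
      AddMonoidHom.id (A.Pts (AlgebraicClosure K)) := by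
  refine AddMonoidHom.ext fun P => ?_
  exact eq_mapPt A.homog ⟨1, one_ne_zero, fun i => (one_mul _).symm⟩

/-- **Every abelian variety has a rational Tate module with the action of the absolute Galois group.** -/
theorem exists_galMod {K : Type} [Field K] {N : ℕ} (B : AV K N) (l : ℕ) [Fact l.Prime] :
    ∃ (V : Type) (_ : AddCommGroup V) (_ : Module ℚ_[l] V) (_ : FiniteDimensional ℚ_[l] V)
      (ι : (ℕ → B.Pts (AlgebraicClosure K)) → V) (ρ : Representation ℚ_[l] (GalK K) V), IsGalMod B l ι ρ := by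
  obtain ⟨ι, hι⟩ := Vl.isTateMod l (B.Pts (AlgebraicClosure K))
  obtain ⟨e, he⟩ := hι.equiv
  let f : GalK K → VlA B l →ₗ[ℚ_[l]] VlA B l := fun s =>
    Vl.map (ptsMap B (s : AlgebraicClosure K →ₐ[K] AlgebraicClosure K))
  have f_one : f 1 = LinearMap.id := by
    show Vl.map (ptsMap B (((1 : GalK K) : AlgebraicClosure K →ₐ[K] AlgebraicClosure K))) = _
    rw [ptsMap_one]
    exact LinearMap.baseChange_id
  have f_mul : ∀ s t, f (s * t) = (f s).comp (f t) := by
    intro s t
    show Vl.map (ptsMap B (((s * t : GalK K) : AlgebraicClosure K →ₐ[K] AlgebraicClosure K))) = _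
    rw [ptsMap_mul]
    exact LinearMap.baseChange_comp (Tl.map (ptsMap B (t : AlgebraicClosure K →ₐ[K] AlgebraicClosure K)))
      (Tl.map (ptsMap B (s : AlgebraicClosure K →ₐ[K] AlgebraicClosure K)))
  let ρ : Representation ℚ_[l] (GalK K) (VlA B l) :=
    { toFun := fun s => (e : VlA B l →ₗ[ℚ_[l]] VlA B l).comp ((f s).comp (e.symm : VlA B l →ₗ[ℚ_[l]] VlA B l))
      map_one' := by
        rw [f_one]
        refine LinearMap.ext fun v => ?_
        exact e.apply_symm_apply v
      map_mul' := fun s t => by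
        rw [f_mul]
        refine LinearMap.ext fun v => ?_
        show e (f s (f t (e.symm v))) = e (f s (e.symm (e (f t (e.symm v)))))
        rw [e.symm_apply_apply] }
  refine ⟨VlA B l, inferInstance, inferInstance, VlA_finite B l, ι, ρ, isTateMod_iff.2 hι, fun s x x' hx h => ?_⟩
  have h1 : x' = fun n => ptsMap B (s : AlgebraicClosure K →ₐ[K] AlgebraicClosure K) (x n) :=
    funext fun n => (eq_mapPt B.homog (h n)).symm
  have h2 : e.symm (ι x) = (1 : ℚ_[l]) ⊗ₜ[ℤ_[l]] (⟨x, hx⟩ : Tl l (B.Pts (AlgebraicClosure K))) := by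
    rw [LinearEquiv.symm_apply_eq]
    exact (he (⟨x, hx⟩ : Tl l (B.Pts (AlgebraicClosure K)))).symm
  show e (f s (e.symm (ι x))) = ι x'
  rw [h2, h1]
  exact he (Tl.map (ptsMap B (s : AlgebraicClosure K →ₐ[K] AlgebraicClosure K))
    (⟨x, hx⟩ : Tl l (B.Pts (AlgebraicClosure K))))

end Pool.Agent.Lib.MP_021685_agTT
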