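import Pool.Agent.Lib.MP_021685_agTI.TD

/-!
Linear algebra over `ℂ`: an operator with distinct eigenvalues, for which all Tate forms are combinations of products
of pairings, and a non-degenerate alternating form `e` with `e (F v) (F w) = Q e v w`; then all Tate forms are
combinations of products of the forms `e (F ^ i v) w`.
-/

namespace Pool.Agent.Lib.MP_021685_agTT

open Polynomial Module

theorem exists_eigenbasis {V : Type} [AddCommGroup V] [Module ℂ V] [FiniteDimensional ℂ V]
    (F : V →ₗ[ℂ] V) (h : F.charpoly.Separable) :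
    ∃ (ι : Type) (_ : Fintype ι) (b : Basis ι ℂ V) (x : ι → ℂ), Function.Injective x ∧
      ∀ i, F (b i) = x i • b i := by
  classical
  let ι : Type := {z : ℂ // z ∈ F.charpoly.roots.toFinset}
  have hne : F.charpoly ≠ 0 := F.charpoly_monic.ne_zero
  have hroot : ∀ z : ι, ∃ v : V, Module.End.HasEigenvector F z.1 v := by
    intro z
    have hz : z.1 ∈ F.charpoly.roots := Multiset.mem_toFinset.1 z.2
    rw [mem_roots hne] at hz
    exact ((Module.End.hasEigenvalue_iff_isRoot_charpoly F z.1).2 hz).exists_hasEigenvector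
  choose v hv using hroot
  have hli : LinearIndependent ℂ v :=
    Module.End.eigenvectors_linearIndependent' F (fun z : ι => z.1) Subtype.val_injective v hv
  have hcard : Fintype.card ι = finrank ℂ V := by
    rw [Fintype.card_coe, Multiset.toFinset_card_of_nodup (nodup_roots h),
      ← F.charpoly_natDegree]
    exact (IsAlgClosed.splits F.charpoly).natDegree_eq_card_roots.symm
  have hspan := hli.span_eq_top_of_card_eq_finrank' hcard
  refine ⟨ι, inferInstance, Basis.mk hli (le_of_eq hspan.symm), fun z => z.1,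
    Subtype.val_injective, fun z => ?_⟩
  rw [Basis.mk_apply]
  exact (hv z).apply_eq_smul

section

variable {V : Type} [AddCommGroup V] [Module ℂ V] [FiniteDimensional ℂ V] {ι : Type} [Fintype ι]
  {F : V →ₗ[ℂ] V} {b : Basis ι ℂ V} {x : ι → ℂ}

omit [FiniteDimensional ℂ V] [Fintype ι] in
theorem pow_apply_eig (hb : ∀ i, F (b i) = x i • b i) (n : ℕ) (i : ι) :
    (F ^ n) (b i) = x i ^ n • b i := by
  induction n with
  | zero => simp
  | succ n ih => rw [pow_succ', Module.End.mul_apply, ih, map_smul, hb, smul_smul, pow_succ]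

omit [FiniteDimensional ℂ V] [Fintype ι] in
theorem coord_apply_eig (hb : ∀ i, F (b i) = x i • b i) (i : ι) (v : V) :
    b.coord i (F v) = x i * b.coord i v := by
  have h : (b.coord i).comp F = x i • b.coord i := by
    refine b.ext fun j => ?_
    rw [LinearMap.comp_apply, hb, map_smul, LinearMap.smul_apply, smul_eq_mul, smul_eq_mul,
      Basis.coord_apply, Basis.repr_self]
    by_cases hij : j = i
    · rw [hij]
    · rw [Finsupp.single_eq_of_ne (Ne.symm hij), mul_zero, mul_zero]
  exact LinearMap.congr_fun h v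

omit [FiniteDimensional ℂ V] [Fintype ι] in
/-- A pairing of two eigenvectors is zero unless the eigenvalues have the right product. -/
theorem pairing_eig (hb : ∀ i, F (b i) = x i • b i) {Q : ℂ} {d : ℕ} {B : V →ₗ[ℂ] V →ₗ[ℂ] ℂ}
    (hB : ∀ v w, B ((F ^ d) v) ((F ^ d) w) = Q * B v w) {i j : ι} (h : B (b i) (b j) ≠ 0) :
    (x i * x j) ^ d = Q := by
  have h1 := hB (b i) (b j)
  rw [pow_apply_eig hb, pow_apply_eig hb, map_smul, map_smul, LinearMap.smul_apply, smul_eq_mul,
    smul_eq_mul, ← mul_assoc, ← mul_pow, mul_comm (x j) (x i)] at h1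
  exact mul_right_cancel₀ h h1

omit [FiniteDimensional ℂ V] [Fintype ι] in
theorem ratio (hb : ∀ i, F (b i) = x i • b i) {Q : ℕ}
    (hfull : ∀ (k : ℕ) (T : MultilinearMap ℂ (fun _ : Fin k => V) ℂ), TI.IsTate Q 1 k F T →
      T ∈ Submodule.span ℂ {T' : MultilinearMap ℂ (fun _ : Fin k => V) ℂ | TI.IsProduct Q 1 k F T'})
    (hx : ∀ i, x i ^ 2 ≠ (Q : ℂ)) {i j : ι} {d : ℕ} (hd : 0 < d)
    (h : (x i * x j) ^ d = (Q : ℂ) ^ d) : x i * x j = (Q : ℂ) := by
  by_contra hne
  let idx : Fin (d + d) → ι := Fin.addCases (fun _ => i) (fun _ => j)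
  have hidx : ∀ a, idx a = i ∨ idx a = j := by
    intro a
    refine Fin.addCases (fun a => Or.inl ?_) (fun a => Or.inr ?_) a
    · exact Fin.addCases_left a
    · exact Fin.addCases_right a
  let T : MultilinearMap ℂ (fun _ : Fin (d + d) => V) ℂ :=
    (MultilinearMap.mkPiAlgebra ℂ (Fin (d + d)) ℂ).compLinearMap fun a => b.coord (idx a)
  have hT : ∀ v, T v = ∏ a, b.coord (idx a) (v a) := fun v => by
    simp only [T, MultilinearMap.compLinearMap_apply, MultilinearMap.mkPiAlgebra_apply]
  have hprod : ∏ a, x (idx a) = (Q : ℂ) ^ d := by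
    rw [Fin.prod_univ_add]
    simp only [idx, Fin.addCases_left, Fin.addCases_right, Finset.prod_const, Finset.card_univ,
      Fintype.card_fin]
    rw [← mul_pow, h]
  have htate : TI.IsTate Q 1 (d + d) F T := by
    intro v
    rw [hT, hT]
    have hpow : ((Real.sqrt Q : ℝ) : ℂ) ^ (d + d) = (Q : ℂ) ^ d := by
      rw [← two_mul, pow_mul, ← Complex.ofReal_pow, Real.sq_sqrt (Nat.cast_nonneg Q),
        Complex.ofReal_natCast]
    simp only [pow_one, coord_apply_eig hb, Finset.prod_mul_distrib, hprod, one_mul, hpow]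
  let v0 : Fin (d + d) → V := fun a => b (idx a)
  have hT0 : T v0 = 1 := by
    rw [hT]
    refine Finset.prod_eq_one fun a _ => ?_
    simp [v0, Basis.coord_apply]
  have hall : ∀ T' ∈ Submodule.span ℂ {T' : MultilinearMap ℂ (fun _ : Fin (d + d) => V) ℂ |
      TI.IsProduct Q 1 (d + d) F T'}, T' v0 = 0 := by
    intro T' hT'
    induction hT' using Submodule.span_induction with
    | mem T' h' =>
      obtain ⟨m, e, B, hB, hT'⟩ := h'
      have hm : 0 < m := by
        have hc := Fintype.card_congr e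
        rw [Fintype.card_sum, Fintype.card_fin, Fintype.card_fin] at hc
        omega
      rw [hT']
      refine Finset.prod_eq_zero (Finset.mem_univ (⟨0, hm⟩ : Fin m)) ?_
      by_contra hne'
      have h1 := pairing_eig (Q := (Q : ℂ)) (d := 1) hb
        (fun v w => by simpa using hB ⟨0, hm⟩ v w) hne'
      rw [pow_one] at h1
      rcases hidx (e (Sum.inl ⟨0, hm⟩)) with h2 | h2 <;>
        rcases hidx (e (Sum.inr ⟨0, hm⟩)) with h3 | h3 <;> rw [h2, h3] at h1
      · exact hx i (by rw [sq, h1])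
      · exact hne h1
      · exact hne (by rw [mul_comm, h1])
      · exact hx j (by rw [sq, h1])
    | zero => rfl
    | add T₁ T₂ _ _ h1 h2 => rw [add_apply, h1, h2, add_zero]
    | smul c T₁ _ h1 => rw [smul_apply, h1, smul_zero]
  have := hall T (hfull _ T htate)
  rw [hT0] at this
  exact one_ne_zero this

omit [FiniteDimensional ℂ V] in
/-- All pairings for a power of `F` are of the form `e (g(F) v) w`. -/
theorem pairing_poly (hb : ∀ i, F (b i) = x i • b i) (hinj : Function.Injective x) {Q : ℕ}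
    (hQ : 0 < Q)
    (hfull : ∀ (k : ℕ) (T : MultilinearMap ℂ (fun _ : Fin k => V) ℂ), TI.IsTate Q 1 k F T →
      T ∈ Submodule.span ℂ {T' : MultilinearMap ℂ (fun _ : Fin k => V) ℂ | TI.IsProduct Q 1 k F T'})
    (e : V →ₗ[ℂ] V →ₗ[ℂ] ℂ) (halt : ∀ v, e v v = 0) (hnd : ∀ v, (∀ w, e v w = 0) → v = 0)
    (he : ∀ v w, e (F v) (F w) = (Q : ℂ) * e v w) {d : ℕ} (hd : 0 < d)
    {B : V →ₗ[ℂ] V →ₗ[ℂ] ℂ} (hB : TI.IsPairing Q d F B) :
    ∃ g : ℂ[X], ∀ v w, B v w = e (aeval F g v) w := by
  classical
  have hQ' : (Q : ℂ) ≠ 0 := Nat.cast_ne_zero.2 hQ.ne'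
  have hs : ∀ i, ∃ j, e (b i) (b j) ≠ 0 := by
    intro i
    by_contra hcon
    push Not at hcon
    refine b.ne_zero i (hnd _ fun w => ?_)
    have : e (b i) = 0 := b.ext fun j => by rw [hcon j]; rfl
    rw [this]; rfl
  choose s hs using hs
  have hq : ∀ {i j}, e (b i) (b j) ≠ 0 → x i * x j = Q := by
    intro i j h
    have h1 := pairing_eig (Q := (Q : ℂ)) (d := 1) hb (fun v w => by simpa using he v w) h
    rwa [pow_one] at h1
  have hx0 : ∀ i, x i ≠ 0 := fun i h0 => hQ' (by rw [← hq (hs i), h0, zero_mul])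
  have huniq : ∀ {i j}, x i * x j = Q → j = s i := by
    intro i j h
    apply hinj
    apply mul_left_cancel₀ (hx0 i)
    rw [h, hq (hs i)]
  have hx : ∀ i, x i ^ 2 ≠ (Q : ℂ) := by
    intro i h
    rw [sq] at h
    have h1 := hs i
    rw [← huniq h, halt] at h1
    exact h1 rfl
  refine ⟨Lagrange.interpolate Finset.univ x fun i => B (b i) (b (s i)) / e (b i) (b (s i)), ?_⟩
  set g := Lagrange.interpolate Finset.univ x fun i => B (b i) (b (s i)) / e (b i) (b (s i))
    with hg
  have hgi : ∀ i, g.eval (x i) = B (b i) (b (s i)) / e (b i) (b (s i)) := fun i =>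
    Lagrange.eval_interpolate_at_node _ hinj.injOn (Finset.mem_univ i)
  have hag : ∀ i, aeval F g (b i) = g.eval (x i) • b i := fun i =>
    Module.End.aeval_apply_of_hasEigenvector
      ⟨Module.End.mem_eigenspace_iff.2 (hb i), b.ne_zero i⟩
  have key : B = e.comp (aeval F g) := by
    refine b.ext fun i => b.ext fun j => ?_
    rw [LinearMap.comp_apply, hag, map_smul, LinearMap.smul_apply, hgi, smul_eq_mul]
    by_cases hij : j = s i
    · rw [hij, div_mul_cancel₀ _ (hs i)]
    · have h1 : e (b i) (b j) = 0 := by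
        by_contra h; exact hij (huniq (hq h))
      have h2 : B (b i) (b j) = 0 := by
        by_contra h
        exact hij (huniq (ratio hb hfull hx hd (pairing_eig hb hB h)))
      rw [h1, h2, mul_zero]
  intro v w
  rw [key]; rfl

end

/-- The product of the forms `e (F ^ i v) w`, the arguments matched by `α.1`, the exponents `α.2`. -/
def prodForm {k : Type*} [Field k] {V : Type*} [AddCommGroup V] [Module k V] (e : V →ₗ[k] V →ₗ[k] k)
    (F : V →ₗ[k] V) {j : ℕ} (α : (Fin j ⊕ Fin j ≃ Fin (2 * j)) × (Fin j → ℕ))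
    (v : Fin (2 * j) → V) : k :=
  ∏ a, e ((F ^ α.2 a) (v (α.1 (Sum.inl a)))) (v (α.1 (Sum.inr a)))

/-- Over `ℂ`: all Tate forms are combinations of products of the forms `e (F ^ i v) w`. -/
theorem tate_complex {V : Type} [AddCommGroup V] [Module ℂ V] [FiniteDimensional ℂ V]
    {Q : ℕ} (hQ : 0 < Q) {R : ℤ[X]} (hR : (R.map (Int.castRingHom ℚ)).Separable)
    (hfull : TI.Full Q R) (F : V →ₗ[ℂ] V) (hF : F.charpoly = R.map (Int.castRingHom ℂ))
    (e : V →ₗ[ℂ] V →ₗ[ℂ] ℂ) (halt : ∀ v, e v v = 0) (hnd : ∀ v, (∀ w, e v w = 0) → v = 0)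
    (he : ∀ v w, e (F v) (F w) = (Q : ℂ) * e v w) {d : ℕ} (hd : 0 < d) {j : ℕ}
    (T : MultilinearMap ℂ (fun _ : Fin (2 * j) => V) ℂ)
    (hT : ∀ v, T (fun a => (F ^ d) (v a)) = (Q : ℂ) ^ (d * j) * T v) :
    ∃ c : ((Fin j ⊕ Fin j ≃ Fin (2 * j)) × (Fin j → ℕ)) →₀ ℂ,
      ∀ v, T v = c.sum fun α y => y * prodForm e F α v := by
  classical
  have hsep : F.charpoly.Separable := by
    have h := hR.map (f := algebraMap ℚ ℂ)
    rw [Polynomial.map_map] at h
    rw [hF]
    rwa [show (Int.castRingHom ℂ) = (algebraMap ℚ ℂ).comp (Int.castRingHom ℚ) from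
      RingHom.ext_int _ _]
  obtain ⟨ι, _, b, x, hinj, hb⟩ := exists_eigenbasis F hsep
  have hss : Module.End.IsSemisimple F :=
    Module.End.isSemisimple_of_squarefree_aeval_eq_zero hsep.squarefree (LinearMap.aeval_self_charpoly F)
  have hf := hfull V F hss hF
  have hpoly : ∀ B : V →ₗ[ℂ] V →ₗ[ℂ] ℂ, TI.IsPairing Q d F B →
      ∃ g : ℂ[X], ∀ v w, B v w = e (aeval F g v) w := fun B hB =>
    pairing_poly hb hinj hQ (fun k T hT => hf 1 k one_pos T hT) e halt hnd he hd hB
  have htate : TI.IsTate Q d (2 * j) F T := by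
    intro v
    rw [hT v]
    have hpow : ((Real.sqrt Q : ℝ) : ℂ) ^ (d * (2 * j)) = (Q : ℂ) ^ (d * j) := by
      rw [mul_left_comm, pow_mul, ← Complex.ofReal_pow, Real.sq_sqrt (Nat.cast_nonneg Q),
        Complex.ofReal_natCast]
    rw [hpow]
  let S : Submodule ℂ ((Fin (2 * j) → V) → ℂ) := Submodule.span ℂ (Set.range (prodForm e F (j := j)))
  have hS : ∀ T' ∈ Submodule.span ℂ {T' : MultilinearMap ℂ (fun _ : Fin (2 * j) => V) ℂ |
      TI.IsProduct Q d (2 * j) F T'}, (fun v => T' v) ∈ S := by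
    intro T' hT'
    induction hT' using Submodule.span_induction with
    | mem T' h' =>
      obtain ⟨m, σ, B, hB, hT'⟩ := h'
      have hm : m = j := by
        have hc := Fintype.card_congr σ
        rw [Fintype.card_sum, Fintype.card_fin, Fintype.card_fin] at hc
        omega
      subst hm
      choose g hg using fun i => hpoly (B i) (hB i)
      have h1 : (fun v => T' v) = ∑ p ∈ Fintype.piFinset fun i => Finset.range ((g i).natDegree + 1),
          (∏ i, (g i).coeff (p i)) • prodForm e F (σ, p) := by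
        funext v
        rw [hT']
        simp only [hg, Finset.sum_apply, Pi.smul_apply, smul_eq_mul, prodForm]
        simp only [aeval_eq_sum_range, LinearMap.sum_apply, LinearMap.smul_apply, map_sum, map_smul,
          smul_eq_mul]
        rw [Finset.prod_univ_sum]
        refine Finset.sum_congr rfl fun p _ => ?_
        rw [Finset.prod_mul_distrib]
      rw [h1]
      exact Submodule.sum_mem _ fun p _ => Submodule.smul_mem _ _ (Submodule.subset_span ⟨_, rfl⟩)
    | zero => exact Submodule.zero_mem _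
    | add T₁ T₂ _ _ h1 h2 => exact Submodule.add_mem _ h1 h2
    | smul c T₁ _ h1 => exact Submodule.smul_mem _ c h1
  have hTS := hS T (hf d (2 * j) hd T htate)
  obtain ⟨c, hc⟩ := Finsupp.mem_span_range_iff_exists_finsupp.1 hTS
  refine ⟨c, fun v => ?_⟩
  rw [← congrFun hc v, Finsupp.sum, Finsupp.sum, Finset.sum_apply]
  rfl

end Pool.Agent.Lib.MP_021685_agTT
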