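import Pool.Agent.Lib.MP_021685_agTT.LA1

/-!
Descent from `ℂ` to a field `k` with an embedding in `ℂ`: over `k`, all Tate forms are combinations of products of the
forms `e (F ^ i v) w`.
-/

namespace Pool.Agent.Lib.MP_021685_agTT

open Polynomial Module TensorProduct

section

variable {k : Type} [Field k] [Algebra k ℂ] {V : Type} [AddCommGroup V] [Module k V]

/-- Two bilinear forms over `ℂ` which agree on `1 ⊗ v`, `1 ⊗ w` are equal. -/
theorem bil_ext {B B' : ℂ ⊗[k] V →ₗ[ℂ] ℂ ⊗[k] V →ₗ[ℂ] ℂ}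
    (h : ∀ v w : V, B (1 ⊗ₜ v) (1 ⊗ₜ w) = B' (1 ⊗ₜ v) (1 ⊗ₜ w)) : B = B' := by
  ext v w
  simpa using h v w

/-- The forms over `ℂ` with the given values at `1 ⊗ v`. -/
noncomputable def bilC (e : V →ₗ[k] V →ₗ[k] k) : ℂ ⊗[k] V →ₗ[ℂ] ℂ ⊗[k] V →ₗ[ℂ] ℂ :=
  LinearMap.BilinForm.baseChange ℂ e

theorem bilC_tmul (e : V →ₗ[k] V →ₗ[k] k) (v w : V) :
    bilC e (1 ⊗ₜ v) (1 ⊗ₜ w) = algebraMap k ℂ (e v w) := by
  unfold bilC
  rw [LinearMap.BilinForm.baseChange_tmul, mul_one, Algebra.smul_def, mul_one]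

theorem bilC_alt (e : V →ₗ[k] V →ₗ[k] k) (halt : ∀ v, e v v = 0) (v : ℂ ⊗[k] V) :
    bilC e v v = 0 := by
  have hskew : ∀ v w, e v w = - e w v := by
    intro v w
    have h := halt (v + w)
    rw [map_add, map_add, LinearMap.add_apply, LinearMap.add_apply, halt, halt, zero_add, add_zero] at h
    rw [add_comm] at h
    exact eq_neg_of_add_eq_zero_left h
  have h : bilC e = - (bilC e).flip := by
    refine bil_ext fun v w => ?_
    rw [LinearMap.neg_apply, LinearMap.neg_apply, LinearMap.flip_apply, bilC_tmul, bilC_tmul,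
      hskew v w, map_neg]
  have h1 : bilC e v v = - bilC e v v := by
    conv_lhs => rw [h]
    rfl
  have h2 : (2 : ℂ) * bilC e v v = 0 := by
    rw [two_mul]
    nth_rewrite 2 [h1]
    rw [add_neg_cancel]
  exact (mul_eq_zero.1 h2).resolve_left two_ne_zero

theorem bilC_frob (e : V →ₗ[k] V →ₗ[k] k) (F : V →ₗ[k] V) {Q : ℕ}
    (he : ∀ v w, e (F v) (F w) = (Q : k) * e v w) (v w : ℂ ⊗[k] V) :
    bilC e (F.baseChange ℂ v) (F.baseChange ℂ w) = (Q : ℂ) * bilC e v w := by
  have h : (bilC e).compl₁₂ (F.baseChange ℂ) (F.baseChange ℂ) = (Q : ℂ) • bilC e := by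
    refine bil_ext fun v w => ?_
    rw [LinearMap.compl₁₂_apply, LinearMap.baseChange_tmul, LinearMap.baseChange_tmul, bilC_tmul,
      he, LinearMap.smul_apply, LinearMap.smul_apply, bilC_tmul, map_mul, map_natCast, smul_eq_mul]
  have h1 := LinearMap.congr_fun₂ h v w
  rwa [LinearMap.compl₁₂_apply, LinearMap.smul_apply, LinearMap.smul_apply, smul_eq_mul] at h1

theorem bilC_nondeg [FiniteDimensional k V] (e : V →ₗ[k] V →ₗ[k] k) (halt : ∀ v, e v v = 0)
    (hnd : ∀ v, (∀ w, e v w = 0) → v = 0) (v : ℂ ⊗[k] V) (hv : ∀ w, bilC e v w = 0) : v = 0 := by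
  have hinj : Function.Injective e := by
    rw [← LinearMap.ker_eq_bot, LinearMap.ker_eq_bot']
    intro v hv
    exact hnd v fun w => by rw [hv]; rfl
  have hsurj : Function.Surjective e :=
    (LinearMap.injective_iff_surjective_of_finrank_eq_finrank
      (Subspace.dual_finrank_eq (K := k) (V := V)).symm).1 hinj
  let b := finBasis k V
  have h1 : ∀ i, (b.baseChange ℂ).coord i v = 0 := by
    intro i
    obtain ⟨u, hu⟩ := hsurj (b.coord i)
    have h2 : bilC e (1 ⊗ₜ u) = (b.baseChange ℂ).coord i := by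
      refine (b.baseChange ℂ).ext fun j => ?_
      rw [Basis.baseChange_apply, bilC_tmul, hu, Basis.coord_apply, Basis.coord_apply,
        ← Basis.baseChange_apply ℂ b j, Basis.repr_self, Basis.repr_self]
      by_cases hij : j = i
      · rw [hij, Finsupp.single_eq_same, Finsupp.single_eq_same, map_one]
      · rw [Finsupp.single_eq_of_ne (Ne.symm hij), Finsupp.single_eq_of_ne (Ne.symm hij), map_zero]
    have h3 : bilC e (1 ⊗ₜ u) v = 0 := by
      have h4 := bilC_alt e halt (1 ⊗ₜ u + v)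
      rw [map_add, map_add, LinearMap.add_apply, LinearMap.add_apply, bilC_alt e halt,
        bilC_alt e halt, hv, add_zero, add_zero, zero_add] at h4
      exact h4
    rw [← h2, h3]
  exact (Basis.forall_coord_eq_zero_iff (b.baseChange ℂ)).1 h1

theorem mulC_exists [FiniteDimensional k V] {m : ℕ} (T : MultilinearMap k (fun _ : Fin m => V) k) :
    ∃ T' : MultilinearMap ℂ (fun _ : Fin m => ℂ ⊗[k] V) ℂ,
      ∀ v : Fin m → V, T' (fun a => 1 ⊗ₜ v a) = algebraMap k ℂ (T v) := by
  classical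
  let b := finBasis k V
  let T' : MultilinearMap ℂ (fun _ : Fin m => ℂ ⊗[k] V) ℂ :=
    ∑ f : Fin m → Fin (finrank k V), (algebraMap k ℂ (T fun a => b (f a))) •
      (MultilinearMap.mkPiAlgebra ℂ (Fin m) ℂ).compLinearMap fun a => (b.baseChange ℂ).coord (f a)
  have hT' : ∀ v, T' v = ∑ f : Fin m → Fin (finrank k V), algebraMap k ℂ (T fun a => b (f a)) *
      ∏ a, (b.baseChange ℂ).coord (f a) (v a) := fun v => by
    simp only [T', sum_apply, smul_apply, MultilinearMap.compLinearMap_apply,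
      MultilinearMap.mkPiAlgebra_apply, smul_eq_mul]
  refine ⟨T', ?_⟩
  let T₁ : MultilinearMap k (fun _ : Fin m => V) ℂ :=
    (T'.restrictScalars k).compLinearMap fun _ => TensorProduct.mk k ℂ V 1
  let T₂ : MultilinearMap k (fun _ : Fin m => V) ℂ := (Algebra.linearMap k ℂ).compMultilinearMap T
  have h : T₁ = T₂ := by
    refine Basis.ext_multilinear (fun _ => b) fun f => ?_
    change T' (fun a => 1 ⊗ₜ b (f a)) = algebraMap k ℂ (T fun a => b (f a))
    rw [hT', Finset.sum_eq_single f]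
    · rw [Finset.prod_eq_one, mul_one]
      intro a _
      rw [← Basis.baseChange_apply ℂ b, Basis.coord_apply, Basis.repr_self,
        Finsupp.single_eq_same]
    · intro g _ hg
      obtain ⟨a, ha⟩ := Function.ne_iff.1 hg
      rw [Finset.prod_eq_zero (Finset.mem_univ a), mul_zero]
      rw [← Basis.baseChange_apply ℂ b, Basis.coord_apply, Basis.repr_self,
        Finsupp.single_eq_of_ne ha]
    · intro hf
      exact absurd (Finset.mem_univ _) hf
  intro v
  exact congrArg (fun T : MultilinearMap k (fun _ : Fin m => V) ℂ => T v) h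

theorem baseChange_pow_tmul (F : V →ₗ[k] V) (n : ℕ) (v : V) :
    ((F.baseChange ℂ) ^ n) (1 ⊗ₜ v) = 1 ⊗ₜ (F ^ n) v := by
  induction n with
  | zero => rfl
  | succ n ih =>
    rw [pow_succ', pow_succ', Module.End.mul_apply, ih, LinearMap.baseChange_tmul]; rfl

/-- Over a field `k` with an embedding in `ℂ`: all Tate forms are combinations of products of the forms
`e (F ^ i v) w`. -/
theorem tate_field [FiniteDimensional k V] {Q : ℕ} (hQ : 0 < Q) {R : ℤ[X]}
    (hR : (R.map (Int.castRingHom ℚ)).Separable) (hfull : TI.Full Q R) (F : V →ₗ[k] V)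
    (hF : F.charpoly = R.map (Int.castRingHom k)) (e : V →ₗ[k] V →ₗ[k] k)
    (halt : ∀ v, e v v = 0) (hnd : ∀ v, (∀ w, e v w = 0) → v = 0)
    (he : ∀ v w, e (F v) (F w) = (Q : k) * e v w) {d : ℕ} (hd : 0 < d) {j : ℕ}
    (T : MultilinearMap k (fun _ : Fin (2 * j) => V) k)
    (hT : ∀ v, T (fun a => (F ^ d) (v a)) = (Q : k) ^ (d * j) * T v) :
    ∃ c : ((Fin j ⊕ Fin j ≃ Fin (2 * j)) × (Fin j → ℕ)) →₀ k,
      ∀ v, T v = c.sum fun α y => y * prodForm e F α v := by
  classical
  obtain ⟨T', hT'⟩ := mulC_exists T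
  have hFC : (F.baseChange ℂ).charpoly = R.map (Int.castRingHom ℂ) := by
    rw [LinearMap.charpoly_baseChange, hF, Polynomial.map_map]
    exact congrArg (fun f : ℤ →+* ℂ => R.map f) (RingHom.ext_int _ _)
  have htate : ∀ v, T' (fun a => ((F.baseChange ℂ) ^ d) (v a)) = (Q : ℂ) ^ (d * j) * T' v := by
    have h : T'.compLinearMap (fun _ => (F.baseChange ℂ) ^ d) = ((Q : ℂ) ^ (d * j)) • T' := by
      refine Basis.ext_multilinear (fun _ => (finBasis k V).baseChange ℂ) fun f => ?_
      rw [MultilinearMap.compLinearMap_apply, smul_apply, smul_eq_mul]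
      simp only [Basis.baseChange_apply, baseChange_pow_tmul]
      rw [hT' fun a => (F ^ d) (finBasis k V (f a)), hT' fun a => finBasis k V (f a),
        hT fun a => finBasis k V (f a), map_mul, map_pow, map_natCast]
    intro v
    exact congrArg (fun T : MultilinearMap ℂ (fun _ : Fin (2 * j) => ℂ ⊗[k] V) ℂ => T v) h
  obtain ⟨c, hc⟩ := tate_complex hQ hR hfull (F.baseChange ℂ) hFC (bilC e) (bilC_alt e halt)
    (bilC_nondeg e halt hnd) (bilC_frob e F he) hd T' htate
  -- a `k`-linear retraction of `k → ℂ`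
  obtain ⟨g, hg⟩ : ∃ g : ℂ →ₗ[k] k, g ∘ₗ Algebra.linearMap k ℂ = LinearMap.id :=
    LinearMap.exists_leftInverse_of_injective _
      (LinearMap.ker_eq_bot.2 (FaithfulSMul.algebraMap_injective k ℂ))
  have hg1 : ∀ x : k, g (algebraMap k ℂ x) = x := fun x => LinearMap.congr_fun hg x
  have hprod : ∀ (α : (Fin j ⊕ Fin j ≃ Fin (2 * j)) × (Fin j → ℕ)) (v : Fin (2 * j) → V),
      prodForm (bilC e) (F.baseChange ℂ) α (fun a => 1 ⊗ₜ v a) =
        algebraMap k ℂ (prodForm e F α v) := by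
    intro α v
    simp only [prodForm, baseChange_pow_tmul, bilC_tmul, map_prod]
  refine ⟨c.mapRange g (map_zero g), fun v => ?_⟩
  rw [Finsupp.sum_mapRange_index fun α => zero_mul _]
  have h1 := hc fun a => 1 ⊗ₜ v a
  rw [hT'] at h1
  have h2 := congrArg g h1
  rw [hg1] at h2
  rw [h2, Finsupp.sum, map_sum, Finsupp.sum]
  refine Finset.sum_congr rfl fun α _ => ?_
  rw [hprod, mul_comm, ← smul_eq_mul, algebraMap_smul, map_smul, smul_eq_mul, mul_comm]

end

end Pool.Agent.Lib.MP_021685_agTT
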