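import Pool.Agent.Lib.MP_021685_agTT.LA2

/-!
Tate forms on a power `V ^ n`, and an embedding of `ℚ_l` in `ℂ`.
-/

namespace Pool.Agent.Lib.MP_021685_agTT

open Polynomial Module

/-- The index set of the products of `j` forms `e (F ^ i v_s) w_t` in `2 j` arguments from `V ^ n`: a matching of the
arguments, and for each of the `j` pairs an exponent `i` and two components `s`, `t`. -/
abbrev Ind (n j : ℕ) : Type :=
  (Fin j ⊕ Fin j ≃ Fin (2 * j)) × (Fin j → ℕ × Fin n × Fin n)

/-- The product of the `j` forms `e (F ^ i (v_a)_s) (v_b)_t` in the arguments `v_a`, `v_b` matched by `α.1`, the exponents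
`i` and the components `s`, `t` given by `α.2`. -/
def pairProd {k : Type*} [Field k] {V : Type*} [AddCommGroup V] [Module k V]
    (e : V →ₗ[k] V →ₗ[k] k) (F : V →ₗ[k] V) {n j : ℕ} (α : Ind n j)
    (v : Fin (2 * j) → Fin n → V) : k :=
  ∏ a : Fin j, e ((F ^ (α.2 a).1) (v (α.1 (Sum.inl a)) (α.2 a).2.1))
    (v (α.1 (Sum.inr a)) (α.2 a).2.2)

theorem tate_power {k : Type} [Field k] [Algebra k ℂ] {V : Type} [AddCommGroup V] [Module k V]
    [FiniteDimensional k V] {Q : ℕ} (hQ : 0 < Q) {R : ℤ[X]}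
    (hR : (R.map (Int.castRingHom ℚ)).Separable) (hfull : TI.Full Q R) (F : V →ₗ[k] V)
    (hF : F.charpoly = R.map (Int.castRingHom k)) (e : V →ₗ[k] V →ₗ[k] k)
    (halt : ∀ v, e v v = 0) (hnd : ∀ v, (∀ w, e v w = 0) → v = 0)
    (he : ∀ v w, e (F v) (F w) = (Q : k) * e v w) {d : ℕ} (hd : 0 < d) {n j : ℕ}
    (T : MultilinearMap k (fun _ : Fin (2 * j) => Fin n → V) k)
    (hT : ∀ v : Fin (2 * j) → Fin n → V,
      T (fun a s => (F ^ d) (v a s)) = (Q : k) ^ (d * j) * T v) :
    ∃ c : Ind n j →₀ k, ∀ v, T v = c.sum fun α y => y * pairProd e F α v := by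
  classical
  have hS : ∀ s : Fin (2 * j) → Fin n, ∃ c : ((Fin j ⊕ Fin j ≃ Fin (2 * j)) × (Fin j → ℕ)) →₀ k,
      ∀ v, T (fun a => Pi.single (s a) (v a)) = c.sum fun α y => y * prodForm e F α v := by
    intro s
    refine tate_field hQ hR hfull F hF e halt hnd he hd
      (T.compLinearMap fun a => LinearMap.single k (fun _ : Fin n => V) (s a)) fun v => ?_
    rw [MultilinearMap.compLinearMap_apply, MultilinearMap.compLinearMap_apply]
    rw [← hT]
    congr 1
    funext a t
    change (Pi.single (s a) ((F ^ d) (v a)) : Fin n → V) t =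
      (F ^ d) ((Pi.single (s a) (v a) : Fin n → V) t)
    by_cases hst : t = s a
    · subst hst
      rw [Pi.single_eq_same, Pi.single_eq_same]
    · rw [Pi.single_eq_of_ne hst, Pi.single_eq_of_ne hst, map_zero]
  choose c hc using hS
  have hsum : ∀ v, T v = ∑ s : Fin (2 * j) → Fin n, T fun a => Pi.single (s a) (v a (s a)) := by
    intro v
    have h : v = fun a => ∑ t : Fin n, (Pi.single t (v a t) : Fin n → V) := by
      funext a
      exact (Finset.univ_sum_single (v a)).symm
    conv_lhs => rw [h]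
    rw [MultilinearMap.map_sum]
  let idx : (Fin (2 * j) → Fin n) → (Fin j ⊕ Fin j ≃ Fin (2 * j)) × (Fin j → ℕ) → Ind n j :=
    fun s α => (α.1, fun a => (α.2 a, s (α.1 (Sum.inl a)), s (α.1 (Sum.inr a))))
  have hidx : ∀ s α (v : Fin (2 * j) → Fin n → V),
      prodForm e F α (fun a => v a (s a)) = pairProd e F (idx s α) v := fun s α v => rfl
  refine ⟨∑ s, (c s).mapDomain (idx s), fun v => ?_⟩
  rw [hsum v, ← Finsupp.sum_finsetSum_index (h := fun α y => y * pairProd e F α v)
    (fun α => zero_mul _) (fun α y z => add_mul _ _ _)]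
  refine Finset.sum_congr rfl fun s _ => ?_
  rw [Finsupp.sum_mapDomain_index (h := fun α y => y * pairProd e F α v)
    (fun α => zero_mul _) (fun α y z => add_mul _ _ _), hc s fun a => v a (s a)]
  rfl

theorem card_padic (l : ℕ) [Fact l.Prime] : Cardinal.mk ℚ_[l] = Cardinal.continuum := by
  apply le_antisymm
  · have h1 : Cardinal.mk ℚ_[l] ≤ Cardinal.mk (PadicSeq l) :=
      Cardinal.mk_le_of_surjective (f := (Padic.mk : PadicSeq l → ℚ_[l])) Quotient.mk_surjective
    have h2 : Cardinal.mk (PadicSeq l) ≤ Cardinal.mk (ℕ → ℚ) :=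
      Cardinal.mk_le_of_injective (f := fun x : PadicSeq l => (x : ℕ → ℚ)) Subtype.val_injective
    have h3 : Cardinal.mk (ℕ → ℚ) = Cardinal.continuum := by
      simp
    exact h1.trans (h2.trans h3.le)
  · exact continuum_le_cardinal_of_nontriviallyNormedField ℚ_[l]

theorem exists_embedding (l : ℕ) [Fact l.Prime] : Nonempty (ℚ_[l] →+* ℂ) := by
  have h1 : Cardinal.mk (AlgebraicClosure ℚ_[l]) = Cardinal.continuum := by
    apply le_antisymm
    · have h := Algebra.IsAlgebraic.cardinalMk_le_max ℚ_[l] (AlgebraicClosure ℚ_[l])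
      rwa [card_padic, max_eq_left Cardinal.aleph0_le_continuum] at h
    · rw [← card_padic l]
      exact Cardinal.mk_le_of_injective (algebraMap ℚ_[l] (AlgebraicClosure ℚ_[l])).injective
  have h2 : Nonempty (AlgebraicClosure ℚ_[l] ≃ ℂ) := by
    rw [← Cardinal.eq, h1, Cardinal.mk_complex]
  have h3 : Cardinal.aleph0 < Cardinal.mk (AlgebraicClosure ℚ_[l]) := by
    rw [h1]; exact Cardinal.aleph0_lt_continuum
  haveI : CharZero (AlgebraicClosure ℚ_[l]) := inferInstance
  obtain ⟨f⟩ := IsAlgClosed.ringEquiv_of_equiv_of_charZero h3 h2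
  exact ⟨(f : AlgebraicClosure ℚ_[l] →+* ℂ).comp (algebraMap ℚ_[l] (AlgebraicClosure ℚ_[l]))⟩

end Pool.Agent.Lib.MP_021685_agTT
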