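import Pool.Agent.Lib.MP_021685_agTT.LA2
import Pool.Agent.Lib.MP_021685_agTK.KD

/-!
Functions of two variables which are sums of products; Tate forms with values in the dual of a second space, over `ℂ`.
-/

set_option autoImplicit false

namespace Pool.Agent.Lib.MP_021685_agTT

open Polynomial Module TensorProduct

section

variable {k : Type*} [Field k] {W : Type*} [AddCommGroup W] [Module k W] {X ι : Type*}

/-- The function `(x, w) ↦ ∑ f i x * c i w`. -/
noncomputable def sumFun (f : ι → X → k) (E : Submodule k (W →ₗ[k] k)) :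
    (ι →₀ E) →ₗ[k] (X → W → k) where
  toFun c := fun x w => c.sum fun i y => f i x * y.1 w
  map_add' c c' := by
    classical
    funext x w
    exact Finsupp.sum_add_index' (h := fun (i : ι) (y : E) => f i x * y.1 w)
      (fun i => mul_zero _) (fun i y z => mul_add _ _ _)
  map_smul' a c := by
    classical
    funext x w
    rw [RingHom.id_apply, Pi.smul_apply, Pi.smul_apply,
      Finsupp.sum_smul_index' (fun i => by simp), Finsupp.sum, Finsupp.sum, Finset.smul_sum]
    refine Finset.sum_congr rfl fun i _ => ?_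
    simp only [Submodule.coe_smul, LinearMap.smul_apply, smul_eq_mul]
    ring

/-- The space of the functions `(x, w) ↦ ∑ f i x * c i w`, with linear forms `c i` in `E`. -/
noncomputable def Rg (f : ι → X → k) (E : Submodule k (W →ₗ[k] k)) : Submodule k (X → W → k) :=
  LinearMap.range (sumFun f E)

theorem Rg_single (f : ι → X → k) (E : Submodule k (W →ₗ[k] k)) (i : ι) {y : W →ₗ[k] k}
    (hy : y ∈ E) : (fun x w => f i x * y w) ∈ Rg f E := by
  refine ⟨Finsupp.single i ⟨y, hy⟩, ?_⟩
  funext x w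
  exact Finsupp.sum_single_index (h := fun (i : ι) (y : E) => f i x * y.1 w) (mul_zero _)

theorem Rg_span (f : ι → X → k) (E : Submodule k (W →ₗ[k] k)) {φ : X → k}
    (hφ : φ ∈ Submodule.span k (Set.range f)) {y : W →ₗ[k] k} (hy : y ∈ E) :
    (fun x w => φ x * y w) ∈ Rg f E := by
  induction hφ using Submodule.span_induction with
  | mem φ h =>
    obtain ⟨i, rfl⟩ := h
    exact Rg_single f E i hy
  | zero =>
    have h : (fun (x : X) (w : W) => (0 : X → k) x * y w) = 0 := by
      funext x w; simp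
    rw [h]; exact Submodule.zero_mem _
  | add φ ψ _ _ h1 h2 =>
    have h : (fun (x : X) (w : W) => (φ + ψ) x * y w) =
        (fun x w => φ x * y w) + fun x w => ψ x * y w := by
      funext x w; simp [add_mul]
    rw [h]; exact Submodule.add_mem _ h1 h2
  | smul a φ _ h1 =>
    have h : (fun (x : X) (w : W) => (a • φ) x * y w) = a • fun x w => φ x * y w := by
      funext x w; simp [mul_assoc]
    rw [h]; exact Submodule.smul_mem _ _ h1

theorem Rg_exists {f : ι → X → k} {E : Submodule k (W →ₗ[k] k)} {φ : X → W → k}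
    (hφ : φ ∈ Rg f E) : ∃ c : ι →₀ (W →ₗ[k] k), (∀ i, c i ∈ E) ∧
      ∀ x w, φ x w = c.sum fun i y => f i x * y w := by
  classical
  obtain ⟨c, rfl⟩ := hφ
  refine ⟨c.mapRange Subtype.val rfl, fun i => ?_, fun x w => ?_⟩
  · rw [Finsupp.mapRange_apply]; exact (c i).2
  · rw [Finsupp.sum_mapRange_index (fun i => by simp)]
    rfl

end

/-- For every semisimple operator `F` on `V` with characteristic polynomial `P`, every extension degree `d > 0`, every
operator `G` on a space `W` all of whose eigenvalues have the property `S`, all `k` and `b`: all Tate forms on `V^k × W` over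
the extension of degree `d` (total weight `k + b`) are linear combinations of products of Tate pairings on `V` and one Tate form
on `W` (the same as `TAF.FullFor`). -/
def FullS (Q : ℕ) (P : ℤ[X]) (S : ℂ → Prop) : Prop :=
  ∀ (V W : Type) [AddCommGroup V] [Module ℂ V] [FiniteDimensional ℂ V] [AddCommGroup W] [Module ℂ W]
    [FiniteDimensional ℂ W] (F : V →ₗ[ℂ] V) (G : W →ₗ[ℂ] W),
    Module.End.IsSemisimple F → F.charpoly = P.map (Int.castRingHom ℂ) →
      (∀ y, Module.End.HasEigenvalue G y → S y) →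
        ∀ d k b : ℕ, 0 < d → ∀ T : MultilinearMap ℂ (fun _ : Fin k => V) (W →ₗ[ℂ] ℂ),
          (∀ v w, T (fun a => (F ^ d) (v a)) (G w) = ((Real.sqrt Q : ℝ) : ℂ) ^ (d * (k + b)) * T v w) →
            T ∈ Submodule.span ℂ {T' : MultilinearMap ℂ (fun _ : Fin k => V) (W →ₗ[ℂ] ℂ) |
              TK.IsProdOver Q d k b F G T'}

theorem sqrt_pow_two (Q n : ℕ) : ((Real.sqrt Q : ℝ) : ℂ) ^ (2 * n) = (Q : ℂ) ^ n := by
  rw [pow_mul, ← Complex.ofReal_pow, Real.sq_sqrt (Nat.cast_nonneg Q), Complex.ofReal_natCast]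

theorem full_of_fullS {Q : ℕ} {R : ℤ[X]} {S : ℂ → Prop} (hS : S 1) (h : FullS Q R S) :
    TI.Full Q R := by
  intro V _ _ _ F hss hF d k hd T hT
  have h1 := h V ℂ F (LinearMap.id : ℂ →ₗ[ℂ] ℂ) hss hF (fun y hy => by
    obtain ⟨v, hv⟩ := hy.exists_hasEigenvector
    have h2 := hv.apply_eq_smul
    have h3 : (1 - y) * v = 0 := by
      rw [sub_mul, one_mul, sub_eq_zero]; exact h2
    rcases mul_eq_zero.1 h3 with h4 | h4
    · rw [← sub_eq_zero.1 h4]; exact hS
    · exact absurd h4 hv.2) d k 0 hd (T.smulRight (LinearMap.id : ℂ →ₗ[ℂ] ℂ)) (fun v w => by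
      rw [MultilinearMap.smulRight_apply, MultilinearMap.smulRight_apply, hT v, add_zero]
      simp only [LinearMap.smul_apply, LinearMap.id_apply, smul_eq_mul]
      ring)
  let L : MultilinearMap ℂ (fun _ : Fin k => V) (ℂ →ₗ[ℂ] ℂ) →ₗ[ℂ]
      MultilinearMap ℂ (fun _ : Fin k => V) ℂ :=
    { toFun := fun T' => (LinearMap.applyₗ (1 : ℂ)).compMultilinearMap T'
      map_add' := fun _ _ => by ext v; simp
      map_smul' := fun _ _ => by ext v; simp }
  have h2 : L (T.smulRight (LinearMap.id : ℂ →ₗ[ℂ] ℂ)) = T := by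
    ext v
    simp [L]
  have h3 : Submodule.map L (Submodule.span ℂ {T' : MultilinearMap ℂ (fun _ : Fin k => V) (ℂ →ₗ[ℂ] ℂ) |
      TK.IsProdOver Q d k 0 F LinearMap.id T'}) ≤
      Submodule.span ℂ {T' : MultilinearMap ℂ (fun _ : Fin k => V) ℂ | TI.IsProduct Q d k F T'} := by
    rw [Submodule.map_span_le]
    rintro T' ⟨T₀, c, hT₀, _, hT'⟩
    have h4 : L T' = c 1 • T₀ := by
      ext v
      change T' v 1 = c 1 * T₀ v
      rw [hT', mul_comm]
    rw [h4]
    exact Submodule.smul_mem _ _ (Submodule.subset_span hT₀)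
  rw [← h2]
  exact h3 (Submodule.mem_map_of_mem h1)

end Pool.Agent.Lib.MP_021685_agTT
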