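import Pool.Agent.Lib.MP_021685_agTT.LB1

/-!
Tate forms with values in the dual of a second space, over `ℂ` and over a field with an embedding in `ℂ`.
-/

set_option autoImplicit false

namespace Pool.Agent.Lib.MP_021685_agTT

open Polynomial Module TensorProduct

/-- The linear forms `y` with `y (G w) = a y w`. -/
def eigForms {k : Type*} [Field k] {W : Type*} [AddCommGroup W] [Module k W] (G : W →ₗ[k] W)
    (a : k) : Submodule k (W →ₗ[k] k) where
  carrier := {y | ∀ w, y (G w) = a * y w}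
  add_mem' := fun {y z} hy hz w => by
    rw [LinearMap.add_apply, LinearMap.add_apply, hy w, hz w, mul_add]
  zero_mem' := fun w => by simp
  smul_mem' := fun c y hy w => by
    rw [LinearMap.smul_apply, LinearMap.smul_apply, hy w, smul_eq_mul, smul_eq_mul, mul_left_comm]

theorem tate_complex_over {V W : Type} [AddCommGroup V] [Module ℂ V] [FiniteDimensional ℂ V]
    [AddCommGroup W] [Module ℂ W] [FiniteDimensional ℂ W]
    {Q : ℕ} (hQ : 0 < Q) {R : ℤ[X]} (hR : (R.map (Int.castRingHom ℚ)).Separable) {S : ℂ → Prop}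
    (hS : S 1) (hfull : FullS Q R S) (F : V →ₗ[ℂ] V) (hF : F.charpoly = R.map (Int.castRingHom ℂ))
    (e : V →ₗ[ℂ] V →ₗ[ℂ] ℂ) (halt : ∀ v, e v v = 0) (hnd : ∀ v, (∀ w, e v w = 0) → v = 0)
    (he : ∀ v w, e (F v) (F w) = (Q : ℂ) * e v w) (G : W →ₗ[ℂ] W)
    (hG : ∀ y, Module.End.HasEigenvalue G y → S y) {d : ℕ} (hd : 0 < d) {j i : ℕ}
    (T : MultilinearMap ℂ (fun _ : Fin (2 * j) => V) (W →ₗ[ℂ] ℂ))
    (hT : ∀ v w, T (fun a => (F ^ d) (v a)) (G w) = (Q : ℂ) ^ (d * (j + i)) * T v w) :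
    (fun v w => T v w) ∈ Rg (prodForm e F (j := j)) (eigForms G ((Q : ℂ) ^ (d * i))) := by
  classical
  have hfull' := full_of_fullS hS hfull
  have hsep : F.charpoly.Separable := by
    have h := hR.map (f := algebraMap ℚ ℂ)
    rw [Polynomial.map_map] at h
    rw [hF]
    rwa [show (Int.castRingHom ℂ) = (algebraMap ℚ ℂ).comp (Int.castRingHom ℚ) from
      RingHom.ext_int _ _]
  obtain ⟨ι, _, b, x, hinj, hb⟩ := exists_eigenbasis F hsep
  have hss : Module.End.IsSemisimple F :=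
    Module.End.isSemisimple_of_squarefree_aeval_eq_zero hsep.squarefree (LinearMap.aeval_self_charpoly F)
  have hf := hfull' V F hss hF
  have hpoly : ∀ B : V →ₗ[ℂ] V →ₗ[ℂ] ℂ, TI.IsPairing Q d F B →
      ∃ g : ℂ[X], ∀ v w, B v w = e (aeval F g v) w := fun B hB =>
    pairing_poly hb hinj hQ (fun k T hT => hf 1 k one_pos T hT) e halt hnd he hd hB
  have hmem := hfull V W F G hss hF hG d (2 * j) (2 * i) hd T (fun v w => by
    rw [hT v w, ← mul_add, mul_left_comm d 2 (j + i), sqrt_pow_two])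
  clear hT
  induction hmem using Submodule.span_induction with
  | mem T' h' =>
    obtain ⟨T₀, c, ⟨m, σ, B, hB, hT₀⟩, hc, hT'⟩ := h'
    have hm : m = j := by
      have hc := Fintype.card_congr σ
      rw [Fintype.card_sum, Fintype.card_fin, Fintype.card_fin] at hc
      omega
    subst hm
    choose g hg using fun i => hpoly (B i) (hB i)
    have h1 : (fun v => T₀ v) ∈ Submodule.span ℂ (Set.range (prodForm e F (j := m))) := by
      have h2 : (fun v => T₀ v) = ∑ p ∈ Fintype.piFinset fun i => Finset.range ((g i).natDegree + 1),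
          (∏ i, (g i).coeff (p i)) • prodForm e F (σ, p) := by
        funext v
        rw [hT₀]
        simp only [hg, Finset.sum_apply, Pi.smul_apply, smul_eq_mul, prodForm]
        simp only [aeval_eq_sum_range, LinearMap.sum_apply, LinearMap.smul_apply, map_sum, map_smul,
          smul_eq_mul]
        rw [Finset.prod_univ_sum]
        refine Finset.sum_congr rfl fun p _ => ?_
        rw [Finset.prod_mul_distrib]
      rw [h2]
      exact Submodule.sum_mem _ fun p _ => Submodule.smul_mem _ _ (Submodule.subset_span ⟨_, rfl⟩)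
    have h3 : c ∈ eigForms G ((Q : ℂ) ^ (d * i)) := fun w => by
      rw [hc w, mul_left_comm d 2 i, sqrt_pow_two]
    have h4 := Rg_span (prodForm e F (j := m)) (eigForms G ((Q : ℂ) ^ (d * i))) h1 h3
    have h5 : (fun v w => T' v w) = fun v w => T₀ v * c w := by
      funext v w; exact hT' v w
    rw [h5]; exact h4
  | zero => exact Submodule.zero_mem _
  | add T₁ T₂ _ _ h1 h2 => exact Submodule.add_mem _ h1 h2
  | smul c T₁ _ h1 => exact Submodule.smul_mem _ c h1

theorem tate_complex_odd {V W : Type} [AddCommGroup V] [Module ℂ V] [FiniteDimensional ℂ V]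
    [AddCommGroup W] [Module ℂ W] [FiniteDimensional ℂ W]
    {Q : ℕ} {R : ℤ[X]} (hR : (R.map (Int.castRingHom ℚ)).Separable) {S : ℂ → Prop}
    (hfull : FullS Q R S) (F : V →ₗ[ℂ] V) (hF : F.charpoly = R.map (Int.castRingHom ℂ))
    (G : W →ₗ[ℂ] W) (hG : ∀ y, Module.End.HasEigenvalue G y → S y) {d : ℕ} (hd : 0 < d) {j i : ℕ}
    (T : MultilinearMap ℂ (fun _ : Fin (2 * j + 1) => V) (W →ₗ[ℂ] ℂ))
    (hT : ∀ v w, T (fun a => (F ^ d) (v a)) (G w) = (Q : ℂ) ^ (d * (j + i + 1)) * T v w) :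
    T = 0 := by
  have hsep : F.charpoly.Separable := by
    have h := hR.map (f := algebraMap ℚ ℂ)
    rw [Polynomial.map_map] at h
    rw [hF]
    rwa [show (Int.castRingHom ℂ) = (algebraMap ℚ ℂ).comp (Int.castRingHom ℚ) from
      RingHom.ext_int _ _]
  have hss : Module.End.IsSemisimple F :=
    Module.End.isSemisimple_of_squarefree_aeval_eq_zero hsep.squarefree (LinearMap.aeval_self_charpoly F)
  have hmem := hfull V W F G hss hF hG d (2 * j + 1) (2 * i + 1) hd T (fun v w => by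
    rw [hT v w, show d * (2 * j + 1 + (2 * i + 1)) = 2 * (d * (j + i + 1)) by ring, sqrt_pow_two])
  have h0 : {T' : MultilinearMap ℂ (fun _ : Fin (2 * j + 1) => V) (W →ₗ[ℂ] ℂ) |
      TK.IsProdOver Q d (2 * j + 1) (2 * i + 1) F G T'} = ∅ := by
    rw [Set.eq_empty_iff_forall_notMem]
    rintro T' ⟨T₀, c, ⟨m, σ, B, hB, hT₀⟩, hc, hT'⟩
    have hc := Fintype.card_congr σ
    rw [Fintype.card_sum, Fintype.card_fin, Fintype.card_fin] at hc
    omega
  rw [h0, Submodule.span_empty] at hmem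
  exact (Submodule.mem_bot ℂ).1 hmem

/-! ### Descent -/

section

variable {k : Type} [Field k] [Algebra k ℂ] {V W : Type} [AddCommGroup V] [Module k V]
  [AddCommGroup W] [Module k W]

theorem mulCW_exists [FiniteDimensional k V] [FiniteDimensional k W] {m : ℕ}
    (T : MultilinearMap k (fun _ : Fin m => V) (W →ₗ[k] k)) :
    ∃ T' : MultilinearMap ℂ (fun _ : Fin m => ℂ ⊗[k] V) (ℂ ⊗[k] W →ₗ[ℂ] ℂ),
      ∀ (v : Fin m → V) (w : W), T' (fun a => 1 ⊗ₜ v a) (1 ⊗ₜ w) = algebraMap k ℂ (T v w) := by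
  classical
  let b := finBasis k W
  choose T₀ hT₀ using fun i => mulC_exists ((LinearMap.applyₗ (b i)).compMultilinearMap T)
  let T' : MultilinearMap ℂ (fun _ : Fin m => ℂ ⊗[k] V) (ℂ ⊗[k] W →ₗ[ℂ] ℂ) :=
    ∑ i, (T₀ i).smulRight ((b.baseChange ℂ).coord i)
  refine ⟨T', fun v w => ?_⟩
  have h1 : ∀ w : ℂ ⊗[k] W, T' (fun a => 1 ⊗ₜ v a) w =
      ∑ i, algebraMap k ℂ (T v (b i)) * (b.baseChange ℂ).coord i w := by
    intro w
    simp only [T', sum_apply, MultilinearMap.smulRight_apply, LinearMap.sum_apply,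
      LinearMap.smul_apply, smul_eq_mul, hT₀]
    rfl
  have h2 : ((T' fun a => 1 ⊗ₜ v a).restrictScalars k) ∘ₗ (TensorProduct.mk k ℂ W 1) =
      (Algebra.linearMap k ℂ) ∘ₗ (T v) := by
    refine b.ext fun i => ?_
    change T' (fun a => 1 ⊗ₜ v a) (1 ⊗ₜ b i) = algebraMap k ℂ (T v (b i))
    rw [h1, Finset.sum_eq_single i]
    · rw [← Basis.baseChange_apply ℂ b, Basis.coord_apply, Basis.repr_self,
        Finsupp.single_eq_same, mul_one]
    · intro i' _ hi'
      rw [← Basis.baseChange_apply ℂ b, Basis.coord_apply, Basis.repr_self,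
        Finsupp.single_eq_of_ne hi', mul_zero]
    · intro hi
      exact absurd (Finset.mem_univ _) hi
  exact LinearMap.congr_fun h2 w

theorem tateC [FiniteDimensional k V] [FiniteDimensional k W] {m : ℕ}
    {T : MultilinearMap k (fun _ : Fin m => V) (W →ₗ[k] k)}
    {T' : MultilinearMap ℂ (fun _ : Fin m => ℂ ⊗[k] V) (ℂ ⊗[k] W →ₗ[ℂ] ℂ)}
    (hT' : ∀ (v : Fin m → V) (w : W), T' (fun a => 1 ⊗ₜ v a) (1 ⊗ₜ w) = algebraMap k ℂ (T v w))
    {F : V →ₗ[k] V} {G : W →ₗ[k] W} {d r Q : ℕ}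
    (hT : ∀ v w, T (fun a => (F ^ d) (v a)) (G w) = (Q : k) ^ r * T v w) :
    ∀ v w, T' (fun a => ((F.baseChange ℂ) ^ d) (v a)) (G.baseChange ℂ w) =
      (Q : ℂ) ^ r * T' v w := by
  have h : (G.baseChange ℂ).dualMap.compMultilinearMap
      (T'.compLinearMap fun _ => (F.baseChange ℂ) ^ d) = ((Q : ℂ) ^ r) • T' := by
    refine Basis.ext_multilinear (fun _ => (finBasis k V).baseChange ℂ) fun f => ?_
    refine ((finBasis k W).baseChange ℂ).ext fun i => ?_
    rw [LinearMap.compMultilinearMap_apply, MultilinearMap.compLinearMap_apply, smul_apply,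
      LinearMap.smul_apply, smul_eq_mul, LinearMap.dualMap_apply]
    simp only [Basis.baseChange_apply, baseChange_pow_tmul, LinearMap.baseChange_tmul]
    rw [hT' (fun a => (F ^ d) (finBasis k V (f a))), hT' (fun a => finBasis k V (f a)), hT,
      map_mul, map_pow, map_natCast]
  intro v w
  have h1 := congrArg (fun T : MultilinearMap ℂ (fun _ : Fin m => ℂ ⊗[k] V) (ℂ ⊗[k] W →ₗ[ℂ] ℂ) =>
    T v w) h
  exact h1

/-- The eigenvalues of a power over `ℂ` are powers of roots of the characteristic polynomial. -/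
theorem eig_pow [FiniteDimensional k W] {G : W →ₗ[k] W} {p : ℤ[X]}
    (hp : G.charpoly = p.map (Int.castRingHom k)) {S : ℂ → Prop}
    (hS : ∀ z : ℂ, aeval z p = 0 → S z) {d : ℕ} (hd : 0 < d) (hSp : ∀ z : ℂ, S z → S (z ^ d)) :
    ∀ y, Module.End.HasEigenvalue ((G ^ d).baseChange ℂ) y → S y := by
  intro y hy
  have h1 : (G ^ d).baseChange ℂ = (G.baseChange ℂ) ^ d := by rw [LinearMap.baseChange_pow]
  rw [h1, Module.End.hasEigenvalue_iff_mem_spectrum, spectrum.map_pow_of_pos _ hd] at hy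
  obtain ⟨z, hz, rfl⟩ := hy
  refine hSp z (hS z ?_)
  rw [← Module.End.hasEigenvalue_iff_mem_spectrum,
    Module.End.hasEigenvalue_iff_isRoot_charpoly, LinearMap.charpoly_baseChange, hp,
    Polynomial.map_map] at hz
  rw [show (algebraMap k ℂ).comp (Int.castRingHom k) = Int.castRingHom ℂ from
    RingHom.ext_int _ _] at hz
  rw [aeval_def, algebraMap_int_eq, ← eval_map]
  exact hz

/-- Over a field `k` with an embedding in `ℂ`: the Tate forms with values in the dual of `W`. -/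
theorem tate_field_over [FiniteDimensional k V] [FiniteDimensional k W] {Q : ℕ} (hQ : 0 < Q)
    {R : ℤ[X]} (hR : (R.map (Int.castRingHom ℚ)).Separable) {S : ℂ → Prop} (hS1 : S 1)
    (hfull : FullS Q R S) (F : V →ₗ[k] V)
    (hF : F.charpoly = R.map (Int.castRingHom k)) (e : V →ₗ[k] V →ₗ[k] k)
    (halt : ∀ v, e v v = 0) (hnd : ∀ v, (∀ w, e v w = 0) → v = 0)
    (he : ∀ v w, e (F v) (F w) = (Q : k) * e v w) (G : W →ₗ[k] W)
    (hG : ∀ y, Module.End.HasEigenvalue (G.baseChange ℂ) y → S y) {d : ℕ} (hd : 0 < d) {j i : ℕ}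
    (T : MultilinearMap k (fun _ : Fin (2 * j) => V) (W →ₗ[k] k))
    (hT : ∀ v w, T (fun a => (F ^ d) (v a)) (G w) = (Q : k) ^ (d * (j + i)) * T v w) :
    (fun v w => T v w) ∈ Rg (prodForm e F (j := j)) (eigForms G ((Q : k) ^ (d * i))) := by
  classical
  obtain ⟨T', hT'⟩ := mulCW_exists T
  have hFC : (F.baseChange ℂ).charpoly = R.map (Int.castRingHom ℂ) := by
    rw [LinearMap.charpoly_baseChange, hF, Polynomial.map_map]
    exact congrArg (fun f : ℤ →+* ℂ => R.map f) (RingHom.ext_int _ _)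
  have hmem := tate_complex_over hQ hR hS1 hfull (F.baseChange ℂ) hFC (bilC e) (bilC_alt e halt)
    (bilC_nondeg e halt hnd) (bilC_frob e F he) (G.baseChange ℂ) hG hd T' (tateC hT' hT)
  obtain ⟨c, hc, hsum⟩ := Rg_exists hmem
  obtain ⟨g, hg⟩ : ∃ g : ℂ →ₗ[k] k, g ∘ₗ Algebra.linearMap k ℂ = LinearMap.id :=
    LinearMap.exists_leftInverse_of_injective _
      (LinearMap.ker_eq_bot.2 (FaithfulSMul.algebraMap_injective k ℂ))
  have hg1 : ∀ x : k, g (algebraMap k ℂ x) = x := fun x => LinearMap.congr_fun hg x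
  have hg2 : ∀ (x : k) (z : ℂ), g (algebraMap k ℂ x * z) = x * g z := fun x z => by
    rw [← smul_eq_mul, algebraMap_smul, map_smul, smul_eq_mul]
  have hprod : ∀ (α : (Fin j ⊕ Fin j ≃ Fin (2 * j)) × (Fin j → ℕ)) (v : Fin (2 * j) → V),
      prodForm (bilC e) (F.baseChange ℂ) α (fun a => 1 ⊗ₜ v a) =
        algebraMap k ℂ (prodForm e F α v) := by
    intro α v
    simp only [prodForm, baseChange_pow_tmul, bilC_tmul, map_prod]
  let ρ : (ℂ ⊗[k] W →ₗ[ℂ] ℂ) → (W →ₗ[k] k) := fun y =>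
    g ∘ₗ (y.restrictScalars k) ∘ₗ (TensorProduct.mk k ℂ W 1)
  have hρ : ∀ α, ρ (c α) ∈ eigForms G ((Q : k) ^ (d * i)) := by
    intro α w
    change g (c α (1 ⊗ₜ G w)) = (Q : k) ^ (d * i) * g (c α (1 ⊗ₜ w))
    have h1 := hc α (1 ⊗ₜ w)
    rw [LinearMap.baseChange_tmul] at h1
    rw [h1, ← hg2, map_pow, map_natCast]
  have h2 : (fun v w => T v w) = ∑ α ∈ c.support, fun v w => prodForm e F α v * ρ (c α) w := by
    funext v w
    rw [Finset.sum_apply, Finset.sum_apply]
    have h3 := hsum (fun a => 1 ⊗ₜ v a) (1 ⊗ₜ w)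
    rw [hT'] at h3
    have h4 := congrArg g h3
    rw [hg1, Finsupp.sum, map_sum] at h4
    rw [h4]
    refine Finset.sum_congr rfl fun α _ => ?_
    rw [hprod, hg2]
    rfl
  rw [h2]
  exact Submodule.sum_mem _ fun α _ => Rg_single _ _ α (hρ α)

theorem tate_field_odd [FiniteDimensional k V] [FiniteDimensional k W] {Q : ℕ}
    {R : ℤ[X]} (hR : (R.map (Int.castRingHom ℚ)).Separable) {S : ℂ → Prop}
    (hfull : FullS Q R S) (F : V →ₗ[k] V)
    (hF : F.charpoly = R.map (Int.castRingHom k)) (G : W →ₗ[k] W)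
    (hG : ∀ y, Module.End.HasEigenvalue (G.baseChange ℂ) y → S y) {d : ℕ} (hd : 0 < d) {j i : ℕ}
    (T : MultilinearMap k (fun _ : Fin (2 * j + 1) => V) (W →ₗ[k] k))
    (hT : ∀ v w, T (fun a => (F ^ d) (v a)) (G w) = (Q : k) ^ (d * (j + i + 1)) * T v w) :
    T = 0 := by
  obtain ⟨T', hT'⟩ := mulCW_exists T
  have hFC : (F.baseChange ℂ).charpoly = R.map (Int.castRingHom ℂ) := by
    rw [LinearMap.charpoly_baseChange, hF, Polynomial.map_map]
    exact congrArg (fun f : ℤ →+* ℂ => R.map f) (RingHom.ext_int _ _)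
  have h0 := tate_complex_odd hR hfull (F.baseChange ℂ) hFC (G.baseChange ℂ) hG hd T'
    (tateC hT' hT)
  ext v w
  have h1 := hT' v w
  rw [h0] at h1
  exact (FaithfulSMul.algebraMap_injective k ℂ) (h1.symm.trans (map_zero (algebraMap k ℂ)).symm)

end

end Pool.Agent.Lib.MP_021685_agTT
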