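import Pool.Agent.Lib.MP_021685_agTT.LB2
import Pool.Agent.Lib.MP_021685_agTT.VB

/-!
Tate forms on a power `V ^ n` with values in the dual of a second space, and the alternating ones.
-/

set_option autoImplicit false

namespace Pool.Agent.Lib.MP_021685_agTT

open Polynomial Module TensorProduct

section

variable {k : Type} [Field k] [Algebra k ℂ] {V W : Type} [AddCommGroup V] [Module k V]
  [AddCommGroup W] [Module k W] [FiniteDimensional k V] [FiniteDimensional k W]

/-- Multilinear Tate forms in `2 j` arguments from `V ^ n`, with values in the dual of `W`. -/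
theorem tate_power_over {Q : ℕ} (hQ : 0 < Q)
    {R : ℤ[X]} (hR : (R.map (Int.castRingHom ℚ)).Separable) {S : ℂ → Prop} (hS1 : S 1)
    (hfull : FullS Q R S) (F : V →ₗ[k] V)
    (hF : F.charpoly = R.map (Int.castRingHom k)) (e : V →ₗ[k] V →ₗ[k] k)
    (halt : ∀ v, e v v = 0) (hnd : ∀ v, (∀ w, e v w = 0) → v = 0)
    (he : ∀ v w, e (F v) (F w) = (Q : k) * e v w) (G : W →ₗ[k] W)
    (hG : ∀ y, Module.End.HasEigenvalue (G.baseChange ℂ) y → S y) {d : ℕ} (hd : 0 < d)
    {n j i : ℕ} (T : MultilinearMap k (fun _ : Fin (2 * j) => Fin n → V) (W →ₗ[k] k))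
    (hT : ∀ (v : Fin (2 * j) → Fin n → V) (w : W),
      T (fun a s => (F ^ d) (v a s)) (G w) = (Q : k) ^ (d * (j + i)) * T v w) :
    (fun v w => T v w) ∈ Rg (pairProd e F (n := n) (j := j)) (eigForms G ((Q : k) ^ (d * i))) := by
  classical
  have hS : ∀ s : Fin (2 * j) → Fin n, (fun (v : Fin (2 * j) → V) w =>
      T (fun a => Pi.single (s a) (v a)) w) ∈
        Rg (prodForm e F (j := j)) (eigForms G ((Q : k) ^ (d * i))) := by
    intro s
    refine tate_field_over hQ hR hS1 hfull F hF e halt hnd he G hG hd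
      (T.compLinearMap fun a => LinearMap.single k (fun _ : Fin n => V) (s a)) fun v w => ?_
    rw [MultilinearMap.compLinearMap_apply, MultilinearMap.compLinearMap_apply]
    rw [← hT]
    congr 2
    funext a t
    change (Pi.single (s a) ((F ^ d) (v a)) : Fin n → V) t =
      (F ^ d) ((Pi.single (s a) (v a) : Fin n → V) t)
    by_cases hst : t = s a
    · subst hst
      rw [Pi.single_eq_same, Pi.single_eq_same]
    · rw [Pi.single_eq_of_ne hst, Pi.single_eq_of_ne hst, map_zero]
  choose c hc hcs using fun s => Rg_exists (hS s)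
  have hsum : ∀ v, T v = ∑ s : Fin (2 * j) → Fin n, T fun a => Pi.single (s a) (v a (s a)) := by
    intro v
    have h : v = fun a => ∑ t : Fin n, (Pi.single t (v a t) : Fin n → V) := by
      funext a
      exact (Finset.univ_sum_single (v a)).symm
    conv_lhs => rw [h]
    rw [MultilinearMap.map_sum]
  let idx : (Fin (2 * j) → Fin n) → (Fin j ⊕ Fin j ≃ Fin (2 * j)) × (Fin j → ℕ) → Ind n j :=
    fun s α => (α.1, fun a => (α.2 a, s (α.1 (Sum.inl a)), s (α.1 (Sum.inr a))))
  have h1 : (fun v w => T v w) = ∑ s : Fin (2 * j) → Fin n, ∑ α ∈ (c s).support,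
      fun v w => pairProd e F (idx s α) v * c s α w := by
    funext v w
    rw [hsum v, LinearMap.sum_apply, Finset.sum_apply, Finset.sum_apply]
    refine Finset.sum_congr rfl fun s _ => ?_
    rw [Finset.sum_apply, Finset.sum_apply]
    exact hcs s (fun a => v a (s a)) w
  rw [h1]
  exact Submodule.sum_mem _ fun s _ => Submodule.sum_mem _ fun α _ => Rg_single _ _ _ (hc s α)

theorem tate_power_odd {Q : ℕ}
    {R : ℤ[X]} (hR : (R.map (Int.castRingHom ℚ)).Separable) {S : ℂ → Prop}
    (hfull : FullS Q R S) (F : V →ₗ[k] V)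
    (hF : F.charpoly = R.map (Int.castRingHom k)) (G : W →ₗ[k] W)
    (hG : ∀ y, Module.End.HasEigenvalue (G.baseChange ℂ) y → S y) {d : ℕ} (hd : 0 < d)
    {n j i : ℕ} (T : MultilinearMap k (fun _ : Fin (2 * j + 1) => Fin n → V) (W →ₗ[k] k))
    (hT : ∀ (v : Fin (2 * j + 1) → Fin n → V) (w : W),
      T (fun a s => (F ^ d) (v a s)) (G w) = (Q : k) ^ (d * (j + i + 1)) * T v w) :
    T = 0 := by
  classical
  have hS : ∀ s : Fin (2 * j + 1) → Fin n,
      T.compLinearMap (fun a => LinearMap.single k (fun _ : Fin n => V) (s a)) = 0 := by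
    intro s
    refine tate_field_odd (i := i) hR hfull F hF G hG hd _ fun v w => ?_
    rw [MultilinearMap.compLinearMap_apply, MultilinearMap.compLinearMap_apply]
    rw [← hT]
    congr 2
    funext a t
    change (Pi.single (s a) ((F ^ d) (v a)) : Fin n → V) t =
      (F ^ d) ((Pi.single (s a) (v a) : Fin n → V) t)
    by_cases hst : t = s a
    · subst hst
      rw [Pi.single_eq_same, Pi.single_eq_same]
    · rw [Pi.single_eq_of_ne hst, Pi.single_eq_of_ne hst, map_zero]
  refine MultilinearMap.ext fun v => ?_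
  have h : v = fun a => ∑ t : Fin n, (Pi.single t (v a t) : Fin n → V) := by
    funext a
    exact (Finset.univ_sum_single (v a)).symm
  rw [h, MultilinearMap.map_sum]
  exact Finset.sum_eq_zero fun s _ =>
    congrArg (fun T : MultilinearMap k (fun _ : Fin (2 * j + 1) => V) (W →ₗ[k] k) =>
      T fun a => v a (s a)) (hS s)

end

/-- The alternating forms. -/
theorem alt_over {k : Type*} [Field k] [CharZero k] {V W : Type*} [AddCommGroup V] [Module k V]
    [AddCommGroup W] [Module k W] {n j : ℕ} (e : V →ₗ[k] V →ₗ[k] k) (halt : ∀ v, e v v = 0)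
    (F : V →ₗ[k] V) (E : Submodule k (W →ₗ[k] k))
    (T : (Fin n → V) [⋀^Fin j ⊕ Fin j]→ₗ[k] (W →ₗ[k] k)) (e0 : Fin j ⊕ Fin j ≃ Fin (2 * j))
    (h : (fun (v : Fin (2 * j) → Fin n → V) w => T (fun a => v (e0 a)) w) ∈
      Rg (pairProd e F (n := n) (j := j)) E) :
    (fun v w => T v w) ∈ Rg (fun (m : Fin j → Fin n → ℤ[X]) (v : Fin j ⊕ Fin j → Fin n → V) =>
      cup (fun i => pull e F (m i)) v) E := by
  classical
  obtain ⟨c, hcE, hc⟩ := Rg_exists h
  have hcard : (Fintype.card (Equiv.Perm (Fin j ⊕ Fin j)) : k) ≠ 0 :=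
    Nat.cast_ne_zero.2 Fintype.card_ne_zero
  let B : Ind n j → Fin j → (Fin n → V) → (Fin n → V) → k := fun α a x y =>
    e ((F ^ (α.2 a).1) (x (α.2 a).2.1)) (y (α.2 a).2.2)
  have h5 : ∀ (v : Fin j ⊕ Fin j → Fin n → V) (σ : Equiv.Perm (Fin j ⊕ Fin j)) (w : W),
      T (v ∘ σ) w = ∑ α ∈ c.support,
        (∏ a : Fin j, B α a (v (σ ((α.1.trans e0.symm) (Sum.inl a))))
          (v (σ ((α.1.trans e0.symm) (Sum.inr a))))) * c α w := by
    intro v σ w
    have h6 := hc (fun a => v (σ (e0.symm a))) w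
    simp only [Equiv.symm_apply_apply] at h6
    exact h6
  have hT : ∀ v w, (Fintype.card (Equiv.Perm (Fin j ⊕ Fin j)) : k) * T v w =
      ∑ α ∈ c.support, ((Equiv.Perm.sign (α.1.trans e0.symm) : ℤ) : k) *
        (cup (B α) v * c α w) := by
    intro v w
    have h8 := alt_sum ((LinearMap.applyₗ w).compAlternatingMap T) v
    change (Fintype.card (Equiv.Perm (Fin j ⊕ Fin j)) : k) * T v w =
      ∑ σ : Equiv.Perm (Fin j ⊕ Fin j), ((Equiv.Perm.sign σ : ℤ) : k) * T (v ∘ σ) w at h8
    rw [h8]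
    have h7 : ∀ σ : Equiv.Perm (Fin j ⊕ Fin j), ((Equiv.Perm.sign σ : ℤ) : k) * T (v ∘ σ) w =
        ∑ α ∈ c.support, (((Equiv.Perm.sign σ : ℤ) : k) *
          ∏ a : Fin j, B α a (v (σ ((α.1.trans e0.symm) (Sum.inl a))))
            (v (σ ((α.1.trans e0.symm) (Sum.inr a))))) * c α w := by
      intro σ
      rw [h5, Finset.mul_sum]
      refine Finset.sum_congr rfl fun α _ => ?_
      rw [mul_assoc]
    rw [Finset.sum_congr rfl fun σ _ => h7 σ, Finset.sum_comm]
    refine Finset.sum_congr rfl fun α _ => ?_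
    rw [← Finset.sum_mul, cup_perm, mul_assoc]
  have h1 : (fun v w => T v w) = (Fintype.card (Equiv.Perm (Fin j ⊕ Fin j)) : k)⁻¹ •
      ∑ α ∈ c.support, ((Equiv.Perm.sign (α.1.trans e0.symm) : ℤ) : k) •
        (fun v w => cup (B α) v * c α w) := by
    funext v w
    rw [Pi.smul_apply, Pi.smul_apply, smul_eq_mul, eq_inv_mul_iff_mul_eq₀ hcard, hT v w,
      Finset.sum_apply, Finset.sum_apply]
    rfl
  rw [h1]
  exact Submodule.smul_mem _ _ (Submodule.sum_mem _ fun α _ => Submodule.smul_mem _ _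
    (Rg_span _ _ (cup_mem e halt F α.2 (B α) fun a x y => rfl) (hcE α)))

end Pool.Agent.Lib.MP_021685_agTT
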