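import Pool.Agent.Lib.MP_021685_agTM.MD
import Pool.Agent.Lib.MP_021685_agTT.GC
import Pool.Agent.Lib.MP_021685_agTT.LA2
import Pool.Agent.Lib.MP_021685_agTT.DW
import Pool.Agent.Lib.MP_021685_agTT.BW

/-!
Tate forms over a field `k` with an embedding in the field of complex numbers, for an action of a group with enough good
elements.
-/

set_option autoImplicit false

namespace Pool.Agent.Lib.MP_021685_agTT

open Polynomial TensorProduct

section

variable {k : Type} [Field k] {G : Type} [Group G] {V : Type} [AddCommGroup V] [Module k V] {W : Type} [AddCommGroup W]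
  [Module k W]

/-- The pairs `(g, χ (g))` for `g` in the subgroup `G'`. -/
def pairs (ρ : Representation k G V) (χ : G →* kˣ) (G' : Subgroup G) : Set ((V →ₗ[k] V) × k) :=
  {p | ∃ g ∈ G', p = (ρ g, (χ g : k))}

/-- The pairs `(g, χ (g) ^ i)` for `g` in the subgroup `G'`. -/
def lins (σ : Representation k G W) (χ : G →* kˣ) (G' : Subgroup G) (i : ℤ) : Set ((W →ₗ[k] W) × k) :=
  {p | ∃ g ∈ G', p = (σ g, ((χ g ^ i : kˣ) : k))}

variable [Algebra k ℂ]

theorem charC_apply (χ : G →* kˣ) (g : G) : (charC χ g : ℂ) = algebraMap k ℂ (χ g) := rfl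

theorem charC_zpow (χ : G →* kˣ) (g : G) (i : ℤ) :
    ((charC χ g ^ i : ℂˣ) : ℂ) = algebraMap k ℂ ((χ g ^ i : kˣ) : k) := by
  have h : charC χ g ^ i = Units.map (algebraMap k ℂ : k →* ℂ) (χ g ^ i) :=
    (map_zpow (Units.map (algebraMap k ℂ : k →* ℂ)) (χ g) i).symm
  rw [h]
  rfl

theorem hasForm_repC [Module.Finite k V] (ρ : Representation k G V) (χ : G →* kˣ) (e : V →ₗ[k] V →ₗ[k] k)
    (halt : ∀ v, e v v = 0) (hnd : ∀ v, (∀ w, e v w = 0) → v = 0)
    (he : ∀ g v w, e (ρ g v) (ρ g w) = (χ g : k) * e v w) : TGR.HasForm (repC ρ) (charC χ) := by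
  refine ⟨bilC e, bilC_alt e halt, bilC_nondeg e halt hnd, fun g v w => ?_⟩
  have h : (bilC e).compl₁₂ ((ρ g).baseChange ℂ) ((ρ g).baseChange ℂ) = (charC χ g : ℂ) • bilC e := by
    refine bil_ext fun v w => ?_
    rw [LinearMap.compl₁₂_apply, LinearMap.baseChange_tmul, LinearMap.baseChange_tmul, bilC_tmul,
      he, LinearMap.smul_apply, LinearMap.smul_apply, bilC_tmul, map_mul, smul_eq_mul, charC_apply]
  have h1 := LinearMap.congr_fun₂ h v w
  rwa [LinearMap.compl₁₂_apply, LinearMap.smul_apply, LinearMap.smul_apply, smul_eq_mul] at h1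

theorem lift_core [Module.Finite k V] [Module.Finite k W] (h : TPM.FullG)
    (ρ : Representation k G V) (σ : Representation k G W)
    (χ : G →* kˣ) (e : V →ₗ[k] V →ₗ[k] k) (halt : ∀ v, e v v = 0) (hnd : ∀ v, (∀ w, e v w = 0) → v = 0)
    (he : ∀ g v w, e (ρ g v) (ρ g w) = (χ g : k) * e v w)
    (hen : TPM.Enough (TPM.GoodAt (repC σ) (charC χ)) (repC ρ) (charC χ))
    (G' : Subgroup G) (hG' : G'.FiniteIndex) {n : ℕ} (i : ℤ) (T : MultilinearMap k (fun _ : Fin n => V) (W →ₗ[k] k))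
    (hT : ∀ g ∈ G', ∀ v w, T (fun a => ρ g (v a)) (σ g w) = ((χ g ^ i : kˣ) : k) * T v w) :
    ∃ G'' : Subgroup G, G''.FiniteIndex ∧
      T ∈ Submodule.span k {D | ∃ (m : ℕ) (e : Fin m ⊕ Fin m ≃ Fin n),
        IsProdW (pairs ρ χ G'') (lins σ χ G'' (i - m)) e D} := by
  obtain ⟨TC, hTC, hTC'⟩ := exists_extendW ℂ T
  obtain ⟨G'', hG'', hspan⟩ := h G (ℂ ⊗[k] V) (ℂ ⊗[k] W) (repC ρ) (repC σ) (charC χ)
    (hasForm_repC ρ χ e halt hnd he) hen G' n i TC hG' (by
      intro g hg v w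
      have h1 := hTC' (ρ g) (σ g) ((χ g ^ i : kˣ) : k) (hT g hg) v w
      have h2 : TC (fun a => repC ρ g (v a)) (repC σ g w) = algebraMap k ℂ ((χ g ^ i : kˣ) : k) * TC v w := h1
      rw [h2, charC_zpow])
  refine ⟨G'', hG'', ?_⟩
  refine descentW (C := ℂ) (pairs ρ χ G'') (fun m => lins σ χ G'' (i - m)) T
    (TGR.IsProduct (repC ρ) (repC σ) (charC χ) G'' i) (fun T' hT' => ?_) TC hTC hspan
  obtain ⟨m, e', B, Y, hB, hY, hT'⟩ := hT'
  refine ⟨m, e', B, Y, ?_, ?_, hT'⟩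
  · rintro j' _ ⟨g, hg, rfl⟩ x y
    exact hB j' g hg x y
  · rintro _ ⟨g, hg, rfl⟩ x
    have h3 := hY g hg x
    rw [charC_zpow] at h3
    exact h3

end

end Pool.Agent.Lib.MP_021685_agTT
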