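import Pool.Agent.Lib.MP_021685_agTT.LT
import Pool.Agent.Lib.MP_021685_agTT.LB3

/-!
Tate classes on the products of the powers of an abelian variety over a finite field and of a second variety.
-/

set_option autoImplicit false

namespace Pool.Agent.Lib.MP_021685_agTT

open Polynomial Pool.Agent.Lib.MP_17a322_nt.VA TensorProduct

/-- **All Tate classes on the products `A ^ n × Z` are sums of products of classes of divisors on `A ^ n` and of Tate classes on
`Z`**, for all abelian varieties `A` with Frobenius polynomial `R` over the fields with `Q` elements and all varieties `Z` over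
the same field, if the Frobenius eigenvalues of `Z` have the property `S`.

`A`, `l`, `F`, `e`, `n` are as in `LitTate`: `e` is the class of a polarization `D` of `A`.  `W` is the `l`-adic homology
`H_b(Z)`, the dual of `H^b(Z)`, of some degree `b`, and `G` the action of the Frobenius on it (for `b = 1` and an abelian
variety `Z` it is the Frobenius on `V_l(Z)`); its characteristic polynomial is the image of a polynomial `p` with integral
coefficients (Deligne; the roots have absolute value `Q ^ (b / 2)`), and all complex roots of `p` have the property `S`.  An element of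
`H^k(A ^ n) ⊗ H^b(Z) = Hom (W, Λ^k V_l(A ^ n)^*)` is an alternating form `T` in `k` arguments from `V_l(A) ^ n` with values in the
dual of `W`.  It is a Tate class over the extension of degree `d` of `K` if `T (F ^ d v_1, .., F ^ d v_k) (G ^ d w) =
Q ^ (d s) T (v_1, .., v_k) w`, where `k + b = 2 s`.

* `k = 2 j`, `b = 2 i`: `T` is a sum of products of cup products of the classes of `j` divisors `f_1^* D, .., f_j^* D` on
  `A ^ n`, where the `f` are homomorphisms `A ^ n → A` with components in `ℤ[F]` (`cup`, `pull`: see `LitTate`), and of Tate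
  classes `y` on `Z` over the same extension, `y (G ^ d w) = Q ^ (d i) y w`.
* `k = 2 j + 1`, `b = 2 i + 1`: `T = 0`.

By the Künneth formula all Tate classes on `A ^ n × Z` are sums of such `T`. -/
def LitOver (Q : ℕ) (R : ℤ[X]) (S : ℂ → Prop) : Prop :=
  ∀ (K : Type) [Field K] [Fintype K] (N : ℕ) (A : AV K N) (l : ℕ) [Fact l.Prime],
    Fintype.card K = Q → (l : K) ≠ 0 → (frobV A l).charpoly = R.map (Int.castRingHom ℚ_[l]) →
    ∀ e : VlA A l →ₗ[ℚ_[l]] VlA A l →ₗ[ℚ_[l]] ℚ_[l], (∀ v, e v v = 0) →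
      (∀ v, (∀ w, e v w = 0) → v = 0) → (∀ v w, e (frobV A l v) (frobV A l w) = Q * e v w) →
      ∀ (W : Type) [AddCommGroup W] [Module ℚ_[l] W] [Module.Finite ℚ_[l] W] (G : W →ₗ[ℚ_[l]] W)
        (p : ℤ[X]), G.charpoly = p.map (Int.castRingHom ℚ_[l]) → (∀ z : ℂ, aeval z p = 0 → S z) →
        ∀ d n j i : ℕ, 0 < d →
          (∀ T : (Fin n → VlA A l) [⋀^Fin j ⊕ Fin j]→ₗ[ℚ_[l]] (W →ₗ[ℚ_[l]] ℚ_[l]),
            (∀ (v : Fin j ⊕ Fin j → Fin n → VlA A l) (w : W),
              T (fun a s => (frobV A l ^ d) (v a s)) ((G ^ d) w) = Q ^ (d * (j + i)) * T v w) →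
            ∃ c : (Fin j → Fin n → ℤ[X]) →₀ (W →ₗ[ℚ_[l]] ℚ_[l]),
              (∀ m w, c m ((G ^ d) w) = Q ^ (d * i) * c m w) ∧
              ∀ v w, T v w = c.sum fun m y => cup (fun a => pull e (frobV A l) (m a)) v * y w) ∧
          ∀ T : (Fin n → VlA A l) [⋀^Fin (2 * j + 1)]→ₗ[ℚ_[l]] (W →ₗ[ℚ_[l]] ℚ_[l]),
            (∀ (v : Fin (2 * j + 1) → Fin n → VlA A l) (w : W),
              T (fun a s => (frobV A l ^ d) (v a s)) ((G ^ d) w) =
                Q ^ (d * (j + i + 1)) * T v w) → T = 0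

/-- `FullS` is `TAF.FullFor`. -/
theorem litOver_of_full {Q : ℕ} {R : ℤ[X]} {S : ℂ → Prop}
    (hR : (R.map (Int.castRingHom ℚ)).Separable) (hS1 : S 1)
    (hSp : ∀ (z : ℂ) (d : ℕ), 0 < d → S z → S (z ^ d)) (h : FullS Q R S) : LitOver Q R S := by
  intro K _ _ N A l _ hK _ hchar e halt hnd he W _ _ _ G p hp hz d n j i hd
  obtain ⟨σ⟩ := exists_embedding l
  let _ : Algebra ℚ_[l] ℂ := σ.toAlgebra
  have hQ : 0 < Q := by
    rw [← hK]; exact Fintype.card_pos
  have hG := eig_pow hp hz hd (S := S) fun z => hSp z d hd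
  refine ⟨fun T hT => ?_, fun T hT => ?_⟩
  · let e0 : Fin j ⊕ Fin j ≃ Fin (2 * j) := finSumFinEquiv.trans (finCongr (two_mul j).symm)
    have h1 := tate_power_over hQ hR hS1 h (frobV A l) hchar e halt hnd he (G ^ d) hG hd
      (T.toMultilinearMap.domDomCongr e0) fun v w => hT (fun a => v (e0 a)) w
    obtain ⟨c, hc, hsum⟩ := Rg_exists (alt_over e halt (frobV A l) _ T e0 h1)
    exact ⟨c, hc, hsum⟩
  · have h1 := tate_power_odd hR h (frobV A l) hchar (G ^ d) hG hd T.toMultilinearMap hT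
    exact AlternatingMap.coe_multilinearMap_injective h1

/-- `Z` a point. -/
theorem litTate_of_over {Q : ℕ} {R : ℤ[X]} {S : ℂ → Prop} (hS1 : S 1) (h : LitOver Q R S) :
    LitTate Q R := by
  intro K _ _ N A l _ hK hl hchar e halt hnd he d n j hd T hT
  have hp : (LinearMap.id : ℚ_[l] →ₗ[ℚ_[l]] ℚ_[l]).charpoly =
      (X - 1 : ℤ[X]).map (Int.castRingHom ℚ_[l]) := by
    rw [show (LinearMap.id : ℚ_[l] →ₗ[ℚ_[l]] ℚ_[l]) = 1 from rfl, LinearMap.charpoly_one,
      Module.finrank_self, pow_one, Polynomial.map_sub, Polynomial.map_X, Polynomial.map_one]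
  have hz : ∀ z : ℂ, aeval z (X - 1 : ℤ[X]) = 0 → S z := by
    intro z hz
    rw [map_sub, aeval_X, map_one, sub_eq_zero] at hz
    rw [hz]; exact hS1
  obtain ⟨c, -, hc⟩ := (h K N A l hK hl hchar e halt hnd he ℚ_[l] LinearMap.id (X - 1) hp hz d n j 0
    hd).1 ((LinearMap.mul ℚ_[l] ℚ_[l]).compAlternatingMap T) (fun v w => by
      change T (fun a s => (frobV A l ^ d) (v a s)) * ((LinearMap.id ^ d : ℚ_[l] →ₗ[ℚ_[l]] ℚ_[l]) w) =
        Q ^ (d * (j + 0)) * (T v * w)
      rw [hT v, add_zero, mul_assoc]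
      congr 2
      rw [show (LinearMap.id : ℚ_[l] →ₗ[ℚ_[l]] ℚ_[l]) = 1 from rfl, one_pow]
      rfl)
  refine ⟨c.mapRange (fun y => y 1) rfl, fun v => ?_⟩
  rw [Finsupp.sum_mapRange_index (fun m => zero_mul _)]
  have h1 := hc v 1
  change T v * 1 = _ at h1
  rw [mul_one] at h1
  rw [h1]
  exact Finset.sum_congr rfl fun m _ => mul_comm _ _

end Pool.Agent.Lib.MP_021685_agTT
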