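import Pool.Agent.Lib.MP_021685_agTT.VB
import Pool.Agent.Lib.MP_021685_agTT.FR
import Pool.Agent.Lib.MP_021685_agTT.FG
import Pool.Agent.Lib.MP_021685_agTT.Fin

/-!
Tate classes on the powers of an abelian variety over a finite field, in terms of its Tate modules.
-/

set_option autoImplicit false

universe u

namespace Pool.Agent.Lib.MP_021685_agTT

open Polynomial Pool.Agent.Lib.MP_17a322_nt.VA

/-- The rational `l`-adic Tate module `V_l(A)` of an abelian variety `A` over a field `K`: the tensor product with `ℚ_l` of
the `ℤ_l`-module of the sequences `x` of points of `A` over the algebraic closure of `K` with `x 0 = 0`,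
`l x (n + 1) = x n`. -/
abbrev VlA {K : Type u} [Field K] {N : ℕ} (A : AV K N) (l : ℕ) [Fact l.Prime] : Type u :=
  Vl l (A.Pts (AlgebraicClosure K))

/-- `V_l(A)` is finite-dimensional. -/
instance VlA_finite {K : Type u} [Field K] {N : ℕ} (A : AV K N) (l : ℕ) [hl : Fact l.Prime] :
    Module.Finite ℚ_[l] (VlA A l) :=
  Vl.finite (tors_finite A l hl.out.pos)

/-- The Frobenius operator on `V_l(A)`, `A` an abelian variety over a finite field with `q` elements: it raises the
coordinates of the points to the power `q`. -/
noncomputable def frobV {K : Type u} [Field K] [Fintype K] {N : ℕ} (A : AV K N) (l : ℕ)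
    [Fact l.Prime] : VlA A l →ₗ[ℚ_[l]] VlA A l :=
  Vl.map (frob A)

/-- **All Tate classes on all powers of all abelian varieties with Frobenius polynomial `R` over the fields with `Q` elements
are combinations of products of classes of divisors.**

`A` is an abelian variety in projective space over a field `K` with `Q` elements, `l` a prime number different from the
characteristic, `F` the Frobenius on the Tate module `V_l(A)`; assume that the characteristic polynomial of `F` is `R`.  Let
`e` be a non-degenerate alternating form on `V_l(A)` with `e (F v) (F w) = Q e v w` (the class of a polarization `D` of `A`;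
`e` is arbitrary here, and such `A` are not claimed to exist).

A Tate class of degree `2 j` on `A ^ n` over the extension of degree `d` of `K` is an element of
`H^(2 j)(A ^ n) = Λ^(2 j) V_l(A ^ n)^*`, `V_l(A ^ n) = V_l(A) ^ n`, on which the `d`-th power of the Frobenius is the
multiplication by `Q ^ (d j)`: an alternating form `T` in `2 j` arguments from `V_l(A) ^ n` with
`T (F ^ d v_1, .., F ^ d v_(2 j)) = Q ^ (d j) T (v_1, .., v_(2 j))`.

For polynomials `m_1, .., m_n` in `ℤ[X]` there is the homomorphism `f : A ^ n → A`, `f x = m_1(F) x_1 + .. + m_n(F) x_n`; on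
Tate modules it is `homV F m`, and the class of the divisor `f^* D` is `pull e F m`, `(x, y) ↦ e (f x) (f y)`.  The conclusion:
`T` is a linear combination of cup products of the classes of `j` such divisors `f_1^* D, .., f_j^* D` on `A ^ n` (`cup`, the
alternating sum over the permutations of the arguments; it is `2 ^ j` times the cup product).  So all Tate classes on all
powers of `A` over all finite extensions of `K` are algebraic; neither Tate's theorem nor the semisimplicity of the Frobenius
is assumed. -/
def LitTate (Q : ℕ) (R : ℤ[X]) : Prop :=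
  ∀ (K : Type) [Field K] [Fintype K] (N : ℕ) (A : AV K N) (l : ℕ) [Fact l.Prime],
    Fintype.card K = Q → (l : K) ≠ 0 → (frobV A l).charpoly = R.map (Int.castRingHom ℚ_[l]) →
    ∀ e : VlA A l →ₗ[ℚ_[l]] VlA A l →ₗ[ℚ_[l]] ℚ_[l], (∀ v, e v v = 0) →
      (∀ v, (∀ w, e v w = 0) → v = 0) → (∀ v w, e (frobV A l v) (frobV A l w) = Q * e v w) →
      ∀ d n j : ℕ, 0 < d → ∀ T : (Fin n → VlA A l) [⋀^Fin j ⊕ Fin j]→ₗ[ℚ_[l]] ℚ_[l],
        (∀ v : Fin j ⊕ Fin j → Fin n → VlA A l,
          T (fun a s => (frobV A l ^ d) (v a s)) = Q ^ (d * j) * T v) →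
        ∃ c : (Fin j → Fin n → ℤ[X]) →₀ ℚ_[l],
          ∀ v, T v = c.sum fun m y => y * cup (fun i => pull e (frobV A l) (m i)) v

theorem lit_of_full {Q : ℕ} {R : ℤ[X]} (hR : (R.map (Int.castRingHom ℚ)).Separable)
    (h : TI.Full Q R) : LitTate Q R := by
  intro K _ _ N A l _ hK _ hchar e halt hnd he d n j hd T hT
  obtain ⟨σ⟩ := exists_embedding l
  let _ : Algebra ℚ_[l] ℂ := σ.toAlgebra
  have hQ : 0 < Q := by
    rw [← hK]; exact Fintype.card_pos
  let e0 : Fin j ⊕ Fin j ≃ Fin (2 * j) := finSumFinEquiv.trans (finCongr (two_mul j).symm)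
  obtain ⟨c, hc⟩ := tate_power hQ hR h (frobV A l) hchar e halt hnd he hd
    (T.toMultilinearMap.domDomCongr e0) fun v => hT fun a => v (e0 a)
  exact alt_bridge e halt (frobV A l) T e0 c hc

end Pool.Agent.Lib.MP_021685_agTT
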