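import Pool.Agent.Lib.MP_021685_agTT.GD

/-!
Tate classes on products of a power of an abelian variety and another variety over a number field: the statement.
-/

set_option autoImplicit false

namespace Pool.Agent.Lib.MP_021685_agTT

open Polynomial NumberField TensorProduct Pool.Agent.Lib.MP_17a322_nt.VA

/-- `φ` is a Frobenius element at a prime ideal `p` of the number field `K` which does not contain the prime number `l`, and it is
good for `P` and `S`: `P` and `S` are good for `N (p)` (`TPM.Good`: `P` has no multiple roots, and there are no exotic Tate classes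
on the varieties `A ^ n × Z`, for the abelian varieties `A` over the residue field with Frobenius polynomial `P`, and the `Z` with
Frobenius eigenvalues in `S`), and the characteristic polynomial of `φ` on `W` is the image of a polynomial `f` with integral
coefficients all complex roots of which are in `S`. -/
def GoodPlace {K : Type} [Field K] [NumberField K] (l : ℕ) [Fact l.Prime] {W : Type} [AddCommGroup W]
    [Module ℚ_[l] W] [FiniteDimensional ℚ_[l] W] (σ : Representation ℚ_[l] (GalK K) W) (φ : GalK K) (P : ℤ[X])
    (S : ℂ → Prop) : Prop :=
  ∃ (p : Ideal (𝓞 K)) (f : ℤ[X]), p.IsPrime ∧ p ≠ ⊥ ∧ (l : 𝓞 K) ∉ p ∧ IsFrobAt p φ ∧ TPM.Good (Ideal.absNorm p) P S ∧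
    (σ φ).charpoly = f.map (Int.castRingHom ℚ_[l]) ∧ ∀ z : ℂ, aeval z f = 0 → S z

/-- **Abelian varieties over number fields.**

`B` is an abelian variety in projective space over a number field `K`, `l` a prime number, `V`, with `ι` and the action `ρ`, its
Tate module `V_l(B)` (`IsGalMod`), `e` the Weil pairing of a polarization (any non-degenerate alternating form with multiplier the
cyclotomic character; such `B` are not claimed to exist), `W` any finite-dimensional space over `ℚ_l` with a continuous action `σ`
of the absolute Galois group (the dual of `H ^ b (Z)`, `Z` a smooth projective variety over `K`, with good reduction at the places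
considered).

(1) If for ONE Frobenius element `φ` at ONE place which does not divide `l`, good for `P`, the characteristic polynomial of `φ` on
`V_l(B)` is `P`, then all Tate classes on all `B ^ n × Z` over all finite extensions of `K` are generated in degree two.  (No
hypothesis on the reduction of `B` is made; at a place of good reduction the characteristic polynomial of every Frobenius element
is that of the Frobenius of the reduction.)

(2) The same if there are enough good Frobenius elements (`TPM.Enough`: the action on `V_l(B)` is semisimple, and every piece of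
`V_l(B) ⊗ ℂ` has a good Frobenius element, at a place of its own). -/
def LitPlace : Prop :=
  ∀ (K : Type) [Field K] [NumberField K] (N : ℕ) (B : AV K N) (l : ℕ) [Fact l.Prime]
    (V : Type) [AddCommGroup V] [Module ℚ_[l] V] [FiniteDimensional ℚ_[l] V] (ι : (ℕ → B.Pts (AlgebraicClosure K)) → V)
    (ρ : Representation ℚ_[l] (GalK K) V) (e : V →ₗ[ℚ_[l]] V →ₗ[ℚ_[l]] ℚ_[l])
    (W : Type) [AddCommGroup W] [Module ℚ_[l] W] [FiniteDimensional ℚ_[l] W] (σ : Representation ℚ_[l] (GalK K) W),
    IsGalMod B l ι ρ → IsWeilForm (fun s => ρ s) e → (∀ (y : W →ₗ[ℚ_[l]] ℚ_[l]) (w : W), Continuous fun s => y (σ s w)) →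
    (∀ (φ : GalK K) (P : ℤ[X]) (S : ℂ → Prop), GoodPlace l σ φ P S →
      (ρ φ).charpoly = P.map (Int.castRingHom ℚ_[l]) → Generated ρ σ) ∧
    ∀ [Algebra ℚ_[l] ℂ], TPM.Enough (GoodPlace l σ) (repC ρ) (charC (cyc K l)) → Generated ρ σ

end Pool.Agent.Lib.MP_021685_agTT
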