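import Mathlib

/-!
The rational Tate module of an abelian group, characterised: definitions.
-/

set_option autoImplicit false

namespace Pool.Agent.Lib.MP_021685_agTT

/-- `x` is an element of the `l`-adic Tate module of the abelian group `M`: a sequence of elements of `M` with `x 0 = 0` and
`l x (n + 1) = x n`. -/
def IsSys (l : ℕ) {M : Type} [AddCommGroup M] (x : ℕ → M) : Prop :=
  x 0 = 0 ∧ ∀ n, l • x (n + 1) = x n

/-- **`V` is the rational `l`-adic Tate module `T_l(M) ⊗ ℚ_l` of the abelian group `M`**, and `ι` is the map `x ↦ x ⊗ 1` on the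
Tate module `T_l(M)`, the set of the `x` with `IsSys l x` (the values of `ι` on other sequences do not matter): `ι` is additive
and linear over `ℤ_l` (`a x n` is `b x n` for the integers `b` congruent to `a` modulo `l ^ n`; `a.appr n` is one of them), it is
injective, and every vector of `V` has a multiple by a power of `l` in the image. -/
structure IsTateMod (l : ℕ) [Fact l.Prime] (M : Type) [AddCommGroup M] (V : Type) [AddCommGroup V] [Module ℚ_[l] V]
    (ι : (ℕ → M) → V) : Prop where
  add : ∀ x y, IsSys l x → IsSys l y → ι (fun n => x n + y n) = ι x + ι y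
  smul : ∀ (a : ℤ_[l]) (x : ℕ → M), IsSys l x → ι (fun n => a.appr n • x n) = (a : ℚ_[l]) • ι x
  inj : ∀ x, IsSys l x → ι x = 0 → ∀ n, x n = 0
  span : ∀ v, ∃ (k : ℕ) (x : ℕ → M), IsSys l x ∧ ι x = (l : ℚ_[l]) ^ k • v

end Pool.Agent.Lib.MP_021685_agTT
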