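import Pool.Agent.Lib.MP_021685_agTT.TT
import Pool.Agent.Lib.MP_021685_agTT.TMD

/-!
The rational Tate module of an abelian group, characterised.
-/

set_option autoImplicit false

namespace Pool.Agent.Lib.MP_021685_agTT

open scoped TensorProduct

section

variable {l : ℕ} [hl : Fact l.Prime] {M : Type} [AddCommGroup M]

theorem exists_pow_mul (c : ℚ_[l]) : ∃ (k : ℕ) (a : ℤ_[l]), (l : ℚ_[l]) ^ k * c = (a : ℚ_[l]) := by
  obtain ⟨k, hk⟩ := pow_unbounded_of_one_lt ‖c‖ (show (1 : ℝ) < l from by exact_mod_cast hl.out.one_lt)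
  have hpos : (0 : ℝ) < (l : ℝ) ^ k := pow_pos (by exact_mod_cast hl.out.pos) k
  refine ⟨k, ⟨(l : ℚ_[l]) ^ k * c, ?_⟩, rfl⟩
  rw [norm_mul, Padic.norm_p_pow, zpow_neg, zpow_natCast]
  calc ((l : ℝ) ^ k)⁻¹ * ‖c‖ ≤ ((l : ℝ) ^ k)⁻¹ * (l : ℝ) ^ k := by gcongr
    _ = 1 := inv_mul_cancel₀ hpos.ne'

theorem Vl.exists_tmul (t : Vl l M) :
    ∃ (k : ℕ) (x : Tl l M), ((l : ℚ_[l]) ^ k) • t = (1 : ℚ_[l]) ⊗ₜ[ℤ_[l]] x := by
  have key : ∀ (a : ℤ_[l]) (x : Tl l M), (1 : ℚ_[l]) ⊗ₜ[ℤ_[l]] (a • x) = ((a : ℚ_[l]) : ℚ_[l]) • ((1 : ℚ_[l]) ⊗ₜ[ℤ_[l]] x) := by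
    intro a x
    rw [TensorProduct.smul_tmul', ← TensorProduct.smul_tmul, smul_eq_mul, mul_one, Algebra.smul_def, mul_one]
    rfl
  induction t using TensorProduct.induction_on with
  | zero => exact ⟨0, 0, by simp⟩
  | tmul c x =>
    obtain ⟨k, a, h⟩ := exists_pow_mul (l := l) c
    refine ⟨k, a • x, ?_⟩
    rw [key, TensorProduct.smul_tmul', TensorProduct.smul_tmul', smul_eq_mul, h, smul_eq_mul, mul_one]
  | add s t hs ht =>
    obtain ⟨k, x, hx⟩ := hs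
    obtain ⟨m, y, hy⟩ := ht
    refine ⟨k + m, ((l ^ m : ℕ) : ℤ_[l]) • x + ((l ^ k : ℕ) : ℤ_[l]) • y, ?_⟩
    rw [TensorProduct.tmul_add, key, key, ← hx, ← hy, smul_add, smul_smul, smul_smul, pow_add]
    push_cast
    rw [mul_comm ((l : ℚ_[l]) ^ m)]

theorem one_tmul_eq_zero {x : Tl l M} (h : (1 : ℚ_[l]) ⊗ₜ[ℤ_[l]] x = 0) : x = 0 := by
  have h1 := (IsLocalizedModule.eq_zero_iff (nonZeroDivisors ℤ_[l])
    (TensorProduct.mk ℤ_[l] ℚ_[l] (Tl l M) 1) (m := x)).1 h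
  obtain ⟨s, hs⟩ := h1
  exact Tl.smul_eq_zero (nonZeroDivisors.ne_zero s.2) hs

/-- The rational Tate module `Vl l M` is a model. -/
theorem Vl.isTateMod (l : ℕ) [hl : Fact l.Prime] (M : Type) [AddCommGroup M] : ∃ ι : (ℕ → M) → Vl l M, IsTateMod l M (Vl l M) ι := by
  classical
  refine ⟨fun x => if h : IsSys l x then (1 : ℚ_[l]) ⊗ₜ[ℤ_[l]] (⟨x, h⟩ : Tl l M) else 0, ?_, ?_, ?_, ?_⟩
  · intro x y hx hy
    have hxy : IsSys l (fun n => x n + y n) := ((⟨x, hx⟩ : Tl l M) + (⟨y, hy⟩ : Tl l M)).2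
    show dite _ _ _ = dite _ _ _ + dite _ _ _
    rw [dif_pos hx, dif_pos hy, dif_pos hxy, ← TensorProduct.tmul_add]
    rfl
  · intro a x hx
    have hax : IsSys l (fun n => a.appr n • x n) := (a • (⟨x, hx⟩ : Tl l M)).2
    show dite _ _ _ = _ • dite _ _ _
    rw [dif_pos hx, dif_pos hax]
    show (1 : ℚ_[l]) ⊗ₜ[ℤ_[l]] (a • (⟨x, hx⟩ : Tl l M)) = _
    rw [TensorProduct.smul_tmul', ← TensorProduct.smul_tmul, smul_eq_mul, mul_one, Algebra.smul_def, mul_one]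
    rfl
  · intro x hx h n
    have h1 : dite (IsSys l x) (fun h => (1 : ℚ_[l]) ⊗ₜ[ℤ_[l]] (⟨x, h⟩ : Tl l M)) (fun _ => 0) = 0 := h
    rw [dif_pos hx] at h1
    have h2 := one_tmul_eq_zero h1
    exact congrArg (fun z : Tl l M => (z : ℕ → M) n) h2
  · intro v
    obtain ⟨k, x, h⟩ := Vl.exists_tmul v
    refine ⟨k, x, x.2, ?_⟩
    show dite _ _ _ = _
    rw [dif_pos (show IsSys l (x : ℕ → M) from x.2), h]

variable {V : Type} [AddCommGroup V] [Module ℚ_[l] V] {ι : (ℕ → M) → V}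

/-- **Every model of the rational Tate module is isomorphic to `Vl l M`.** -/
theorem IsTateMod.equiv (h : IsTateMod l M V ι) :
    ∃ e : Vl l M ≃ₗ[ℚ_[l]] V, ∀ x : Tl l M, e ((1 : ℚ_[l]) ⊗ₜ[ℤ_[l]] x) = ι (x : ℕ → M) := by
  let _ : Module ℤ_[l] V := Module.compHom V (algebraMap ℤ_[l] ℚ_[l])
  have : IsScalarTower ℤ_[l] ℚ_[l] V := ⟨fun a c v => by
    rw [Algebra.smul_def, mul_smul]; rfl⟩
  let f : Tl l M →ₗ[ℤ_[l]] V :=
    { toFun := fun x => ι (x : ℕ → M)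
      map_add' := fun x y => h.add x y x.2 y.2
      map_smul' := fun a x => h.smul a x x.2 }
  let g : Vl l M →ₗ[ℚ_[l]] V := f.liftBaseChange ℚ_[l]
  have hg : ∀ x : Tl l M, g ((1 : ℚ_[l]) ⊗ₜ[ℤ_[l]] x) = ι (x : ℕ → M) := fun x => by
    show f.liftBaseChange ℚ_[l] _ = _
    rw [LinearMap.liftBaseChange_tmul, one_smul]
    rfl
  have hl0 : ∀ k : ℕ, (l : ℚ_[l]) ^ k ≠ 0 := fun k => pow_ne_zero _ (Nat.cast_ne_zero.2 hl.out.ne_zero)
  have hinj : Function.Injective g := by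
    rw [injective_iff_map_eq_zero]
    intro t ht
    obtain ⟨k, x, hx⟩ := Vl.exists_tmul t
    have h1 : ι (x : ℕ → M) = 0 := by
      rw [← hg, ← hx, map_smul, ht, smul_zero]
    have h2 : x = 0 := Tl.ext' fun n => h.inj _ x.2 h1 n
    rw [h2, TensorProduct.tmul_zero] at hx
    exact (smul_eq_zero.1 hx).resolve_left (hl0 k)
  have hsurj : Function.Surjective g := by
    intro v
    obtain ⟨k, x, hx, hv⟩ := h.span v
    refine ⟨((l : ℚ_[l]) ^ k)⁻¹ • ((1 : ℚ_[l]) ⊗ₜ[ℤ_[l]] (⟨x, hx⟩ : Tl l M)), ?_⟩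
    rw [map_smul, hg]
    show _ • ι x = v
    rw [hv, smul_smul, inv_mul_cancel₀ (hl0 k), one_smul]
  exact ⟨LinearEquiv.ofBijective g ⟨hinj, hsurj⟩, hg⟩

/-- Linear maps which agree on the image of the Tate module are equal. -/
theorem IsTateMod.ext (h : IsTateMod l M V ι) {X : Type} [AddCommGroup X] [Module ℚ_[l] X] {f g : V →ₗ[ℚ_[l]] X}
    (hfg : ∀ x, IsSys l x → f (ι x) = g (ι x)) : f = g := by
  refine LinearMap.ext fun v => ?_
  obtain ⟨k, x, hx, hv⟩ := h.span v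
  have h1 := hfg x hx
  rw [hv, map_smul, map_smul] at h1
  exact smul_right_injective X (pow_ne_zero k (Nat.cast_ne_zero.2 hl.out.ne_zero)) h1

end

end Pool.Agent.Lib.MP_021685_agTT
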