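import Pool.Agent.Lib.MP_021685_agTT.TM
import Pool.Agent.Lib.MP_021685_agTT.LT

/-!
The models of the rational Tate modules of abelian varieties: finite dimension, and the maps given by homomorphisms.
-/

set_option autoImplicit false

namespace Pool.Agent.Lib.MP_021685_agTT

open scoped TensorProduct
open Pool.Agent.Lib.MP_17a322_nt.VA

section

variable {l : ℕ} [hl : Fact l.Prime] {M : Type} [AddCommGroup M] {V : Type} [AddCommGroup V] [Module ℚ_[l] V]
  {ι : (ℕ → M) → V}

theorem IsTateMod.finite (h : IsTateMod l M V ι) (hM : {m : M | l • m = 0}.Finite) : Module.Finite ℚ_[l] V := by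
  obtain ⟨e, -⟩ := h.equiv
  have := Vl.finite hM
  exact Module.Finite.equiv e

/-- The models of `V_l(A)` are finite-dimensional. -/
theorem IsTateMod.finite_AV {K : Type} [Field K] {N : ℕ} (A : AV K N) {ι : (ℕ → A.Pts (AlgebraicClosure K)) → V}
    (h : IsTateMod l (A.Pts (AlgebraicClosure K)) V ι) : Module.Finite ℚ_[l] V :=
  h.finite (tors_finite A l hl.out.pos)

/-- A linear map `F` with `F (ι x) = ι (f ∘ x)` on the Tate module is `Vl.map f`, transported by the isomorphism. -/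
theorem IsTateMod.exists_conj (h : IsTateMod l M V ι) (f : M →+ M) (F : V →ₗ[ℚ_[l]] V)
    (hF : ∀ x, IsSys l x → F (ι x) = ι (fun n => f (x n))) :
    ∃ e : Vl l M ≃ₗ[ℚ_[l]] V, (∀ x : Tl l M, e ((1 : ℚ_[l]) ⊗ₜ[ℤ_[l]] x) = ι (x : ℕ → M)) ∧
      ∀ t, e (Vl.map f t) = F (e t) := by
  obtain ⟨e, he⟩ := h.equiv
  refine ⟨e, he, fun t => ?_⟩
  obtain ⟨k, x, hx⟩ := Vl.exists_tmul t
  have h1 : ((l : ℚ_[l]) ^ k) • e (Vl.map f t) = ((l : ℚ_[l]) ^ k) • F (e t) := by
    rw [← map_smul, ← map_smul, ← map_smul, ← map_smul, hx, he, hF _ x.2]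
    exact he (Tl.map f x)
  exact smul_right_injective V (pow_ne_zero k (Nat.cast_ne_zero.2 hl.out.ne_zero)) h1

end

end Pool.Agent.Lib.MP_021685_agTT
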